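import Pool.Agent.HE.Defs

/-!
# HE Bas: the forms
-/

set_option autoImplicit false

open Topology Filter Metric

namespace Pool.Agent.HE

open Pool.Agent.H36.BP (EN fs wd)
open Pool.Agent.H62.EF (MN pr)
open Pool.Agent.AD (Vd)
open Pool.Agent.TG (Lat Gd)
open Pool.Agent.G3 (wt TT LLift)

variable {N k q r : ℕ} {Λ : AddSubgroup (Vd (k + 1))} {D : Set (Vd (k + 1))} {X : Set (Vd (k + 1) × EN N)} {F : Fin q → Vd (k + 1) × EN N → ℂ} {d : Fin q → ℕ}
  {W : Fin q → Fin r → Vd (k + 1) →L[ℂ] ℂ}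

theorem qf_nonneg (f : Vd (k + 1) × EN N → ℂ) (e : ℕ) (V : Fin r → Vd (k + 1) →L[ℂ] ℂ) (y : Vd (k + 1)) (x : EN N) : 0 ≤ qf f e V y x := by
  unfold qf
  positivity

theorem HD.qf_smul (P : HD Λ D X F d W) (j : Fin q) (y : Vd (k + 1)) {c : ℂ} (hc : c ≠ 0) (x : EN N) : qf (F j) (d j) (W j) y (c • x) = qf (F j) (d j) (W j) y x := by
  have h1 : ‖c‖ ^ d j ≠ 0 := pow_ne_zero _ (norm_ne_zero_iff.2 hc)
  unfold qf
  rw [P.hom, norm_mul, norm_pow, norm_smul, mul_pow, mul_assoc, mul_div_mul_left _ _ h1]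

theorem HD.qf_add (P : HD Λ D X F d W) (j : Fin q) {l : Vd (k + 1)} (hl : l ∈ Λ) (y : Vd (k + 1)) (x : EN N) : qf (F j) (d j) (W j) (y + l) x = qf (F j) (d j) (W j) y x := by
  obtain ⟨e, he, h⟩ := P.per j l hl y
  unfold qf
  rw [h, norm_mul, ← he]
  ring

theorem continuous_wt (V : Fin r → Vd (k + 1) →L[ℂ] ℂ) : Continuous (wt V) := by
  unfold wt
  exact continuous_finsetSum _ fun i _ => ((V i).continuous.norm.pow 2)

theorem HD.qf_cont (P : HD Λ D X F d W) (j : Fin q) : ContinuousOn (fun p : Vd (k + 1) × EN N => qf (F j) (d j) (W j) p.1 p.2) {p | p.2 ≠ 0} := by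
  unfold qf
  refine ContinuousOn.div ?_ ?_ fun p hp => pow_ne_zero _ (norm_ne_zero_iff.2 hp)
  · refine Continuous.continuousOn ?_
    have h1 : Continuous fun p : Vd (k + 1) × EN N => F j (p.1, p.2) := (P.an j).continuous
    exact h1.norm.mul (Real.continuous_exp.comp ((continuous_wt (W j)).comp continuous_fst).neg)
  · exact (continuous_snd.norm.pow _).continuousOn

theorem HD.qf_le (P : HD Λ D X F d W) : ∃ C : ℝ, 0 < C ∧ ∀ (j : Fin q) (y : Vd (k + 1)) (x : EN N), qf (F j) (d j) (W j) y x ≤ C := by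
  have h1 : ∀ j : Fin q, ∃ C : ℝ, 0 < C ∧ ∀ (y : Vd (k + 1)) (x : EN N), qf (F j) (d j) (W j) y x ≤ C := by
    intro j
    obtain ⟨R, hR0, hR⟩ := P.lat.cpt
    have hcpt : IsCompact (closedBall (0 : Vd (k + 1)) R ×ˢ sphere (0 : EN N) 1) := (isCompact_closedBall _ _).prod (isCompact_sphere _ _)
    have hc : ContinuousOn (fun p : Vd (k + 1) × EN N => qf (F j) (d j) (W j) p.1 p.2) (closedBall (0 : Vd (k + 1)) R ×ˢ sphere (0 : EN N) 1) := by
      refine (P.qf_cont j).mono ?_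
      rintro ⟨y, x⟩ ⟨-, hx⟩
      simp only [mem_sphere_zero_iff_norm] at hx
      show x ≠ 0
      rintro rfl
      rw [norm_zero] at hx
      exact zero_ne_one hx
    obtain ⟨C, hC⟩ := hcpt.bddAbove_image hc
    refine ⟨max C 1, lt_max_of_lt_right one_pos, fun y x => ?_⟩
    by_cases hx : x = 0
    · subst hx
      have h2 : qf (F j) (d j) (W j) y (0 : EN N) = 0 := by
        unfold qf
        rw [norm_zero, zero_pow (P.deg j).ne', div_zero]
      rw [h2]
      exact le_max_of_le_right zero_le_one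
    obtain ⟨l, hl, hlR⟩ := hR y
    have hn : ‖x‖ ≠ 0 := norm_ne_zero_iff.2 hx
    set c : ℂ := (((‖x‖⁻¹ : ℝ)) : ℂ) with hcd
    have hc0 : c ≠ 0 := by
      rw [hcd, Complex.ofReal_ne_zero]
      exact inv_ne_zero hn
    have h3 : qf (F j) (d j) (W j) y x = qf (F j) (d j) (W j) (y - l) (c • x) := by
      rw [P.qf_smul j _ hc0, ← P.qf_add j hl (y - l), sub_add_cancel]
    rw [h3]
    refine le_max_of_le_left (hC ⟨(y - l, c • x), ⟨?_, ?_⟩, rfl⟩)
    · simpa using hlR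
    · rw [mem_sphere_zero_iff_norm, norm_smul, hcd, Complex.norm_real, norm_inv, norm_norm, inv_mul_cancel₀ hn]
  choose C hC h2 using h1
  refine ⟨∑ j, C j + 1, by have := Finset.sum_nonneg fun j (_ : j ∈ Finset.univ) => (hC j).le; linarith, fun j y x => (h2 j y x).trans ?_⟩
  have := Finset.single_le_sum (f := C) (fun i _ => (hC i).le) (Finset.mem_univ j)
  linarith

/-- translation of a curve by a point of the lattice -/
theorem Cw.add (P : HD Λ D X F d W) {U : Set ℂ} {w : ℂ → EN N} {h : ℂ → Vd (k + 1)} (hc : Cw X F U w h) {l : Vd (k + 1)} (hl : l ∈ Λ) : Cw X F U w fun z => h z + l := by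
  refine ⟨hc.w_diff, hc.h_diff.add_const _, hc.w_ne, fun z hz => P.X_per l hl _ _ (hc.mem z hz), fun j z hz => ?_⟩
  obtain ⟨e, he, h1⟩ := P.per j l hl (h z)
  rw [h1]
  refine mul_ne_zero ?_ (hc.ne j z hz)
  rintro rfl
  rw [norm_zero, zero_mul] at he
  exact (Real.exp_pos _).ne he

/-- `Gd D δ` is periodic -/
theorem HD.gd_add (P : HD Λ D X F d W) (δ : ℝ) {y l : Vd (k + 1)} (hl : l ∈ Λ) (h : y ∈ Gd D δ) : y + l ∈ Gd D δ := by
  intro b hb
  have h1 := h _ (P.D_inv b hb (-l) (Λ.neg_mem hl))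
  have h2 : y - (b + -l) = y + l - b := by abel
  rwa [h2] at h1

theorem HD.qf_pos (P : HD Λ D X F d W) (j : Fin q) {x : EN N} (hx : x ≠ 0) {y : Vd (k + 1)} (hF : F j (y, x) ≠ 0) : 0 < qf (F j) (d j) (W j) y x := by
  have _ := P
  have h1 : 0 < ‖x‖ := norm_pos_iff.2 hx
  have h3 : 0 < ‖F j (y, x)‖ := norm_pos_iff.2 hF
  unfold qf
  positivity

end Pool.Agent.HE
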