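import Pool.Agent.H62.FC.Cartan
import Pool.Agent.H62.FC.PunctMero

/-!
# HE Bor: Borel's lemma at a puncture

`y s`, `s ∈ S`, are holomorphic functions without zeros on the punctured disc, with sum `0`.  Then for every `s ∈ S` there is a `t ∈ S`, `t ≠ s`, such that `y t / y s` is meromorphic at `0`: take a minimal `T ⊆ S`, `s ∈ T`, with a relation
`∑ t ∈ T, c t * y t = 0`, `c t ≠ 0`, and `cartan_punctMero` for the functions `(c t / c s) * (y t / y s)`, `t ∈ T`, `t ≠ s`.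
-/

set_option autoImplicit false

open Topology Filter Metric

namespace Pool.Agent.HE

open Pool.Agent.H62.FC (MeroPunct PunctMero cartan_punctMero)
open Pool.Agent.H92.GGL (ordZ)

/-- the punctured disc -/
def pd (R : ℝ) : Set ℂ := {z | 0 < ‖z‖ ∧ ‖z‖ < R}

theorem pd_open (R : ℝ) : IsOpen (pd R) := (isOpen_lt continuous_const continuous_norm).inter (isOpen_lt continuous_norm continuous_const)

theorem pd_conn (R : ℝ) : IsPreconnected (pd R) := Pool.Agent.H92.GGL.isPreconnected_punctured R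

theorem pd_ev {R : ℝ} (hR : 0 < R) : ∀ᶠ z in 𝓝[≠] (0 : ℂ), z ∈ pd R := by
  have h1 : ∀ᶠ z in 𝓝[≠] (0 : ℂ), z ∈ ball (0 : ℂ) R := nhdsWithin_le_nhds (ball_mem_nhds _ hR)
  filter_upwards [h1, self_mem_nhdsWithin] with z h2 h3
  exact ⟨norm_pos_iff.2 h3, by simpa using h2⟩

private theorem Bor_mero {R : ℝ} {f : ℂ → ℂ} (hf : DifferentiableOn ℂ f (pd R)) (h0 : ∀ z ∈ pd R, f z ≠ 0) {z : ℂ} (hz : z ∈ pd R) :
    MeromorphicAt f z ∧ meromorphicOrderAt f z = 0 := by
  have h1 : AnalyticAt ℂ f z := hf.analyticAt ((pd_open R).mem_nhds hz)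
  refine ⟨h1.meromorphicAt, ?_⟩
  rw [h1.meromorphicOrderAt_eq, h1.analyticOrderAt_eq_zero.2 (h0 z hz)]
  rfl

private theorem Bor_congr {R : ℝ} (hR : 0 < R) {f g : ℂ → ℂ} (hf : PunctMero f) (h : ∀ z ∈ pd R, f z = g z) : PunctMero g := by
  refine hf.congr ?_
  filter_upwards [pd_ev hR] with z hz
  have h1 : ∀ᶠ w in 𝓝 z, w ∈ pd R := (pd_open R).mem_nhds hz
  filter_upwards [nhdsWithin_le_nhds h1] with w hw
  exact h w hw

/-- **Borel's lemma at a puncture.** -/
theorem borel {ι : Type*} {R : ℝ} (hR : 0 < R) (S : Finset ι) {y : ι → ℂ → ℂ} (hy : ∀ s ∈ S, DifferentiableOn ℂ (y s) (pd R)) (hne : ∀ s ∈ S, ∀ z ∈ pd R, y s z ≠ 0)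
    (hsum : ∀ z ∈ pd R, ∑ s ∈ S, y s z = 0) {s : ι} (hs : s ∈ S) : ∃ t ∈ S, t ≠ s ∧ PunctMero (fun z => y t z / y s z) := by
  classical
  obtain ⟨z₁, hz₁⟩ : ∃ z₁, z₁ ∈ pd R := by
    refine ⟨((R / 2 : ℝ) : ℂ), ?_⟩
    have h1 : ‖((R / 2 : ℝ) : ℂ)‖ = R / 2 := by rw [Complex.norm_real, Real.norm_of_nonneg (by positivity)]
    exact ⟨by rw [h1]; positivity, by rw [h1]; linarith⟩
  -- a minimal relation
  set p : Finset ι → Prop := fun T => s ∈ T ∧ ∃ c : ι → ℂ, (∀ t ∈ T, c t ≠ 0) ∧ ∀ z ∈ pd R, ∑ t ∈ T, c t * y t z = 0 with hp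
  have hne' : (S.powerset.filter p).Nonempty := by
    refine ⟨S, Finset.mem_filter.2 ⟨Finset.mem_powerset_self S, hs, fun _ => 1, fun _ _ => one_ne_zero, fun z hz => ?_⟩⟩
    simpa using hsum z hz
  obtain ⟨T, hT, hmin⟩ := Finset.exists_min_image _ Finset.card hne'
  rw [Finset.mem_filter, Finset.mem_powerset] at hT
  obtain ⟨hTS, hsT, c, hc, hrel⟩ := hT
  have hmin' : ∀ T' ⊆ S, p T' → T.card ≤ T'.card := fun T' h1 h2 => hmin T' (Finset.mem_filter.2 ⟨Finset.mem_powerset.2 h1, h2⟩)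
  have hcs := hc s hsT
  -- the other indices
  obtain ⟨T', hT'⟩ : ∃ T', T' = T.erase s := ⟨_, rfl⟩
  have hT'T : ∀ t ∈ T', t ∈ T ∧ t ≠ s := by
    intro t ht
    rw [hT', Finset.mem_erase] at ht
    exact ⟨ht.2, ht.1⟩
  have hsplit : ∀ z, ∑ t ∈ T, c t * y t z = c s * y s z + ∑ t ∈ T', c t * y t z := by
    intro z
    rw [hT']
    exact (Finset.add_sum_erase T (fun t => c t * y t z) hsT).symm
  have hcard0 : 0 < T'.card := by
    rw [Finset.card_pos]
    by_contra hcon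
    rw [Finset.not_nonempty_iff_eq_empty] at hcon
    have h1 := hrel z₁ hz₁
    rw [hsplit, hcon, Finset.sum_empty, add_zero] at h1
    exact mul_ne_zero hcs (hne s hs z₁ hz₁) h1
  obtain ⟨n, hn⟩ : ∃ n, n = T'.card := ⟨_, rfl⟩
  have e : Fin n ≃ T' := (finCongr hn).trans T'.equivFin.symm
  have heT : ∀ i, (e i : ι) ∈ T := fun i => (hT'T _ (e i).2).1
  have hes : ∀ i, (e i : ι) ≠ s := fun i => (hT'T _ (e i).2).2
  obtain ⟨t₀, ht₀⟩ : ∃ t₀, t₀ ∈ T' := Finset.card_pos.1 hcard0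
  obtain ⟨i₀, hi₀⟩ : ∃ i₀ : Fin n, (e i₀ : ι) = t₀ := ⟨e.symm ⟨t₀, ht₀⟩, by simp⟩
  have hsumE : ∀ f : ι → ℂ, ∑ i, f (e i) = ∑ t ∈ T', f t := by
    intro f
    rw [← Finset.sum_coe_sort T' f]
    exact Equiv.sum_comp e fun t : T' => f t
  set u : Fin n → ℂ → ℂ := fun i z => c (e i) / c s * (y (e i) z / y s z) with hu
  have hud : ∀ i, DifferentiableOn ℂ (u i) (pd R) := fun i =>
    ((hy _ (hTS (heT i))).div (hy s hs) fun z hz => hne s hs z hz).const_mul _
  have hune : ∀ i, ∀ z ∈ pd R, u i z ≠ 0 := fun i z hz =>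
    mul_ne_zero (div_ne_zero (hc _ (heT i)) hcs) (div_ne_zero (hne _ (hTS (heT i)) z hz) (hne s hs z hz))
  have hu1 : ∀ z ∈ pd R, ∑ i, u i z = -1 := by
    intro z hz
    have h1 := hrel z hz
    rw [hsplit] at h1
    have h2 : ∑ i, u i z = (∑ t ∈ T', c t * y t z) / (c s * y s z) := by
      rw [Finset.sum_div, ← hsumE fun t => c t * y t z / (c s * y s z)]
      refine Finset.sum_congr rfl fun i _ => ?_
      rw [hu]
      simp only
      rw [div_mul_div_comm]
    have h3 : c s * y s z ≠ 0 := mul_ne_zero hcs (hne s hs z hz)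
    rw [h2, div_eq_iff h3]
    linear_combination h1
  -- the conclusion for `u i₀`
  suffices hmain : PunctMero (u i₀) by
    refine ⟨t₀, hTS (hT'T _ ht₀).1, (hT'T _ ht₀).2, ?_⟩
    refine Bor_congr hR ((PunctMero.const (c s / c t₀)).mul hmain) fun z _ => ?_
    rw [hu]
    simp only
    rw [hi₀]
    have h1 := hc t₀ (hT'T _ ht₀).1
    field_simp
  rcases Nat.lt_or_ge n 2 with hn2 | hn2
  · have hn1 : n = 1 := by omega
    refine Bor_congr hR (PunctMero.const (-1)) fun z hz => ?_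
    have h1 := hu1 z hz
    subst hn1
    rw [Fin.sum_univ_one] at h1
    rw [← h1]
    congr 1
    exact Subsingleton.elim _ _
  refine cartan_punctMero hn2 (d := (n + 1) * (n - 1) + 1) (Nat.lt_succ_self _) hR (u := u) (fun j => ?_) (fun z h1 h2 => ?_) (fun c' z h1 h2 hc' => ?_) (fun j z h1 h2 => ?_) i₀
  · exact ⟨fun z h1 h2 => (Bor_mero (hud j) (hune j) ⟨h1, h2⟩).1, fun z h1 h2 => by rw [(Bor_mero (hud j) (hune j) ⟨h1, h2⟩).2]; exact WithTop.zero_ne_top⟩
  · have h3 : ∀ᶠ w in 𝓝 z, w ∈ pd R := (pd_open R).mem_nhds ⟨h1, h2⟩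
    filter_upwards [nhdsWithin_le_nhds h3] with w hw
    exact hu1 w hw
  · -- linear independence
    by_contra hcon
    obtain ⟨j₀, hj₀⟩ : ∃ j₀, c' j₀ ≠ 0 := by
      by_contra h3
      push Not at h3
      exact hcon (funext h3)
    -- the relation holds everywhere
    have h3 : ∀ w ∈ pd R, ∑ j, c' j * u j w = 0 := by
      have hd : DifferentiableOn ℂ (fun w => ∑ j, c' j * u j w) (pd R) := DifferentiableOn.fun_sum fun j _ => (hud j).const_mul _
      have h4 := (hd.analyticOnNhd (pd_open R)).eqOn_zero_of_preconnected_of_frequently_eq_zero (pd_conn R) (z₀ := z) ⟨h1, h2⟩ hc'.frequently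
      exact fun w hw => h4 hw
    -- a shorter relation
    set dd : ι → ℂ := fun t => if h : t ∈ T' then c' (e.symm ⟨t, h⟩) * c t else 0 with hdd
    have hdde : ∀ i, dd (e i) = c' i * c (e i) := by
      intro i
      rw [hdd]
      simp only
      rw [dif_pos (e i).2]
      simp
    have hdds : dd s = 0 := by
      rw [hdd]
      simp only
      rw [dif_neg]
      rw [hT']
      exact Finset.notMem_erase s T
    have h4 : ∀ w ∈ pd R, ∑ t ∈ T', dd t * y t w = 0 := by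
      intro w hw
      have h5 : ∑ t ∈ T', dd t * y t w = (c s * y s w) * ∑ j, c' j * u j w := by
        rw [← hsumE fun t => dd t * y t w, Finset.mul_sum]
        refine Finset.sum_congr rfl fun i _ => ?_
        rw [hdde, hu]
        simp only
        have h6 := hne s hs w hw
        field_simp
      rw [h5, h3 w hw, mul_zero]
    obtain ⟨t₁, ht₁⟩ : ∃ t₁ : ι, t₁ = (e j₀ : ι) := ⟨_, rfl⟩
    have ht₁T : t₁ ∈ T := by rw [ht₁]; exact heT j₀
    have hdt₁ : dd t₁ ≠ 0 := by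
      rw [ht₁, hdde]
      exact mul_ne_zero hj₀ (hc _ (heT j₀))
    set c₂ : ι → ℂ := fun t => c t - c t₁ / dd t₁ * dd t with hc₂
    have hc₂s : c₂ s = c s := by
      rw [hc₂]
      simp only
      rw [hdds, mul_zero, sub_zero]
    have hc₂t : c₂ t₁ = 0 := by
      rw [hc₂]
      simp only
      rw [div_mul_cancel₀ _ hdt₁, sub_self]
    have hrel₂ : ∀ w ∈ pd R, ∑ t ∈ T, c₂ t * y t w = 0 := by
      intro w hw
      have h5 : ∑ t ∈ T, dd t * y t w = 0 := by
        rw [← Finset.add_sum_erase T (fun t => dd t * y t w) hsT, ← hT', h4 w hw, hdds, zero_mul, add_zero]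
      have h6 : ∑ t ∈ T, c₂ t * y t w = ∑ t ∈ T, c t * y t w - c t₁ / dd t₁ * ∑ t ∈ T, dd t * y t w := by
        rw [Finset.mul_sum, ← Finset.sum_sub_distrib]
        refine Finset.sum_congr rfl fun t _ => ?_
        rw [hc₂]
        ring
      rw [h6, hrel w hw, h5, mul_zero, sub_zero]
    have hsub : T.filter (fun t => c₂ t ≠ 0) ⊆ T := Finset.filter_subset _ _
    have h7 := hmin' (T.filter fun t => c₂ t ≠ 0) (hsub.trans hTS) ⟨Finset.mem_filter.2 ⟨hsT, by rw [hc₂s]; exact hcs⟩, c₂, fun t ht => (Finset.mem_filter.1 ht).2, fun w hw => by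
      rw [Finset.sum_filter_of_ne]
      · exact hrel₂ w hw
      · intro t _ ht h8
        exact ht (by rw [h8, zero_mul])⟩
    have h8 : (T.filter fun t => c₂ t ≠ 0) ⊂ T := by
      refine (Finset.ssubset_iff_of_subset hsub).2 ⟨t₁, ht₁T, ?_⟩
      rw [Finset.mem_filter]
      exact fun h => h.2 hc₂t
    exact absurd (Finset.card_lt_card h8) (not_lt.2 h7)
  · have h3 := (Bor_mero (hud j) (hune j) ⟨h1, h2⟩).2
    have h4 : ordZ (u j) z = 0 := by
      unfold ordZ
      rw [h3]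
      rfl
    rw [h4]
    exact dvd_zero _

end Pool.Agent.HE
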