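import Pool.Agent.HE.Long

/-!
# HE Bound: the main theorem on discs

Adapted from `PX/Bound`.
-/

set_option autoImplicit false

open Topology Filter Metric

namespace Pool.Agent.HE

open Pool.Agent.H36.BP (EN fs wd)
open Pool.Agent.H62.EF (MN pr)
open Pool.Agent.AD (Vd)
open Pool.Agent.TG (Lat Gd)
open Pool.Agent.G3 (wt TT LLift)

variable {N k q r : ℕ} {Λ : AddSubgroup (Vd (k + 1))} {D : Set (Vd (k + 1))} {X : Set (Vd (k + 1) × EN N)} {F : Fin q → Vd (k + 1) × EN N → ℂ} {d : Fin q → ℕ}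
  {W : Fin q → Fin r → Vd (k + 1) →L[ℂ] ℂ}

/-- Brody's choice of the point. -/
private theorem brody_pt {f : ℂ → Vd (k + 1)} (hf : DifferentiableOn ℂ f (ball 0 1)) (h0 : 0 < ‖f 0‖) :
    ∃ z₀ : ℂ, ‖z₀‖ < 1 / 2 ∧ 0 < (1 / 2 - ‖z₀‖) / 2 ∧ (∀ z ∈ ball z₀ ((1 / 2 - ‖z₀‖) / 2), ‖f z‖ ≤ 2 * ‖f z₀‖) ∧
      ‖f 0‖ / 4 ≤ (1 / 2 - ‖z₀‖) / 2 * ‖f z₀‖ := by
  have hcont : ContinuousOn (fun z : ℂ => (1 / 2 - ‖z‖) * ‖f z‖) (closedBall 0 (1 / 2)) := by
    have h1 : ContinuousOn f (closedBall 0 (1 / 2)) := hf.continuousOn.mono (closedBall_subset_ball (by norm_num))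
    exact (continuous_const.sub continuous_norm).continuousOn.mul h1.norm
  obtain ⟨z₀, hz₀, hmax⟩ := (isCompact_closedBall (0 : ℂ) (1 / 2)).exists_isMaxOn ⟨0, by simp⟩ hcont
  have h1 : (1 / 2 : ℝ) * ‖f 0‖ ≤ (1 / 2 - ‖z₀‖) * ‖f z₀‖ := by
    have := hmax (a := 0) (by simp)
    simpa using this
  have h2 : 0 < (1 / 2 - ‖z₀‖) * ‖f z₀‖ := lt_of_lt_of_le (by positivity) h1
  have h3 : 0 < 1 / 2 - ‖z₀‖ := by
    by_contra h
    push Not at h
    have := mul_nonpos_of_nonpos_of_nonneg h (norm_nonneg (f z₀))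
    linarith
  refine ⟨z₀, by linarith, by linarith, fun z hz => ?_, by linarith⟩
  rw [mem_ball_iff_norm] at hz
  have h4 : ‖z‖ ≤ ‖z - z₀‖ + ‖z₀‖ := by
    simpa using norm_add_le (z - z₀) z₀
  have h5 : (1 / 2 - ‖z₀‖) / 2 ≤ 1 / 2 - ‖z‖ := by linarith
  have h6 : (1 / 2 - ‖z‖) * ‖f z‖ ≤ (1 / 2 - ‖z₀‖) * ‖f z₀‖ := hmax (a := z) (by
    rw [mem_closedBall_zero_iff]
    linarith)
  have h7 : (1 / 2 - ‖z₀‖) / 2 * ‖f z‖ ≤ (1 / 2 - ‖z₀‖) * ‖f z₀‖ := (mul_le_mul_of_nonneg_right h5 (norm_nonneg _)).trans h6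
  have h8 : (1 / 2 - ‖z₀‖) * ‖f z‖ ≤ (1 / 2 - ‖z₀‖) * (2 * ‖f z₀‖) := by linarith
  exact le_of_mul_le_mul_left h8 h3

/-- **Main theorem on discs.** -/
theorem HD.bound (P : HD Λ D X F d W) : ∃ C : ℝ, 0 < C ∧ ∀ (w : ℂ → EN N) (h : ℂ → Vd (k + 1)), Cw X F (ball 0 1) w h → ‖deriv h 0‖ ≤ C := by
  obtain ⟨R, η, hR, hη, hno⟩ := P.no_long (A₂ := 1) one_pos
  refine ⟨16 * R / η + 4 * R, by positivity, fun w h hc => ?_⟩
  by_contra hM
  push Not at hM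
  set M : ℝ := ‖deriv h 0‖ with hMdef
  have hM0 : 0 < M := lt_trans (by positivity) hM
  have hM1 : 4 * R < M := lt_of_le_of_lt (by have : 0 ≤ 16 * R / η := by positivity
                                             linarith) hM
  have hM2 : 16 * R / η < M := lt_of_le_of_lt (by linarith) hM
  have hM3 : 16 * R < M * η := by
    rw [div_lt_iff₀ hη] at hM2
    exact hM2
  have hdd : DifferentiableOn ℂ (deriv h) (ball 0 1) := hc.h_diff.deriv isOpen_ball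
  obtain ⟨z₀, hz₀, hs, hz1, hz2⟩ := brody_pt hdd hM0
  set s : ℝ := (1 / 2 - ‖z₀‖) / 2 with hsdef
  set m : ℝ := ‖deriv h z₀‖ with hmdef
  have hm : 0 < m := by
    by_contra hm
    have hm' : m = 0 := le_antisymm (not_lt.1 hm) (norm_nonneg _)
    rw [hm', mul_zero] at hz2
    linarith
  have hsub : ∀ z ∈ ball z₀ s, z ∈ ball (0 : ℂ) 1 := by
    intro z hz
    rw [mem_ball_iff_norm] at hz
    rw [mem_ball_zero_iff]
    have h1 : ‖z‖ ≤ ‖z - z₀‖ + ‖z₀‖ := by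
      simpa using norm_add_le (z - z₀) z₀
    have h2 := norm_nonneg z₀
    simp only [hsdef] at hz
    linarith
  have hRs : R < m * s := by nlinarith
  have hmC : (m : ℂ) ≠ 0 := by exact_mod_cast hm.ne'
  -- the rescaled curve
  set φ : ℂ → ℂ := fun ζ => z₀ + ζ / m with hφ
  have hφd : ∀ ζ, HasDerivAt φ (1 / m : ℂ) ζ := by
    intro ζ
    simpa [hφ] using ((hasDerivAt_id ζ).div_const (m : ℂ)).const_add z₀
  have hφm : ∀ ζ ∈ ball (0 : ℂ) R, φ ζ ∈ ball z₀ s := by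
    intro ζ hζ
    rw [mem_ball_zero_iff] at hζ
    rw [mem_ball_iff_norm]
    have h1 : φ ζ - z₀ = ζ / m := by simp [hφ]
    rw [h1, norm_div, Complex.norm_real, Real.norm_of_nonneg hm.le, div_lt_iff₀ hm]
    nlinarith
  have hdH : ∀ ζ ∈ ball (0 : ℂ) R, deriv (fun ζ => h (φ ζ)) ζ = (1 / m : ℂ) • deriv h (φ ζ) := by
    intro ζ hζ
    have h1 : DifferentiableAt ℂ h (φ ζ) := (hc.h_diff _ (hsub _ (hφm ζ hζ))).differentiableAt (isOpen_ball.mem_nhds (hsub _ (hφm ζ hζ)))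
    exact (h1.hasDerivAt.scomp ζ (hφd ζ)).deriv
  have hφ0 : φ 0 = z₀ := by simp [hφ]
  have hnm : ‖(1 / m : ℂ)‖ = 1 / m := by
    rw [norm_div, norm_one, Complex.norm_real, Real.norm_of_nonneg hm.le]
  have ha : ‖(1 / m : ℂ) • deriv h z₀‖ = 1 := by
    rw [norm_smul, hnm, ← hmdef]
    field_simp
  refine hno (fun ζ => w (φ ζ)) (fun ζ => h (φ ζ)) ((1 / m : ℂ) • deriv h z₀) ha.ge ha.le ?_ ?_
  · exact hc.comp (fun ζ _ => (hφd ζ).differentiableAt.differentiableWithinAt) fun ζ hζ => hsub _ (hφm ζ hζ)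
  · intro ζ hζ
    rw [hdH ζ hζ, ← smul_sub, norm_smul, hnm]
    have hmaps : Set.MapsTo (deriv h) (ball z₀ s) (closedBall (deriv h z₀) (3 * m)) := by
      intro z hz
      rw [mem_closedBall_iff_norm]
      have h1 := hz1 z hz
      have h2 := norm_sub_le (deriv h z) (deriv h z₀)
      rw [← hmdef] at h2
      linarith
    have h3 := Complex.dist_le_div_mul_dist_of_mapsTo_ball (hdd.mono hsub) hmaps (hφm ζ hζ)
    rw [dist_eq_norm, dist_eq_norm] at h3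
    have h4 : ‖φ ζ - z₀‖ ≤ R / m := by
      have h1 : φ ζ - z₀ = ζ / m := by simp [hφ]
      rw [h1, norm_div, Complex.norm_real, Real.norm_of_nonneg hm.le]
      rw [mem_ball_zero_iff] at hζ
      gcongr
    have h5 : ‖deriv h (φ ζ) - deriv h z₀‖ ≤ 3 * m / s * (R / m) := h3.trans (by gcongr)
    calc 1 / m * ‖deriv h (φ ζ) - deriv h z₀‖ ≤ 1 / m * (3 * m / s * (R / m)) := by gcongr
      _ = 3 * R / (m * s) := by field_simp
      _ ≤ η := by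
        rw [div_le_iff₀ (by positivity)]
        nlinarith

end Pool.Agent.HE
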