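import Pool.Agent.HE.NakB

/-!
# HE Cvx: the quotients of the values of the pieces are meromorphic

`cvx`: a subgroup `H` of `ℤ^m`, `m ≥ 2 κ + 1`, with `n a ∈ H → a ∈ H`, which for all `S`, `|S| = κ + 1`, and `t` contains a combination `∑ s ∈ S, γ s (δ s - δ t)` with nonnegative coefficients, not all `0`, contains all `δ i - δ j`: otherwise a linear function `ν` is `0` on `H`, not constant on
the `δ i`; at most `κ` of the `ν (δ i)` are less than the maximum, and at most `κ` are greater than the minimum.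
-/

set_option autoImplicit false

open Topology Filter Metric MvPolynomial

namespace Pool.Agent.HE

open Pool.Agent.H62.FC (MeroPunct PunctMero cartan_punctMero)

theorem cvx_top {m κ : ℕ} (ν : Fin m → ℚ) (h : ∀ S : Finset (Fin m), S.card = κ + 1 → ∀ t, ∃ γ : Fin m → ℕ, (∃ s ∈ S, γ s ≠ 0) ∧ ∑ s ∈ S, (γ s : ℚ) * (ν s - ν t) = 0) (t : Fin m) :
    (Finset.univ.filter fun s => ν s < ν t).card ≤ κ := by
  classical
  by_contra hcon
  push Not at hcon
  obtain ⟨S, hS, hSc⟩ := Finset.exists_subset_card_eq (Nat.succ_le_of_lt hcon)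
  obtain ⟨γ, ⟨s, hs, hγ⟩, hsum⟩ := h S hSc t
  have hneg : ∀ s ∈ S, ν s - ν t < 0 := fun s hs => by
    have := (Finset.mem_filter.1 (hS hs)).2
    linarith
  have h1 : ∑ s ∈ S, (γ s : ℚ) * (ν s - ν t) < 0 := by
    refine Finset.sum_neg' (fun i hi => ?_) ⟨s, hs, ?_⟩
    · exact mul_nonpos_of_nonneg_of_nonpos (by positivity) (hneg i hi).le
    · exact mul_neg_of_pos_of_neg (by exact_mod_cast Nat.pos_of_ne_zero hγ) (hneg s hs)
  linarith

theorem cvx {m κ : ℕ} (hm : 2 * κ + 1 ≤ m) (H : AddSubgroup (Fin m → ℤ)) (hsat : ∀ (n : ℕ) (a : Fin m → ℤ), 0 < n → n • a ∈ H → a ∈ H)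
    (h : ∀ S : Finset (Fin m), S.card = κ + 1 → ∀ t, ∃ γ : Fin m → ℕ, (∃ s ∈ S, γ s ≠ 0) ∧ ∑ s ∈ S, (γ s : ℤ) • (Pi.single s 1 - Pi.single t 1 : Fin m → ℤ) ∈ H) (i j : Fin m) :
    (Pi.single i 1 - Pi.single j 1 : Fin m → ℤ) ∈ H := by
  classical
  set c : (Fin m → ℤ) →+ (Fin m → ℚ) := ⟨⟨fun a s => (a s : ℚ), by funext s; simp⟩, fun a b => by funext s; simp⟩ with hc
  have hcinj : Function.Injective c := by
    intro a b hab
    funext s
    have h1 : (a s : ℚ) = b s := congrFun hab s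
    exact_mod_cast h1
  set V : Submodule ℚ (Fin m → ℚ) := Submodule.span ℚ (c '' (H : Set (Fin m → ℤ))) with hV
  -- elements of the span
  have hspan : ∀ x ∈ V, ∃ (n : ℕ) (a : Fin m → ℤ), 0 < n ∧ a ∈ H ∧ n • x = c a := by
    intro x hx
    induction hx using Submodule.span_induction with
    | mem x hx =>
      obtain ⟨a, ha, rfl⟩ := hx
      exact ⟨1, a, one_pos, ha, one_smul _ _⟩
    | zero => exact ⟨1, 0, one_pos, H.zero_mem, by simp⟩
    | add x y _ _ hx hy =>
      obtain ⟨n, a, hn, ha, h1⟩ := hx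
      obtain ⟨n', a', hn', ha', h1'⟩ := hy
      refine ⟨n * n', n' • a + n • a', Nat.mul_pos hn hn', H.add_mem (H.nsmul_mem ha _) (H.nsmul_mem ha' _), ?_⟩
      rw [map_add, map_nsmul, map_nsmul, ← h1, ← h1', smul_smul, smul_smul, smul_add, mul_comm n' n]
    | smul r x _ hx =>
      obtain ⟨n, a, hn, ha, h1⟩ := hx
      refine ⟨r.den * n, r.num • a, Nat.mul_pos r.den_pos hn, H.zsmul_mem ha _, ?_⟩
      rw [map_zsmul, ← h1]
      funext s
      have h2 : (r.den : ℚ) * r = r.num := by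
        rw [mul_comm]
        exact Rat.mul_den_eq_num r
      have h3 : ((r.den * n) • (r • x)) s = ((r.den * n : ℕ) : ℚ) * (r * x s) := by
        rw [Pi.smul_apply, Pi.smul_apply, smul_eq_mul, nsmul_eq_mul]
      have h4 : (r.num • (n • x)) s = (r.num : ℚ) * ((n : ℚ) * x s) := by
        rw [Pi.smul_apply, Pi.smul_apply, nsmul_eq_mul, zsmul_eq_mul]
      rw [h3, h4, Nat.cast_mul]
      linear_combination ((n : ℚ) * x s) * h2
  by_contra hcon
  have hx : c (Pi.single i 1 - Pi.single j 1) ∉ V := by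
    intro hx
    obtain ⟨n, a, hn, ha, h1⟩ := hspan _ hx
    rw [← map_nsmul] at h1
    have h2 := hcinj h1
    exact hcon (hsat n _ hn (by rw [h2]; exact ha))
  obtain ⟨f, hf, hfV⟩ := Submodule.exists_le_ker_of_notMem hx
  set ν : Fin m → ℚ := fun s => f (Pi.single s 1) with hν
  have hcs : ∀ s, c (Pi.single s 1) = Pi.single s 1 := by
    intro s
    funext s'
    show ((Pi.single s 1 : Fin m → ℤ) s' : ℚ) = (Pi.single s 1 : Fin m → ℚ) s'
    rw [Pi.single_apply, Pi.single_apply]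
    split_ifs <;> simp
  have hν' : ∀ s t, f (c (Pi.single s 1 - Pi.single t 1)) = ν s - ν t := by
    intro s t
    rw [map_sub, map_sub, hcs, hcs]
  have hne : ν i ≠ ν j := by
    rw [hν'] at hf
    exact sub_ne_zero.1 hf
  have hγ : ∀ S : Finset (Fin m), S.card = κ + 1 → ∀ t, ∃ γ : Fin m → ℕ, (∃ s ∈ S, γ s ≠ 0) ∧ ∑ s ∈ S, (γ s : ℚ) * (ν s - ν t) = 0 := by
    intro S hS t
    obtain ⟨γ, h1, h2⟩ := h S hS t
    refine ⟨γ, h1, ?_⟩
    have h3 : f (c (∑ s ∈ S, (γ s : ℤ) • (Pi.single s 1 - Pi.single t 1 : Fin m → ℤ))) = 0 := hfV (Submodule.subset_span ⟨_, h2, rfl⟩)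
    rw [map_sum, map_sum] at h3
    rw [← h3]
    refine Finset.sum_congr rfl fun s _ => ?_
    rw [map_zsmul, map_zsmul, hν', zsmul_eq_mul]
    norm_cast
  -- the maximum and the minimum
  obtain ⟨t, -, ht⟩ := Finset.exists_max_image Finset.univ ν ⟨i, Finset.mem_univ i⟩
  obtain ⟨t', -, ht'⟩ := Finset.exists_min_image Finset.univ ν ⟨i, Finset.mem_univ i⟩
  have h1 := cvx_top ν hγ t
  have h2 := cvx_top (κ := κ) (fun s => -ν s) (fun S hS t => by
    obtain ⟨γ, h3, h4⟩ := hγ S hS t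
    refine ⟨γ, h3, ?_⟩
    have h5 : ∑ s ∈ S, (γ s : ℚ) * (-ν s - -ν t) = -∑ s ∈ S, (γ s : ℚ) * (ν s - ν t) := by
      rw [← Finset.sum_neg_distrib]
      refine Finset.sum_congr rfl fun s _ => ?_
      ring
    rw [h5, h4, neg_zero]) t'
  have hlt : ν t' < ν t := by
    rcases lt_or_gt_of_ne hne with h3 | h3
    · exact (ht' i (Finset.mem_univ i)).trans_lt (h3.trans_le (ht j (Finset.mem_univ j)))
    · exact (ht' j (Finset.mem_univ j)).trans_lt (h3.trans_le (ht i (Finset.mem_univ i)))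
  have h3 : (Finset.univ : Finset (Fin m)) ⊆ (Finset.univ.filter fun s => ν s < ν t) ∪ (Finset.univ.filter fun s => -ν s < -ν t') := by
    intro s _
    rw [Finset.mem_union, Finset.mem_filter, Finset.mem_filter]
    by_cases hs : ν s < ν t
    · exact Or.inl ⟨Finset.mem_univ s, hs⟩
    · exact Or.inr ⟨Finset.mem_univ s, by push Not at hs; linarith⟩
  have h4 := (Finset.card_le_card h3).trans (Finset.card_union_le _ _)
  rw [Finset.card_univ, Fintype.card_fin] at h4
  omega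

/-- **The quotients of the pieces are meromorphic.** -/
theorem TD.quo {N m κ e : ℕ} {w : Fin (N + 1) → ℂ → ℂ} {Q : Fin m → MvPolynomial (Fin (N + 1)) MF} (T : TD κ e w Q) (hm : 2 * κ + 1 ≤ m) (i j : Fin m) :
    PunctMero fun z => va w (Q i) z / va w (Q j) z := by
  classical
  obtain ⟨R, hR, hall⟩ := pd_of_ev (p := fun z => ∀ s, AnalyticAt ℂ (fun z => va w (Q s) z / va w (Q j) z) z ∧ va w (Q s) z ≠ 0) (by
    rw [Filter.eventually_all]
    intro s
    filter_upwards [va_quo T.an (T.hom s) (T.hom j) (T.val j), T.val s] with z h1 h2 using ⟨h1, h2⟩)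
  obtain ⟨u, hu⟩ : ∃ u : Fin m → ℂ → ℂ, u = fun s z => va w (Q s) z / va w (Q j) z := ⟨_, rfl⟩
  have hall' : ∀ z ∈ pd R, ∀ s, AnalyticAt ℂ (u s) z ∧ u s z ≠ 0 := by
    rw [hu]
    exact fun z hz s => ⟨(hall z hz s).1, div_ne_zero (hall z hz s).2 (hall z hz j).2⟩
  have hquo : ∀ z ∈ pd R, ∀ s t, u s z / u t z = va w (Q s) z / va w (Q t) z := by
    intro z hz s t
    rw [hu]
    exact div_div_div_cancel_right₀ (hall z hz j).2 _ _
  have hne : ∀ z ∈ pd R, ∀ s, u s z ≠ 0 := fun z hz s => (hall' z hz s).2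
  -- congruence
  have hcg : ∀ {f g : ℂ → ℂ}, PunctMero f → (∀ z ∈ pd R, f z = g z) → PunctMero g := by
    intro f g hf h
    refine hf.congr ?_
    filter_upwards [pd_ev hR] with z hz
    filter_upwards [nhdsWithin_le_nhds ((pd_open R).mem_nhds hz)] with ζ hζ using h ζ hζ
  set H : AddSubgroup (Fin m → ℤ) :=
    { carrier := {a | PunctMero fun z => ∏ s, u s z ^ a s}
      zero_mem' := by
        have h1 : (fun z => ∏ s, u s z ^ (0 : Fin m → ℤ) s) = fun _ => (1 : ℂ) := by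
          funext z
          exact Finset.prod_eq_one fun s _ => by rw [Pi.zero_apply, zpow_zero]
        show PunctMero _
        rw [h1]
        exact PunctMero.const 1
      add_mem' := by
        intro a b ha hb
        refine hcg (ha.mul hb) fun z hz => ?_
        rw [← Finset.prod_mul_distrib]
        refine Finset.prod_congr rfl fun s _ => ?_
        rw [Pi.add_apply, zpow_add₀ (hne z hz s)]
      neg_mem' := by
        intro a ha
        refine hcg ha.inv fun z hz => ?_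
        rw [← Finset.prod_inv_distrib]
        refine Finset.prod_congr rfl fun s _ => ?_
        rw [Pi.neg_apply, zpow_neg] } with hH
  have hHmem : ∀ a : Fin m → ℤ, a ∈ H ↔ PunctMero fun z => ∏ s, u s z ^ a s := fun a => Iff.rfl
  have hsingle : ∀ z ∈ pd R, ∀ s t, ∏ s', u s' z ^ (Pi.single s 1 - Pi.single t 1 : Fin m → ℤ) s' = u s z / u t z := by
    intro z hz s t
    have h1 : ∀ s', u s' z ^ (Pi.single s 1 - Pi.single t 1 : Fin m → ℤ) s' = (if s' = s then u s' z else 1) * (if s' = t then (u s' z)⁻¹ else 1) := by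
      intro s'
      rw [Pi.sub_apply, zpow_sub₀ (hne z hz s'), Pi.single_apply, Pi.single_apply, div_eq_mul_inv]
      congr 1
      · split_ifs
        · rw [zpow_one]
        · rw [zpow_zero]
      · split_ifs
        · rw [zpow_one]
        · rw [zpow_zero, inv_one]
    rw [Finset.prod_congr rfl fun s' _ => h1 s', Finset.prod_mul_distrib, Finset.prod_ite_eq', Finset.prod_ite_eq', if_pos (Finset.mem_univ _), if_pos (Finset.mem_univ _), div_eq_mul_inv]
  have hsat : ∀ (n : ℕ) (a : Fin m → ℤ), 0 < n → n • a ∈ H → a ∈ H := by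
    intro n a hn ha
    rw [hHmem] at ha ⊢
    refine PunctMero.root hR (f := fun z => ∏ s, u s z ^ a s) ?_ hn (hcg ha fun z hz => ?_)
    · have h1 : ∀ z ∈ pd R, AnalyticAt ℂ (fun z => ∏ s, u s z ^ a s) z := fun z hz => Finset.analyticAt_fun_prod _ fun s _ => (hall' z hz s).1.zpow (hall' z hz s).2
      refine ⟨fun z h2 h3 => (h1 z ⟨h2, h3⟩).meromorphicAt, fun z h2 h3 => ?_⟩
      have h4 : (fun z => ∏ s, u s z ^ a s) z ≠ 0 := Finset.prod_ne_zero_iff.2 fun s _ => zpow_ne_zero _ (hne z ⟨h2, h3⟩ s)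
      rw [(h1 z ⟨h2, h3⟩).meromorphicOrderAt_eq, (h1 z ⟨h2, h3⟩).analyticOrderAt_eq_zero.2 h4]
      exact WithTop.zero_ne_top
    · rw [← Finset.prod_pow]
      refine Finset.prod_congr rfl fun s _ => ?_
      rw [Pi.smul_apply, nsmul_eq_mul, mul_comm, zpow_mul, zpow_natCast]
  have h1 := cvx hm H hsat (fun S hS t => by
    obtain ⟨γ, h2, ⟨s, hs⟩, h3⟩ := T.gam hS t
    refine ⟨γ, ⟨s, h2 s hs, hs⟩, ?_⟩
    rw [hHmem]
    refine hcg h3 fun z hz => ?_
    have h4 : ∀ s', u s' z ^ (∑ s ∈ S, (γ s : ℤ) • (Pi.single s 1 - Pi.single t 1 : Fin m → ℤ)) s' = ∏ s ∈ S, (u s' z ^ (Pi.single s 1 - Pi.single t 1 : Fin m → ℤ) s') ^ γ s := by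
      intro s'
      rw [Finset.sum_apply]
      have h5 : ∀ T' : Finset (Fin m), u s' z ^ (∑ s ∈ T', ((γ s : ℤ) • (Pi.single s 1 - Pi.single t 1 : Fin m → ℤ)) s') = ∏ s ∈ T', (u s' z ^ (Pi.single s 1 - Pi.single t 1 : Fin m → ℤ) s') ^ γ s := by
        intro T'
        induction T' using Finset.induction_on with
        | empty => rw [Finset.sum_empty, Finset.prod_empty, zpow_zero]
        | insert a T' ha ih =>
          rw [Finset.sum_insert ha, Finset.prod_insert ha, zpow_add₀ (hne z hz s'), ih, Pi.smul_apply, smul_eq_mul, mul_comm (γ a : ℤ), zpow_mul, zpow_natCast]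
      exact h5 S
    rw [Finset.prod_congr rfl fun s' _ => h4 s', Finset.prod_comm]
    refine Finset.prod_congr rfl fun s _ => ?_
    rw [Finset.prod_pow, hsingle z hz, hquo z hz]) i j
  rw [hHmem] at h1
  refine hcg h1 fun z hz => ?_
  rw [hsingle z hz, hquo z hz]

end Pool.Agent.HE
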