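import Pool.Agent.G3.P.Ult
import Pool.Agent.G3.P.Ext
import Pool.Agent.G3.P.Ent
import Pool.Agent.TG.Defs

/-!
# HE Defs: hyperbolically embedded pairs over complex tori

`A = ℂ^(k+1) / Λ` is a complex torus.  `X ⊆ A × ℙ^N` is closed (given by the closed set `X ⊆ ℂ^(k+1) × ℂ^(N+1)`, `Λ`-periodic and conical in the second variable), `F j (y, x)`, `j < q`, are entire functions, homogeneous of degree `d j > 0`
in `x` and quasi-periodic in `y`, of weight `wt (W j)`.  `D` is a closed `Λ`-invariant set which meets all lines in isolated points.  Near the fibres over the points `y ∉ D` the `F j` have pieces such that the entire curves of bounded derivative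
in the fibre on which each piece is `0` or has no zeros are constant (`fib`).  The index `j` is ample if `W j` is positive definite; no section of `X` over a line off `D` which is contained in or disjoint from the zeros of each `F j` is contained in the zeros of all ample `F j` (`sec`).
Curves in the complement of the zeros of the `F j` are given by `h : ℂ → Vd (k+1)` and a lift `w : ℂ → EN N` of the component in `ℙ^N` (`Cw`).
-/

set_option autoImplicit false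

open Topology Filter Metric

namespace Pool.Agent.HE

open Pool.Agent.H36.BP (EN fs wd)
open Pool.Agent.H62.EF (MN pr)
open Pool.Agent.AD (Vd)
open Pool.Agent.TG (Lat Gd)
open Pool.Agent.G3 (wt TT LLift)

variable {N k q r : ℕ}

/-- `Q s`, `s < m`, are pieces of the `F j` near `y₀`: holomorphic for `y` near `y₀`, homogeneous of degree `e s` in `x`, without zeros at the points of `X` at which the `F j` are not `0`, and every entire curve of bounded derivative in the fibre of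
`X` over `y₀` on which each `Q s` is `0` or has no zeros is constant -/
structure Pc (X : Set (Vd (k + 1) × EN N)) (F : Fin q → Vd (k + 1) × EN N → ℂ) (y₀ : Vd (k + 1)) {m : ℕ} (Q : Fin m → Vd (k + 1) × EN N → ℂ) (e : Fin m → ℕ) (ρ : ℝ) : Prop where
  pos : 0 < ρ
  an : ∀ s, DifferentiableOn ℂ (Q s) (ball y₀ ρ ×ˢ Set.univ)
  hom : ∀ s, ∀ y ∈ ball y₀ ρ, ∀ (c : ℂ) (x : EN N), Q s (y, c • x) = c ^ e s * Q s (y, x)
  ne : ∀ s, ∀ y ∈ ball y₀ ρ, ∀ x : EN N, x ≠ 0 → (y, x) ∈ X → (∀ j, F j (y, x) ≠ 0) → Q s (y, x) ≠ 0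
  const : ∀ G : ℂ → EN N, Differentiable ℂ G → (∀ z, G z ≠ 0) → (∀ z, (y₀, G z) ∈ X) → (∃ L : ℝ, ∀ z, fs (G z) (deriv G z) ≤ L) →
    (∀ s, (∀ z, Q s (y₀, G z) = 0) ∨ ∀ z, Q s (y₀, G z) ≠ 0) → ∀ z w, ∃ c : ℂ, G z = c • G w

/-- `(h, w)` is over the set `U` a curve in `X` on which the `F j` have no zeros (used for open sets) -/
structure Cw (X : Set (Vd (k + 1) × EN N)) (F : Fin q → Vd (k + 1) × EN N → ℂ) (U : Set ℂ) (w : ℂ → EN N) (h : ℂ → Vd (k + 1)) : Prop where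
  w_diff : DifferentiableOn ℂ w U
  h_diff : DifferentiableOn ℂ h U
  w_ne : ∀ z ∈ U, w z ≠ 0
  mem : ∀ z ∈ U, (h z, w z) ∈ X
  ne : ∀ j, ∀ z ∈ U, F j (h z, w z) ≠ 0

/-- the limit situation on the line `z ↦ y + z • a`: curves `(w n, h n)` on larger and larger discs converge to `g` on the line off `D` -/
structure LS (X : Set (Vd (k + 1) × EN N)) (F : Fin q → Vd (k + 1) × EN N → ℂ) (D : Set (Vd (k + 1))) (y a : Vd (k + 1)) (𝒰 : Ultrafilter ℕ) (w : ℕ → ℂ → EN N) (h : ℕ → ℂ → Vd (k + 1))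
    (g : ℂ → MN N) : Prop where
  cv : ∀ R : ℝ, ∀ᶠ n in (𝒰 : Filter ℕ), Cw X F (ball 0 R) (w n) (h n)
  hh : ∀ R ε : ℝ, 0 < ε → ∀ᶠ n in (𝒰 : Filter ℕ), ∀ z ∈ closedBall (0 : ℂ) R, ‖h n z - (y + z • a)‖ < ε
  lift : ∀ z : ℂ, y + z • a ∉ D → LLift g z
  lim : ∀ K : Set ℂ, IsCompact K → (∀ z ∈ K, y + z • a ∉ D) → ∀ ε : ℝ, 0 < ε → ∀ᶠ n in (𝒰 : Filter ℕ), ∀ z ∈ K, dist (pr (w n z)) (g z) < ε

/-- the data -/
structure HD (Λ : AddSubgroup (Vd (k + 1))) (D : Set (Vd (k + 1))) (X : Set (Vd (k + 1) × EN N)) (F : Fin q → Vd (k + 1) × EN N → ℂ) (d : Fin q → ℕ)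
    (W : Fin q → Fin r → Vd (k + 1) →L[ℂ] ℂ) : Prop where
  lat : Lat Λ
  X_closed : IsClosed X
  X_per : ∀ l ∈ Λ, ∀ (y : Vd (k + 1)) (x : EN N), (y, x) ∈ X → (y + l, x) ∈ X
  X_smul : ∀ (c : ℂ) (y : Vd (k + 1)) (x : EN N), (y, x) ∈ X → (y, c • x) ∈ X
  an : ∀ j, Differentiable ℂ (F j)
  deg : ∀ j, 0 < d j
  hom : ∀ (j : Fin q) (c : ℂ) (y : Vd (k + 1)) (x : EN N), F j (y, c • x) = c ^ d j * F j (y, x)
  per : ∀ j, ∀ l ∈ Λ, ∀ y : Vd (k + 1), ∃ e : ℂ, ‖e‖ * Real.exp (-wt (W j) (y + l)) = Real.exp (-wt (W j) y) ∧ ∀ x : EN N, F j (y + l, x) = e * F j (y, x)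
  D_closed : IsClosed D
  D_inv : ∀ y ∈ D, ∀ l ∈ Λ, y + l ∈ D
  /-- the lines meet `D` in isolated points -/
  iso : ∀ a : Vd (k + 1), a ≠ 0 → ∀ y : Vd (k + 1), ∀ᶠ z in 𝓝[≠] (0 : ℂ), y + z • a ∉ D
  /-- a section of `X` over a line off `D` which is contained in or disjoint from the zeros of each `F j` and which is a limit of curves in the complement is not contained in the zeros of all ample `F j` -/
  sec : ∀ (y a : Vd (k + 1)), a ≠ 0 → ∀ g : ℂ → MN N, (∀ z : ℂ, y + z • a ∉ D → LLift g z) → (∀ z : ℂ, y + z • a ∉ D → ∀ x : EN N, x ≠ 0 → pr x = g z → (y + z • a, x) ∈ X) →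
    (∀ j, (∀ z : ℂ, y + z • a ∉ D → ∀ x : EN N, x ≠ 0 → pr x = g z → F j (y + z • a, x) = 0) ∨ ∀ z : ℂ, y + z • a ∉ D → ∀ x : EN N, x ≠ 0 → pr x = g z → F j (y + z • a, x) ≠ 0) →
    (∃ (𝒰 : Ultrafilter ℕ) (w : ℕ → ℂ → EN N) (h : ℕ → ℂ → Vd (k + 1)), LS X F D y a 𝒰 w h g) →
    ∃ i, (∀ y, (∀ s, W i s y = 0) → y = 0) ∧ ¬ ∀ z : ℂ, y + z • a ∉ D → ∀ x : EN N, x ≠ 0 → pr x = g z → F i (y + z • a, x) = 0
  /-- near the fibres outside `D` there are pieces of the `F j` whose strata contain no curves of bounded derivative -/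
  fib : ∀ y₀ ∉ D, ∃ (m : ℕ) (Q : Fin m → Vd (k + 1) × EN N → ℂ) (e : Fin m → ℕ) (ρ : ℝ), Pc X F y₀ Q e ρ

/-- the norm of a form in the metrics -/
noncomputable def qf (F : Vd (k + 1) × EN N → ℂ) (d : ℕ) (W : Fin r → Vd (k + 1) →L[ℂ] ℂ) (y : Vd (k + 1)) (x : EN N) : ℝ :=
  ‖F (y, x)‖ * Real.exp (-wt W y) / ‖x‖ ^ d

/-- `F j` is `0` on the curve `g` over the line `y + z a`, at the points off `D` -/
def Zr (F : Vd (k + 1) × EN N → ℂ) (D : Set (Vd (k + 1))) (y a : Vd (k + 1)) (g : ℂ → MN N) : Prop :=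
  ∀ z : ℂ, y + z • a ∉ D → ∀ x : EN N, x ≠ 0 → pr x = g z → F (y + z • a, x) = 0

theorem Cw.mono {X : Set (Vd (k + 1) × EN N)} {F : Fin q → Vd (k + 1) × EN N → ℂ} {U V : Set ℂ} {w : ℂ → EN N} {h : ℂ → Vd (k + 1)} (hc : Cw X F U w h) (hV : V ⊆ U) : Cw X F V w h :=
  ⟨hc.w_diff.mono hV, hc.h_diff.mono hV, fun z hz => hc.w_ne z (hV hz), fun z hz => hc.mem z (hV hz), fun j z hz => hc.ne j z (hV hz)⟩

theorem Cw.comp {X : Set (Vd (k + 1) × EN N)} {F : Fin q → Vd (k + 1) × EN N → ℂ} {U V : Set ℂ} {w : ℂ → EN N} {h : ℂ → Vd (k + 1)} (hc : Cw X F U w h) {φ : ℂ → ℂ}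
    (hφ : DifferentiableOn ℂ φ V) (hm : Set.MapsTo φ V U) : Cw X F V (fun z => w (φ z)) fun z => h (φ z) :=
  ⟨hc.w_diff.comp hφ hm, hc.h_diff.comp hφ hm, fun z hz => hc.w_ne _ (hm hz), fun z hz => hc.mem _ (hm hz), fun j z hz => hc.ne j _ (hm hz)⟩

end Pool.Agent.HE
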