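import Pool.Agent.HE.Bas
import Pool.Agent.TG.Zl
import Pool.Agent.TG.SmA
import Pool.Agent.H62.Log.Hurwitz

/-!
# HE Lip: the curves are Lipschitz over `Gd D δ`

Adapted from `PX/Lip`.
-/

set_option autoImplicit false

open Topology Filter Metric

namespace Pool.Agent.HE

open Pool.Agent.H36.BP (EN fs wd)
open Pool.Agent.H62.EF (MN pr)
open Pool.Agent.AD (Vd)
open Pool.Agent.TG (Lat Gd)
open Pool.Agent.G3 (wt TT LLift)

variable {N k q r : ℕ} {Λ : AddSubgroup (Vd (k + 1))} {D : Set (Vd (k + 1))} {X : Set (Vd (k + 1) × EN N)} {F : Fin q → Vd (k + 1) × EN N → ℂ} {d : Fin q → ℕ}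
  {W : Fin q → Fin r → Vd (k + 1) →L[ℂ] ℂ}

/-- normalisation: the centre is `0`, the value at the centre is bounded, the disc is small -/
private lemma Lip_norm (P : HD Λ D X F d W) {δ H r₀ s : ℝ} (hs : 0 < s) (hsr : s ≤ r₀) :
    ∃ R : ℝ, 0 < R ∧ ∀ (w : ℂ → EN N) (h : ℂ → Vd (k + 1)) (z : ℂ), Cw X F (ball z r₀) w h → (∀ ζ ∈ ball z r₀, ‖deriv h ζ‖ ≤ H) → h z ∈ Gd D δ →
      ∃ (w' : ℂ → EN N) (h' : ℂ → Vd (k + 1)), Cw X F (ball 0 s) w' h' ∧ (∀ ζ ∈ ball (0 : ℂ) s, ∀ ζ' ∈ ball (0 : ℂ) s, ‖h' ζ - h' ζ'‖ ≤ H * ‖ζ - ζ'‖) ∧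
        h' 0 ∈ Gd D δ ∧ ‖h' 0‖ ≤ R ∧ fs (w' 0) (deriv w' 0) = fs (w z) (deriv w z) := by
  obtain ⟨R, hR0, hR⟩ := P.lat.cpt
  refine ⟨R, hR0, fun w h z hc hd hz => ?_⟩
  obtain ⟨l, hl, hlR⟩ := hR (h z)
  have hmap : Set.MapsTo (fun ζ : ℂ => z + ζ) (ball 0 s) (ball z r₀) := by
    intro ζ hζ
    rw [mem_ball_zero_iff] at hζ
    rw [mem_ball, dist_eq_norm]
    have : z + ζ - z = ζ := by ring
    rw [this]
    linarith
  have hc1 : Cw X F (ball (0 : ℂ) s) (fun ζ => w (z + ζ)) (fun ζ => h (z + ζ)) :=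
    hc.comp (φ := fun ζ : ℂ => z + ζ) (differentiable_id.const_add z).differentiableOn hmap
  have hc2 := Cw.add P hc1 (Λ.neg_mem hl)
  refine ⟨fun ζ => w (z + ζ), fun ζ => h (z + ζ) + -l, hc2, ?_, ?_, ?_, ?_⟩
  · have hder : ∀ ζ ∈ ball (0 : ℂ) s, ‖deriv (fun ζ => h (z + ζ)) ζ‖ ≤ H := by
      intro ζ hζ
      have : deriv (fun ζ => h (z + ζ)) ζ = deriv h (z + ζ) := by
        rw [deriv_comp_const_add]
      rw [this]
      exact hd _ (hmap hζ)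
    intro ζ hζ ζ' hζ'
    have h1 := (convex_ball (0 : ℂ) s).norm_image_sub_le_of_norm_deriv_le (f := fun ζ => h (z + ζ)) (C := H)
      (fun x hx => hc1.h_diff.differentiableAt (isOpen_ball.mem_nhds hx)) hder hζ' hζ
    have h2 : h (z + ζ) + -l - (h (z + ζ') + -l) = h (z + ζ) - h (z + ζ') := by abel
    simp only [h2]
    exact h1
  · simp only [add_zero]
    exact P.gd_add δ (Λ.neg_mem hl) hz
  · simp only [add_zero]
    rwa [← sub_eq_add_neg]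
  · rw [deriv_comp_const_add]
    simp only [add_zero]

/-- Hurwitz: the piece is identically zero on the limit curve or has no zero -/
private lemma Lip_hur {m : ℕ} {Q : Fin m → Vd (k + 1) × EN N → ℂ} {e : Fin m → ℕ} {ρ : ℝ} {w₀ : Vd (k + 1)} (P : Pc X F w₀ Q e ρ) (j : Fin m) {𝒰 : Ultrafilter ℕ} {g : ℕ → ℂ → EN N}
    {hh : ℕ → ℂ → Vd (k + 1)} {G : ℂ → EN N}
    (hcp : ∀ n : ℕ, Cw X F (ball 0 ((n : ℝ) + 1)) (g n) (hh n)) (hρ : Tendsto (fun n : ℕ => (n : ℝ) + 1) 𝒰 atTop)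
    (hun : ∀ R : ℝ, ∀ᶠ n in (𝒰 : Filter ℕ), ∀ z ∈ closedBall (0 : ℂ) R, hh n z ∈ ball w₀ ρ)
    (hlim : ∀ (z : ℕ → ℂ) (z₀ : ℂ), Tendsto z 𝒰 (𝓝 z₀) → Tendsto (fun n => hh n (z n)) 𝒰 (𝓝 w₀)) (hG : Differentiable ℂ G)
    (hloc : ∀ z₀, ∃ (r : ℝ) (φ : ℕ → ℂ → EN N) (ψ : ℂ → EN N), 0 < r ∧
        (∀ᶠ n in (𝒰 : Filter ℕ), DifferentiableOn ℂ (φ n) (ball z₀ r) ∧ ∀ z ∈ ball z₀ r, ∃ c : ℂ, c ≠ 0 ∧ φ n z = c • g n z) ∧
        DifferentiableOn ℂ ψ (ball z₀ r) ∧ (∀ z ∈ ball z₀ r, ∃ c : ℂ, c ≠ 0 ∧ ψ z = c • G z) ∧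
        TendstoLocallyUniformlyOn φ ψ 𝒰 (ball z₀ r)) :
    (∀ z, Q j (w₀, G z) = 0) ∨ ∀ z, Q j (w₀, G z) ≠ 0 := by
  by_cases hex : ∃ z₁, Q j (w₀, G z₁) = 0
  swap
  · right
    intro z hz
    exact hex ⟨z, hz⟩
  left
  obtain ⟨z₁, hz₁⟩ := hex
  obtain ⟨r, φ, ψ, hr, hφ, hψ, hψG, hconv⟩ := hloc z₁
  have hw₀ : w₀ ∈ ball w₀ ρ := mem_ball_self P.pos
  have hop : IsOpen (ball w₀ ρ ×ˢ (Set.univ : Set (EN N))) := isOpen_ball.prod isOpen_univ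
  have hcont : ∀ x : EN N, ContinuousAt (Q j) (w₀, x) := fun x => ((P.an j).differentiableAt (hop.mem_nhds ⟨hw₀, Set.mem_univ x⟩)).continuousAt
  have hpair : Differentiable ℂ fun x : EN N => (w₀, x) := (differentiable_const w₀).prodMk differentiable_id
  have hF0 : Differentiable ℂ fun x : EN N => Q j (w₀, x) := fun x =>
    DifferentiableAt.comp x (g := Q j) (f := fun x : EN N => (w₀, x)) ((P.an j).differentiableAt (hop.mem_nhds ⟨hw₀, Set.mem_univ x⟩)) (hpair x)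
  have hbig : ∀ᶠ n : ℕ in (𝒰 : Filter ℕ), ball z₁ r ⊆ ball (0 : ℂ) ((n : ℝ) + 1) ∧ ∀ z ∈ ball z₁ r, hh n z ∈ ball w₀ ρ := by
    filter_upwards [hρ.eventually_gt_atTop (‖z₁‖ + r), hun (‖z₁‖ + r)] with n hn hn2
    have h1 : ∀ z ∈ ball z₁ r, ‖z‖ < ‖z₁‖ + r := by
      intro z hz
      rw [mem_ball, dist_eq_norm] at hz
      have := norm_add_le (z - z₁) z₁
      rw [sub_add_cancel] at this
      linarith
    refine ⟨fun z hz => ?_, fun z hz => hn2 z ?_⟩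
    · rw [mem_ball_zero_iff]
      have := h1 z hz
      linarith
    · rw [mem_closedBall_zero_iff]
      exact (h1 z hz).le
  have hH := Pool.Agent.H62.Log.hurwitz 𝒰 (φ := fun n z => Q j (hh n z, φ n z)) (ψ := fun z => Q j (w₀, ψ z)) (a := z₁) (r := r)
    (by
      filter_upwards [hφ, hbig] with n hn hb
      have h9 : DifferentiableOn ℂ (fun z => (hh n z, φ n z)) (ball z₁ r) := ((hcp n).h_diff.mono hb.1).prodMk hn.1
      exact (P.an j).comp h9 fun z hz => ⟨hb.2 z hz, Set.mem_univ _⟩)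
    (by
      filter_upwards [hφ, hbig] with n hn hb z hz
      obtain ⟨c, hc, he⟩ := hn.2 z hz
      simp only [he]
      rw [P.hom j _ (hb.2 z hz)]
      exact mul_ne_zero (pow_ne_zero _ hc) (P.ne j _ (hb.2 z hz) _ ((hcp n).w_ne z (hb.1 hz)) ((hcp n).mem z (hb.1 hz)) fun i => (hcp n).ne i z (hb.1 hz)))
    (Differentiable.comp_differentiableOn (g := fun x : EN N => Q j (w₀, x)) (f := ψ) hF0 hψ)
    (by
      intro z z₀ hz₀ hz
      have h1 := hlim z z₀ hz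
      have h2 : Tendsto (fun n => φ n (z n)) 𝒰 (𝓝 (ψ z₀)) := by
        refine hconv.tendsto_comp (hψ.continuousOn.continuousWithinAt hz₀) hz₀ ?_
        rw [tendsto_nhdsWithin_iff]
        exact ⟨hz, hz.eventually (isOpen_ball.mem_nhds hz₀)⟩
      exact Tendsto.comp (g := Q j) (f := fun n => (hh n (z n), φ n (z n))) (hcont (ψ z₀)).tendsto (h1.prodMk_nhds h2))
  have hz₁b : z₁ ∈ ball z₁ r := mem_ball_self hr
  have hloc0 : ∀ z ∈ ball z₁ r, Q j (w₀, G z) = 0 := by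
    rcases hH with h | h
    · intro z hz
      obtain ⟨c, hc, he⟩ := hψG z hz
      have h1 := h z hz
      simp only [he] at h1
      rw [P.hom j _ hw₀] at h1
      exact (mul_eq_zero.mp h1).resolve_left (pow_ne_zero _ hc)
    · exfalso
      obtain ⟨c, hc, he⟩ := hψG z₁ hz₁b
      apply h z₁ hz₁b
      simp only [he]
      rw [P.hom j _ hw₀, hz₁, mul_zero]
  have hf : Differentiable ℂ fun z => Q j (w₀, G z) := Differentiable.comp (g := fun x : EN N => Q j (w₀, x)) (f := G) hF0 hG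
  have han : AnalyticOnNhd ℂ (fun z => Q j (w₀, G z)) Set.univ := fun z _ => hf.analyticAt z
  have h2 := han.eqOn_zero_of_preconnected_of_eventuallyEq_zero isPreconnected_univ (Set.mem_univ z₁)
    (Filter.mem_of_superset (isOpen_ball.mem_nhds hz₁b) fun z hz => hloc0 z hz)
  intro z
  exact h2 (Set.mem_univ z)

theorem HD.lip (P : HD Λ D X F d W) {δ H r₀ : ℝ} (hδ : 0 < δ) (hH : 0 ≤ H) (hr₀ : 0 < r₀) : ∃ L : ℝ, 0 < L ∧ ∀ (w : ℂ → EN N) (h : ℂ → Vd (k + 1)) (z : ℂ),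
    Cw X F (ball z r₀) w h → (∀ ζ ∈ ball z r₀, ‖deriv h ζ‖ ≤ H) → h z ∈ Gd D δ → fs (w z) (deriv w z) ≤ L := by
  by_contra hcon
  push Not at hcon
  set s : ℝ := min r₀ (δ / (4 * (H + 1))) with hsdef
  have hH1 : 0 < H + 1 := by linarith
  have hs : 0 < s := lt_min hr₀ (by positivity)
  have hsr : s ≤ r₀ := min_le_left _ _
  have hHs : H * s ≤ δ / 4 := by
    have h1 : s ≤ δ / (4 * (H + 1)) := min_le_right _ _
    calc H * s ≤ (H + 1) * s := by nlinarith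
      _ ≤ (H + 1) * (δ / (4 * (H + 1))) := mul_le_mul_of_nonneg_left h1 hH1.le
      _ = δ / 4 := by
        field_simp
  obtain ⟨R, hR0, hR⟩ := Lip_norm (δ := δ) (H := H) P hs hsr
  have hbig : ∀ n : ℕ, ∃ (f : ℂ → EN N) (h : ℂ → Vd (k + 1)), Cw X F (ball 0 s) f h ∧
      (∀ ζ ∈ ball (0 : ℂ) s, ∀ ζ' ∈ ball (0 : ℂ) s, ‖h ζ - h ζ'‖ ≤ H * ‖ζ - ζ'‖) ∧ h 0 ∈ Gd D δ ∧ ‖h 0‖ ≤ R ∧
      4 * ((n : ℝ) + 1) / s < fs (f 0) (deriv f 0) := by
    intro n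
    obtain ⟨w, h, z, h1, h2, h3, h4⟩ := hcon (4 * ((n : ℝ) + 1) / s) (by positivity)
    obtain ⟨w', h', h5, h6, h7, h8, h9⟩ := hR w h z h1 h2 h3
    exact ⟨w', h', h5, h6, h7, h8, by rw [h9]; exact h4⟩
  choose f h hcp hlip hGd hRn hFb using hbig
  have hF0 : ∀ n, ∀ z ∈ ball (0 : ℂ) s, f n z ≠ 0 := fun n z hz => (hcp n).w_ne z hz
  have hmul : ∀ z : ℂ, z ∈ ball (0 : ℂ) 1 → (s : ℂ) * z ∈ ball (0 : ℂ) s := by
    intro z hz
    rw [mem_ball_zero_iff] at hz ⊢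
    rw [norm_mul, Complex.norm_real, Real.norm_of_nonneg hs.le]
    calc s * ‖z‖ < s * 1 := mul_lt_mul_of_pos_left hz hs
      _ = s := mul_one s
  have hresc : ∀ n : ℕ, ∃ (z₀ : ℂ) (a : ℝ), 4 * ((n : ℝ) + 1) < a ∧
      (∀ ζ ∈ ball (0 : ℂ) (n + 1), ‖z₀ + ((a⁻¹ : ℝ) : ℂ) * ζ‖ ≤ 1 / 2) ∧
      fs (f n ((s : ℂ) * z₀)) (deriv (fun ζ => f n ((s : ℂ) * (z₀ + ((a⁻¹ : ℝ) : ℂ) * ζ))) 0) = 1 ∧
      ∀ ζ ∈ ball (0 : ℂ) (n + 1), fs (f n ((s : ℂ) * (z₀ + ((a⁻¹ : ℝ) : ℂ) * ζ)))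
        (deriv (fun ζ => f n ((s : ℂ) * (z₀ + ((a⁻¹ : ℝ) : ℂ) * ζ))) ζ) ≤ 2 := by
    intro n
    have hd : DifferentiableOn ℂ (fun z => f n ((s : ℂ) * z)) (ball 0 1) :=
      (hcp n).w_diff.comp (differentiable_id.const_mul _).differentiableOn hmul
    refine Pool.Agent.AD.rescale_disc hd (fun z hz => hF0 n _ (hmul z hz)) n ?_
    have h1 : HasDerivAt (fun z : ℂ => (s : ℂ) * z) (s : ℂ) 0 := by
      simpa using (hasDerivAt_id (0 : ℂ)).const_mul (s : ℂ)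
    have h2 : deriv (fun z => f n ((s : ℂ) * z)) 0 = (s : ℂ) • deriv (f n) 0 := by
      have h4 : HasDerivAt (f n) (deriv (f n) 0) ((s : ℂ) * 0) := by
        rw [mul_zero]
        exact ((hcp n).w_diff.differentiableAt (isOpen_ball.mem_nhds (mem_ball_self hs))).hasDerivAt
      exact (h4.scomp 0 h1).deriv
    rw [h2, Pool.Agent.H36.BP.fs_smul_right, Complex.norm_real, Real.norm_of_nonneg hs.le, mul_zero]
    have h4 := hFb n
    rw [div_lt_iff₀ hs] at h4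
    linarith
  choose z₀ a ha hz₀ h1 h2 using hresc
  have ha0 : ∀ n, 0 < a n := fun n => lt_trans (by positivity) (ha n)
  have hz₀n : ∀ n, ‖z₀ n‖ ≤ 1 / 2 := by
    intro n
    have h3 := hz₀ n 0 (mem_ball_self (by positivity))
    rwa [mul_zero, add_zero] at h3
  set g : ℕ → ℂ → EN N := fun n ζ => f n ((s : ℂ) * (z₀ n + (((a n)⁻¹ : ℝ) : ℂ) * ζ)) with hgdef
  set hh : ℕ → ℂ → Vd (k + 1) := fun n ζ => h n ((s : ℂ) * (z₀ n + (((a n)⁻¹ : ℝ) : ℂ) * ζ)) with hhdef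
  have hin : ∀ n : ℕ, ∀ ζ ∈ ball (0 : ℂ) ((n : ℝ) + 1), (s : ℂ) * (z₀ n + (((a n)⁻¹ : ℝ) : ℂ) * ζ) ∈ ball (0 : ℂ) s := by
    intro n ζ hζ
    apply hmul
    rw [mem_ball_zero_iff]
    have h3 := hz₀ n ζ hζ
    linarith
  have hcpg : ∀ n : ℕ, Cw X F (ball 0 ((n : ℝ) + 1)) (g n) (hh n) := by
    intro n
    exact (hcp n).comp (φ := fun ζ => (s : ℂ) * (z₀ n + (((a n)⁻¹ : ℝ) : ℂ) * ζ))
      (((differentiable_id.const_mul _).const_add _).const_mul _).differentiableOn (hin n)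
  have hg0 : ∀ n : ℕ, ∀ ζ ∈ ball (0 : ℂ) ((n : ℝ) + 1), g n ζ ≠ 0 := fun n ζ hζ => hF0 n _ (hin n ζ hζ)
  have hg1 : ∀ n, fs (g n 0) (deriv (g n) 0) = 1 := by
    intro n
    have h3 := h1 n
    rw [hgdef]
    simpa only [mul_zero, add_zero] using h3
  have h0b : ∀ n : ℕ, (0 : ℂ) ∈ ball (0 : ℂ) ((n : ℝ) + 1) := fun n => mem_ball_self (by positivity)
  have hwy : ∀ n, ‖hh n 0 - h n 0‖ ≤ δ / 4 := by
    intro n
    have h3 := hlip n _ (hin n 0 (h0b n)) 0 (mem_ball_self hs)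
    refine h3.trans (le_trans ?_ hHs)
    rw [mul_zero, add_zero, sub_zero, norm_mul, Complex.norm_real, Real.norm_of_nonneg hs.le]
    refine mul_le_mul_of_nonneg_left ?_ hH
    have := hz₀n n
    nlinarith
  have hwG : ∀ n, hh n 0 ∈ Gd D (δ / 2) := by
    intro n
    have h3 := Pool.Agent.TG.gd_near (hGd n) (hwy n)
    exact Pool.Agent.TG.gd_mono (by linarith) h3
  have hwR : ∀ n, hh n 0 ∈ closedBall (0 : Vd (k + 1)) (R + δ / 4) := by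
    intro n
    rw [mem_closedBall_zero_iff]
    have h3 : hh n 0 = h n 0 + (hh n 0 - h n 0) := by abel
    rw [h3]
    exact (norm_add_le _ _).trans (add_le_add (hRn n) (hwy n))
  set 𝒰 : Ultrafilter ℕ := hyperfilter ℕ with h𝒰
  have hle : (𝒰 : Filter ℕ) ≤ atTop := Nat.hyperfilter_le_atTop
  obtain ⟨w₀, -, hw₀⟩ := (isCompact_closedBall (0 : Vd (k + 1)) (R + δ / 4)).ultrafilter_le_nhds (𝒰.map fun n => hh n 0) (by
    rw [Filter.le_principal_iff, Ultrafilter.coe_map, Filter.mem_map]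
    exact Filter.univ_mem' hwR)
  have hwt : Tendsto (fun n => hh n 0) 𝒰 (𝓝 w₀) := hw₀
  have hw₀G : w₀ ∈ Gd D (δ / 2) := (Pool.Agent.TG.gd_closed D (δ / 2)).mem_of_tendsto hwt (Eventually.of_forall hwG)
  have hw₀D : w₀ ∉ D := Pool.Agent.TG.gd_notMem (by positivity) hw₀G
  have hρ : Tendsto (fun n : ℕ => (n : ℝ) + 1) 𝒰 atTop :=
    (tendsto_atTop_add_const_right _ _ tendsto_natCast_atTop_atTop).mono_left hle
  have hainv : Tendsto (fun n => (a n)⁻¹) 𝒰 (𝓝 0) := by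
    have h3 : Tendsto a 𝒰 atTop := by
      refine tendsto_atTop_mono (fun n => ?_) hρ
      have := ha n
      have h4 : (0 : ℝ) ≤ n := Nat.cast_nonneg n
      linarith
    exact tendsto_inv_atTop_zero.comp h3
  obtain ⟨G, hG, hGX, -, hfs, hloc⟩ := Pool.Agent.H62.EF.limit_curves (Pool.Agent.TG.isCone_ne (N := N)) (L := 2) two_pos 𝒰 g (fun n : ℕ => (n : ℝ) + 1) hρ
    (Eventually.of_forall fun n => ⟨(hcpg n).w_diff, fun z hz => ⟨hg0 n z hz, h2 n z hz⟩⟩)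
  have hG0 : ∀ z, G z ≠ 0 := fun z => hGX z
  -- the limit is not constant
  have hone : fs (G 0) (deriv G 0) = 1 := by
    have h3 := hfs 0
    simp only [hg1] at h3
    exact tendsto_nhds_unique h3 tendsto_const_nhds |>.symm ▸ rfl
  -- the base points converge
  have hunif : ∀ R' ε : ℝ, 0 < ε → ∀ᶠ n in (𝒰 : Filter ℕ), ∀ z ∈ closedBall (0 : ℂ) R', ‖hh n z - w₀‖ < ε := by
    intro R' ε hε
    have h5 : Tendsto (fun n => H * (s * (a n)⁻¹ * |R'|)) 𝒰 (𝓝 0) := by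
      have h6 := ((hainv.const_mul s).mul_const |R'|).const_mul H
      rwa [mul_zero, zero_mul, mul_zero] at h6
    have h6 : Tendsto (fun n => ‖hh n 0 - w₀‖) 𝒰 (𝓝 0) := by
      have := (hwt.sub_const w₀).norm
      rwa [sub_self, norm_zero] at this
    filter_upwards [h5.eventually_lt_const (half_pos hε), h6.eventually_lt_const (half_pos hε), hρ.eventually_gt_atTop |R'|] with n hn1 hn2 hn3 z hz
    rw [mem_closedBall_zero_iff] at hz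
    have hz' : ‖z‖ ≤ |R'| := hz.trans (le_abs_self R')
    have hb : z ∈ ball (0 : ℂ) ((n : ℝ) + 1) := by
      rw [mem_ball_zero_iff]
      linarith
    have h7 : (s : ℂ) * (z₀ n + (((a n)⁻¹ : ℝ) : ℂ) * z) - (s : ℂ) * (z₀ n + (((a n)⁻¹ : ℝ) : ℂ) * 0) = (s : ℂ) * (((a n)⁻¹ : ℝ) : ℂ) * z := by
      ring
    have h8 := hlip n _ (hin n _ hb) _ (hin n 0 (h0b n))
    rw [h7, norm_mul, norm_mul, Complex.norm_real, Complex.norm_real, Real.norm_of_nonneg hs.le, Real.norm_of_nonneg (inv_nonneg.mpr (ha0 n).le)] at h8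
    have h9 : H * (s * (a n)⁻¹ * ‖z‖) ≤ H * (s * (a n)⁻¹ * |R'|) := by
      have := inv_nonneg.mpr (ha0 n).le
      gcongr
    have e : hh n z - w₀ = (hh n z - hh n 0) + (hh n 0 - w₀) := by abel
    rw [e]
    refine (norm_add_le _ _).trans_lt ?_
    have h10 : ‖hh n z - hh n 0‖ ≤ H * (s * (a n)⁻¹ * ‖z‖) := h8
    linarith
  have hlim : ∀ (z : ℕ → ℂ) (z₁ : ℂ), Tendsto z 𝒰 (𝓝 z₁) → Tendsto (fun n => hh n (z n)) 𝒰 (𝓝 w₀) := by
    intro z z₁ hz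
    rw [tendsto_iff_norm_sub_tendsto_zero, Metric.tendsto_nhds]
    intro ε hε
    have hzn : ∀ᶠ n in (𝒰 : Filter ℕ), ‖z n‖ < ‖z₁‖ + 1 := hz.norm.eventually_lt_const (by linarith)
    filter_upwards [hzn, hunif (‖z₁‖ + 1) ε hε] with n hn1 hn2
    rw [dist_zero_right, norm_norm]
    exact hn2 _ (by rw [mem_closedBall_zero_iff]; exact hn1.le)
  -- the limit has bounded derivative
  have hbd : ∀ z, fs (G z) (deriv G z) ≤ 2 := by
    intro z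
    refine le_of_tendsto (hfs z) ?_
    filter_upwards [hρ.eventually_gt_atTop ‖z‖] with n hn
    exact h2 n z (by rw [mem_ball_zero_iff]; exact hn)
  -- the limit lies in the fibre
  have hGX' : ∀ z, (w₀, G z) ∈ X := by
    intro z₁
    obtain ⟨r, φ, ψ, hr, hφ, hψ, hψG, hconv⟩ := hloc z₁
    have hz₁b : z₁ ∈ ball z₁ r := mem_ball_self hr
    have h5 : Tendsto (fun n => φ n z₁) 𝒰 (𝓝 (ψ z₁)) := hconv.tendsto_at hz₁b
    have h6 : Tendsto (fun n => (hh n z₁, φ n z₁)) 𝒰 (𝓝 (w₀, ψ z₁)) := (hlim (fun _ => z₁) z₁ tendsto_const_nhds).prodMk_nhds h5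
    have h7 : (w₀, ψ z₁) ∈ X := by
      refine P.X_closed.mem_of_tendsto h6 ?_
      filter_upwards [hφ, hρ.eventually_gt_atTop ‖z₁‖] with n hn hn2
      obtain ⟨c, hc, he⟩ := hn.2 z₁ hz₁b
      rw [he]
      exact P.X_smul c _ _ ((hcpg n).mem z₁ (by rw [mem_ball_zero_iff]; exact hn2))
    obtain ⟨c, hc, he⟩ := hψG z₁ hz₁b
    have h8 : G z₁ = c⁻¹ • ψ z₁ := by rw [he, smul_smul, inv_mul_cancel₀ hc, one_smul]
    rw [h8]
    exact P.X_smul _ _ _ h7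
  obtain ⟨m, Q, e, ρ, hPc⟩ := P.fib w₀ hw₀D
  have hc : ∀ z w : ℂ, ∃ c : ℂ, G z = c • G w :=
    hPc.const G hG hG0 hGX' ⟨2, hbd⟩ fun j => Lip_hur hPc j hcpg hρ (fun R' => (hunif R' ρ hPc.pos).mono fun n hn z hz => by
      rw [mem_ball, dist_eq_norm]
      exact hn z hz) hlim hG hloc
  obtain ⟨b, hb⟩ := Pool.Agent.H36.BP.Brody_deriv_line (hG 0) (fun z => hc z 0)
  have h3 : wd (G 0) (deriv G 0) = 0 := (Pool.Agent.H36.BP.wd_eq_zero (hG0 0)).mpr ⟨b, hb⟩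
  unfold fs at hone
  rw [h3, zero_div] at hone
  exact zero_ne_one hone

end Pool.Agent.HE
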