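import Pool.Agent.HE.TrB
import Mathlib.RingTheory.Nullstellensatz

/-!
# HE TrC: transfer of forms

`q s z`, `s < m`, are arbitrary forms of degree `e`, `z` near `0`; on the zeros of the `G i`, `q s`, `s ∈ S t`, also `f t` is `0`.  Then there are forms `Q s` with coefficients meromorphic at `0` which have over `τ ^ M` the same properties, in the form of
polynomial identities.
-/

set_option autoImplicit false

open Topology Filter Metric MvPolynomial

namespace Pool.Agent.HE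

variable {𝒰 𝒱 : Ultrafilter ℂ}

/-- Nullstellensatz for finite families -/
theorem nss {L σ ι : Type} [Field L] [IsAlgClosed L] [Finite σ] [Fintype ι] (p : ι → MvPolynomial σ L) (f : MvPolynomial σ L) (h : ∀ x : σ → L, (∀ i, eval x (p i) = 0) → eval x f = 0) :
    ∃ (n : ℕ) (c : ι → MvPolynomial σ L), ∑ i, c i * p i = f ^ n := by
  have h1 : f ∈ vanishingIdeal L (zeroLocus L (Ideal.span (Set.range p))) := by
    rw [mem_vanishingIdeal_iff]
    intro x hx
    rw [zeroLocus_span] at hx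
    exact h x fun i => hx _ ⟨i, rfl⟩
  rw [vanishingIdeal_zeroLocus_eq_radical] at h1
  obtain ⟨n, hn⟩ := h1
  exact ⟨n, Ideal.mem_span_range_iff_exists_fun.1 hn⟩

/-- evaluation of germs -/
theorem eval_gr {σ : Type} (P : MvPolynomial σ (ℂ → ℂ)) (x : σ → ℂ → ℂ) :
    eval (fun i => gr 𝒰 (x i)) (P.map (gr 𝒰)) = gr 𝒰 fun z => eval (fun i => x i z) (P.map (Pi.evalRingHom (fun _ : ℂ => ℂ) z)) := by
  have h1 : (fun z => eval (fun i => x i z) (P.map (Pi.evalRingHom (fun _ : ℂ => ℂ) z))) = eval x P := by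
    funext z
    rw [eval_map]
    have h2 := MvPolynomial.eval₂_comp_right (Pi.evalRingHom (fun _ : ℂ => ℂ) z) (RingHom.id _) x P
    rw [MvPolynomial.map_id] at h2
    exact h2.symm
  rw [h1, eval_map]
  have h2 := MvPolynomial.eval₂_comp_right (gr 𝒰) (RingHom.id _) x P
  rw [MvPolynomial.map_id] at h2
  exact h2.symm

/-- the family of forms as one polynomial -/
noncomputable def fam {σ : Type} [Fintype σ] [DecidableEq σ] (e : ℕ) (q : ℂ → MvPolynomial σ ℂ) : MvPolynomial σ (ℂ → ℂ) :=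
  ∑ α ∈ Finset.finsuppAntidiag (Finset.univ : Finset σ) e, monomial α fun z => coeff α (q z)

theorem fam_hom {σ : Type} [Fintype σ] [DecidableEq σ] (e : ℕ) (q : ℂ → MvPolynomial σ ℂ) : (fam e q).IsHomogeneous e := by
  refine IsHomogeneous.sum _ _ _ fun α hα => isHomogeneous_monomial _ ?_
  rw [Finset.mem_finsuppAntidiag] at hα
  rw [← hα.1, Finsupp.degree_eq_sum]

theorem fam_ev {σ : Type} [Fintype σ] [DecidableEq σ] {e : ℕ} {q : ℂ → MvPolynomial σ ℂ} {z : ℂ} (h : (q z).IsHomogeneous e) : (fam e q).map (Pi.evalRingHom (fun _ : ℂ => ℂ) z) = q z := by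
  unfold fam
  rw [map_sum]
  have h1 : ∀ α, MvPolynomial.map (Pi.evalRingHom (fun _ : ℂ => ℂ) z) (monomial α fun z => coeff α (q z)) = monomial α (coeff α (q z)) := fun α => map_monomial _ _ _
  simp_rw [h1]
  conv_rhs => rw [(q z).as_sum]
  symm
  refine Finset.sum_subset (fun α hα => ?_) fun α _ hα => ?_
  · rw [Finset.mem_finsuppAntidiag]
    have h2 := h (mem_support_iff.1 hα)
    refine ⟨?_, Finset.subset_univ _⟩
    have h3 : Finsupp.weight (1 : σ → ℕ) α = Finsupp.degree α := (congrFun (congrArg DFunLike.coe (Finsupp.degree_eq_weight_one (σ := σ) (R := ℕ))) α).symm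
    rw [← h2, h3, Finsupp.degree_eq_sum]
  · rw [notMem_support_iff.1 hα, monomial_zero]

/-- equality of germs of polynomials -/
theorem mpeq (h𝒰 : (𝒰 : Filter ℂ) ≤ 𝓝[≠] 0) {σ : Type} {A B : MvPolynomial σ MF} (hA : A.map (φg 𝒰) = B.map (φg 𝒰)) : ∀ᶠ z in 𝓝[≠] (0 : ℂ), A.map (ev z) = B.map (ev z) := by
  have h0 : ∀ {A : MvPolynomial σ MF}, A.map (φg 𝒰) = 0 → ∀ᶠ z in 𝓝[≠] (0 : ℂ), A.map (ev z) = 0 := by
    intro A hA
    have h1 : ∀ α ∈ A.support, ∀ᶠ z in 𝓝[≠] (0 : ℂ), ev z (A.coeff α) = 0 := by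
      intro α _
      refine φg_zero h𝒰 ?_
      rw [← coeff_map, hA, coeff_zero]
    rw [← Finset.eventually_all] at h1
    filter_upwards [h1] with z hz
    ext α
    rw [coeff_map, coeff_zero]
    by_cases hα : α ∈ A.support
    · exact hz α hα
    · rw [notMem_support_iff.1 hα, map_zero]
  have h1 := h0 (A := A - B) (by rw [map_sub, hA, sub_self])
  filter_upwards [h1] with z hz
  rwa [map_sub, sub_eq_zero] at hz

theorem transfer_forms {N m g e : ℕ} {T : Type} [Fintype T] (G : Fin g → MvPolynomial (Fin (N + 1)) MF) (q : Fin m → ℂ → MvPolynomial (Fin (N + 1)) ℂ) (hq : ∀ s, ∀ᶠ z in 𝓝[≠] (0 : ℂ), (q s z).IsHomogeneous e)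
    (S : T → Finset (Fin m)) (f : T → MvPolynomial (Fin (N + 1)) MF)
    (hf : ∀ t, ∀ᶠ z in 𝓝[≠] (0 : ℂ), ∀ x, (∀ i, eval x ((G i).map (ev z)) = 0) → (∀ s ∈ S t, eval x (q s z) = 0) → eval x ((f t).map (ev z)) = 0) :
    ∃ M : ℕ, 0 < M ∧ ∃ Q : Fin m → MvPolynomial (Fin (N + 1)) MF, (∀ s, ∀ᶠ τ in 𝓝[≠] (0 : ℂ), ((Q s).map (ev τ)).IsHomogeneous e) ∧
      ∀ t, ∃ (n : ℕ) (c : Fin g → MvPolynomial (Fin (N + 1)) MF) (b : Fin m → MvPolynomial (Fin (N + 1)) MF), ∀ᶠ τ in 𝓝[≠] (0 : ℂ),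
        ∑ i, (c i).map (ev τ) * (G i).map (ev (τ ^ M)) + ∑ s ∈ S t, (b s).map (ev τ) * (Q s).map (ev τ) = (f t).map (ev (τ ^ M)) ^ n := by
  classical
  obtain ⟨𝒰, h𝒰⟩ : ∃ 𝒰 : Ultrafilter ℂ, (𝒰 : Filter ℂ) ≤ 𝓝[≠] 0 := ⟨Ultrafilter.of (𝓝[≠] 0), Ultrafilter.of_le _⟩
  have := Gm_closed 𝒰
  -- the forms over the field of germs
  set ψ : MF →+* Gm 𝒰 := (gr 𝒰).comp MF.subtype with hψ
  obtain ⟨QL, hQL⟩ : ∃ QL : Fin m → MvPolynomial (Fin (N + 1)) (Gm 𝒰), QL = fun s => (fam e (q s)).map (gr 𝒰) := ⟨_, rfl⟩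
  have hψmap : ∀ P : MvPolynomial (Fin (N + 1)) MF, P.map ψ = (P.map MF.subtype).map (gr 𝒰) := fun P => by rw [hψ, MvPolynomial.map_map]
  have hevmap : ∀ (P : MvPolynomial (Fin (N + 1)) MF) (z : ℂ), (P.map MF.subtype).map (Pi.evalRingHom (fun _ : ℂ => ℂ) z) = P.map (ev z) := fun P z => by rw [MvPolynomial.map_map]; rfl
  -- Nullstellensatz
  have h1 : ∀ t, ∃ (n : ℕ) (c : Fin g → MvPolynomial (Fin (N + 1)) (Gm 𝒰)) (b : Fin m → MvPolynomial (Fin (N + 1)) (Gm 𝒰)),
      ∑ i, c i * (G i).map ψ + ∑ s ∈ S t, b s * QL s = (f t).map ψ ^ n := by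
    intro t
    obtain ⟨n, c, hc⟩ := nss (ι := Fin g ⊕ (S t)) (Sum.elim (fun i => (G i).map ψ) fun s => QL s) ((f t).map ψ) (fun x hx => by
      have hrep : ∀ i, ∃ y : ℂ → ℂ, gr 𝒰 y = x i := fun i => gr_surj 𝒰 (x i)
      choose y hy using hrep
      have hxy : x = fun i => gr 𝒰 (y i) := funext fun i => (hy i).symm
      have h2 : ∀ i, ∀ᶠ z in (𝒰 : Filter ℂ), eval (fun j => y j z) ((G i).map (ev z)) = 0 := by
        intro i
        have h3 := hx (Sum.inl i)
        rw [Sum.elim_inl, hxy, hψmap, eval_gr, ← map_zero (gr 𝒰), gr_eq] at h3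
        filter_upwards [h3] with z hz
        rw [hevmap] at hz
        exact hz
      have h4 : ∀ s ∈ S t, ∀ᶠ z in (𝒰 : Filter ℂ), eval (fun j => y j z) (q s z) = 0 := by
        intro s hs
        have h3 := hx (Sum.inr ⟨s, hs⟩)
        rw [Sum.elim_inr, hxy, hQL] at h3
        simp only at h3
        rw [eval_gr, ← map_zero (gr 𝒰), gr_eq] at h3
        filter_upwards [h3, h𝒰 (hq s)] with z hz hz'
        rw [fam_ev hz'] at hz
        exact hz
      rw [hxy, hψmap, eval_gr, ← map_zero (gr 𝒰), gr_eq]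
      have h5 : ∀ᶠ z in (𝒰 : Filter ℂ), ∀ i, eval (fun j => y j z) ((G i).map (ev z)) = 0 := Filter.eventually_all.2 h2
      have h6 : ∀ᶠ z in (𝒰 : Filter ℂ), ∀ s ∈ S t, eval (fun j => y j z) (q s z) = 0 := (Finset.eventually_all (S t)).2 h4
      filter_upwards [h5, h6, h𝒰 (hf t)] with z h7 h8 h9
      rw [hevmap]
      exact h9 _ h7 h8)
    refine ⟨n, fun i => c (Sum.inl i), fun s => if h : s ∈ S t then c (Sum.inr ⟨s, h⟩) else 0, ?_⟩
    rw [← hc, Fintype.sum_sum_type]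
    congr 1
    rw [← Finset.sum_coe_sort (S t)]
    refine Finset.sum_congr rfl fun s _ => ?_
    beta_reduce
    rw [dif_pos s.2]
    rfl
  choose n c b hcb using h1
  -- the algebra
  set C : Set (Gm 𝒰) := (⋃ s, ((QL s).coeffs : Set (Gm 𝒰))) ∪ ((⋃ t, ⋃ i, ((c t i).coeffs : Set (Gm 𝒰))) ∪ ⋃ t, ⋃ s, ((b t s).coeffs : Set (Gm 𝒰))) with hC
  have hCf : C.Finite := by
    refine (Set.finite_iUnion fun s => Finset.finite_toSet _).union (Set.Finite.union ?_ ?_)
    · exact Set.finite_iUnion fun t => Set.finite_iUnion fun i => Finset.finite_toSet _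
    · exact Set.finite_iUnion fun t => Set.finite_iUnion fun i => Finset.finite_toSet _
  set A : Subalgebra (Fg 𝒰) (Gm 𝒰) := Algebra.adjoin (Fg 𝒰) C with hA
  have hAft : Algebra.FiniteType (Fg 𝒰) A := (Subalgebra.fg_iff_finiteType A).1 (Subalgebra.fg_def.2 ⟨C, hCf, rfl⟩)
  obtain ⟨M, hM, Ψ, hΨ⟩ := transfer h𝒰 h𝒰 A
  have hlift : ∀ P : MvPolynomial (Fin (N + 1)) (Gm 𝒰), (P.coeffs : Set (Gm 𝒰)) ⊆ C → ∃ P' : MvPolynomial (Fin (N + 1)) A, P'.map A.val.toRingHom = P := by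
    intro P hP
    refine mem_range_map_iff_coeffs_subset.2 fun x hx => ?_
    exact ⟨⟨x, Algebra.subset_adjoin (hP hx)⟩, rfl⟩
  have h2 : ∀ s, ∃ P' : MvPolynomial (Fin (N + 1)) A, P'.map A.val.toRingHom = QL s := fun s => hlift _ fun x hx => Or.inl (Set.mem_iUnion.2 ⟨s, hx⟩)
  have h3 : ∀ t i, ∃ P' : MvPolynomial (Fin (N + 1)) A, P'.map A.val.toRingHom = c t i := fun t i => hlift _ fun x hx => Or.inr (Or.inl (Set.mem_iUnion.2 ⟨t, Set.mem_iUnion.2 ⟨i, hx⟩⟩))
  have h4 : ∀ t s, ∃ P' : MvPolynomial (Fin (N + 1)) A, P'.map A.val.toRingHom = b t s := fun t s => hlift _ fun x hx => Or.inr (Or.inr (Set.mem_iUnion.2 ⟨t, Set.mem_iUnion.2 ⟨s, hx⟩⟩))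
  choose QA hQA using h2
  choose cA hcA using h3
  choose bA hbA using h4
  have hinj : Function.Injective (MvPolynomial.map (σ := Fin (N + 1)) A.val.toRingHom) := MvPolynomial.map_injective _ Subtype.val_injective
  set χ : MF →+* A := (algebraMap (Fg 𝒰) A).comp (φg 𝒰) with hχ
  have hχψ : A.val.toRingHom.comp χ = ψ := rfl
  have hid : ∀ t, ∑ i, cA t i * (G i).map χ + ∑ s ∈ S t, bA t s * QA s = (f t).map χ ^ n t := by
    intro t
    apply hinj
    rw [map_add, map_sum, map_sum, map_pow, MvPolynomial.map_map, hχψ, ← hcb t]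
    congr 1
    · refine Finset.sum_congr rfl fun i _ => ?_
      rw [map_mul, MvPolynomial.map_map, hχψ, hcA]
    · refine Finset.sum_congr rfl fun s _ => ?_
      rw [map_mul, hbA, hQA]
  -- the homomorphism
  have hsurj : Function.Surjective (MvPolynomial.map (σ := Fin (N + 1)) (φg 𝒰)) := MvPolynomial.map_surjective _ (φg_surj 𝒰)
  have hΨχ : Ψ.comp χ = (φg 𝒰).comp (pb M hM) := by
    ext x
    rw [RingHom.comp_apply, hχ, RingHom.comp_apply, hΨ, pbF_φg]
    rfl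
  have h5 : ∀ s, ∃ P : MvPolynomial (Fin (N + 1)) MF, P.map (φg 𝒰) = (QA s).map Ψ := fun s => hsurj _
  have h6 : ∀ t i, ∃ P : MvPolynomial (Fin (N + 1)) MF, P.map (φg 𝒰) = (cA t i).map Ψ := fun t i => hsurj _
  have h7 : ∀ t s, ∃ P : MvPolynomial (Fin (N + 1)) MF, P.map (φg 𝒰) = (bA t s).map Ψ := fun t i => hsurj _
  choose Q hQ using h5
  choose c' hc' using h6
  choose b' hb' using h7
  have hpbev : ∀ (P : MvPolynomial (Fin (N + 1)) MF) (τ : ℂ), (P.map (pb M hM)).map (ev τ) = P.map (ev (τ ^ M)) := by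
    intro P τ
    rw [MvPolynomial.map_map]
    rfl
  refine ⟨M, hM, Q, fun s => ?_, fun t => ⟨n t, c' t, b' t, ?_⟩⟩
  · -- homogeneous
    have h8 : ((Q s).map (φg 𝒰)).IsHomogeneous e := by
      rw [hQ]
      refine IsHomogeneous.map ?_ Ψ
      have h9 : (QL s).IsHomogeneous e := by
        rw [hQL]
        exact IsHomogeneous.map (fam_hom e (q s)) _
      rw [← hQA s] at h9
      exact h9.of_map Subtype.val_injective
    have h9 : ∀ α ∈ (Q s).support, ∀ᶠ τ in 𝓝[≠] (0 : ℂ), Finsupp.weight 1 α ≠ e → ev τ ((Q s).coeff α) = 0 := by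
      intro α _
      by_cases hα : Finsupp.weight 1 α = e
      · exact Filter.Eventually.of_forall fun τ h => absurd hα h
      · have h10 : φg 𝒰 ((Q s).coeff α) = 0 := by
          rw [← coeff_map]
          by_contra hne
          exact hα (h8 hne)
        filter_upwards [φg_zero h𝒰 h10] with τ hτ _ using hτ
    rw [← Finset.eventually_all] at h9
    filter_upwards [h9] with τ hτ α hα
    rw [coeff_map] at hα
    by_contra hne
    refine hα ?_
    by_cases hs : α ∈ (Q s).support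
    · exact hτ α hs hne
    · rw [notMem_support_iff.1 hs, map_zero]
  · have h8 : (∑ i, c' t i * (G i).map (pb M hM) + ∑ s ∈ S t, b' t s * Q s).map (φg 𝒰) = (((f t).map (pb M hM)) ^ n t).map (φg 𝒰) := by
      have h9 := congrArg (MvPolynomial.map Ψ) (hid t)
      rw [map_add, map_sum, map_sum, map_pow, MvPolynomial.map_map, hΨχ] at h9
      rw [map_add, map_sum, map_sum, map_pow, MvPolynomial.map_map, ← h9]
      congr 1
      · refine Finset.sum_congr rfl fun i _ => ?_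
        rw [map_mul, map_mul, MvPolynomial.map_map, MvPolynomial.map_map, hΨχ, hc']
      · refine Finset.sum_congr rfl fun s _ => ?_
        rw [map_mul, map_mul, hb', hQ]
    filter_upwards [mpeq h𝒰 h8] with τ hτ
    rw [map_add, map_sum, map_sum, map_pow, hpbev] at hτ
    rw [← hτ]
    congr 1
    · refine Finset.sum_congr rfl fun i _ => ?_
      rw [map_mul, hpbev]
    · refine Finset.sum_congr rfl fun s _ => ?_
      rw [map_mul]

end Pool.Agent.HE
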