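import Pool.Agent.HE.Gro
import Pool.Agent.HE.TrC

/-!
# HE Pun: curves in a degenerating family

Over the points `z ≠ 0` near `0` the zeros of `F z` in the zero set of the `G i z` contain the zeros of `2 κ + 1` forms of degree `e`, any `κ + 1` of which have no common zero.  If the curve `w` in projective space, holomorphic near the puncture, lies in the zeros of the `G i` and outside the zeros of `F` then the quotients of its
coordinates have moderate growth (`punct_coord`).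
-/

set_option autoImplicit false

open Topology Filter Metric MvPolynomial

namespace Pool.Agent.HE

theorem ev_of_pow {p : ℂ → Prop} {M : ℕ} (hM : 0 < M) (h : ∀ᶠ τ in 𝓝[≠] (0 : ℂ), p (τ ^ M)) : ∀ᶠ z in 𝓝[≠] (0 : ℂ), p z := by
  obtain ⟨R, hR, h2⟩ := pd_of_ev h
  have hr : 0 < R ^ M := by positivity
  filter_upwards [ev_small hr] with z hz
  obtain ⟨τ, hτ⟩ := IsAlgClosed.exists_pow_nat_eq z hM
  have h3 : ‖τ‖ ^ M = ‖z‖ := by rw [← norm_pow, hτ]
  have h4 : ‖τ‖ < R := by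
    rw [← h3] at hz
    exact lt_of_pow_lt_pow_left₀ M hR.le hz.2
  have h5 : 0 < ‖τ‖ := by
    rcases eq_or_lt_of_le (norm_nonneg τ) with h6 | h6
    · rw [← h3, ← h6, zero_pow hM.ne'] at hz
      exact absurd hz.1 (lt_irrefl _)
    · exact h6
  have h6 := h2 τ ⟨h5, h4⟩
  rwa [hτ] at h6

theorem map_hc {σ R S : Type*} [CommRing R] [CommRing S] (f : R →+* S) (n : ℕ) (p : MvPolynomial σ R) : (homogeneousComponent n p).map f = homogeneousComponent n (p.map f) := by
  ext α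
  rw [coeff_map, coeff_homogeneousComponent, coeff_homogeneousComponent, coeff_map]
  split_ifs
  · rfl
  · exact map_zero f

theorem punct_coord {N κ e g : ℕ} (he : 0 < e) (G : Fin g → MvPolynomial (Fin (N + 1)) MF) (dg : Fin g → ℕ) (hG : ∀ i, ∀ᶠ z in 𝓝[≠] (0 : ℂ), ((G i).map (ev z)).IsHomogeneous (dg i)) (F : MvPolynomial (Fin (N + 1)) MF)
    (w : Fin (N + 1) → ℂ → ℂ) (hw : ∀ᶠ z in 𝓝[≠] (0 : ℂ), Pa w z) (hw0 : ∀ᶠ z in 𝓝[≠] (0 : ℂ), ∃ i, w i z ≠ 0)
    (hwG : ∀ i, ∀ᶠ z in 𝓝[≠] (0 : ℂ), eval (fun j => w j z) ((G i).map (ev z)) = 0) (hwF : ∀ᶠ z in 𝓝[≠] (0 : ℂ), eval (fun j => w j z) (F.map (ev z)) ≠ 0)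
    (hQ : ∀ᶠ z in 𝓝[≠] (0 : ℂ), ∃ q : Fin (2 * κ + 1) → MvPolynomial (Fin (N + 1)) ℂ, (∀ s, (q s).IsHomogeneous e) ∧
      (∀ s x, x ≠ 0 → (∀ i, eval x ((G i).map (ev z)) = 0) → eval x (q s) = 0 → eval x (F.map (ev z)) = 0) ∧
      ∀ S : Finset (Fin (2 * κ + 1)), S.card = κ + 1 → ∀ x, (∀ i, eval x ((G i).map (ev z)) = 0) → (∀ s ∈ S, eval x (q s) = 0) → x = 0) :
    ∃ l, (∀ᶠ z in 𝓝[≠] (0 : ℂ), w l z ≠ 0) ∧ ∀ k, Md fun z => w k z / w l z := by
  classical
  obtain ⟨q, hq⟩ : ∃ q : ℂ → Fin (2 * κ + 1) → MvPolynomial (Fin (N + 1)) ℂ, ∀ᶠ z in 𝓝[≠] (0 : ℂ), (∀ s, (q z s).IsHomogeneous e) ∧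
      (∀ s x, x ≠ 0 → (∀ i, eval x ((G i).map (ev z)) = 0) → eval x (q z s) = 0 → eval x (F.map (ev z)) = 0) ∧
      ∀ S : Finset (Fin (2 * κ + 1)), S.card = κ + 1 → ∀ x, (∀ i, eval x ((G i).map (ev z)) = 0) → (∀ s ∈ S, eval x (q z s) = 0) → x = 0 := by
    have h1 : ∀ z : ℂ, ∃ q : Fin (2 * κ + 1) → MvPolynomial (Fin (N + 1)) ℂ, (∃ q : Fin (2 * κ + 1) → MvPolynomial (Fin (N + 1)) ℂ, (∀ s, (q s).IsHomogeneous e) ∧
      (∀ s x, x ≠ 0 → (∀ i, eval x ((G i).map (ev z)) = 0) → eval x (q s) = 0 → eval x (F.map (ev z)) = 0) ∧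
      ∀ S : Finset (Fin (2 * κ + 1)), S.card = κ + 1 → ∀ x, (∀ i, eval x ((G i).map (ev z)) = 0) → (∀ s ∈ S, eval x (q s) = 0) → x = 0) → (∀ s, (q s).IsHomogeneous e) ∧
      (∀ s x, x ≠ 0 → (∀ i, eval x ((G i).map (ev z)) = 0) → eval x (q s) = 0 → eval x (F.map (ev z)) = 0) ∧
      ∀ S : Finset (Fin (2 * κ + 1)), S.card = κ + 1 → ∀ x, (∀ i, eval x ((G i).map (ev z)) = 0) → (∀ s ∈ S, eval x (q s) = 0) → x = 0 := by
      intro z
      by_cases h : ∃ q : Fin (2 * κ + 1) → MvPolynomial (Fin (N + 1)) ℂ, (∀ s, (q s).IsHomogeneous e) ∧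
      (∀ s x, x ≠ 0 → (∀ i, eval x ((G i).map (ev z)) = 0) → eval x (q s) = 0 → eval x (F.map (ev z)) = 0) ∧
      ∀ S : Finset (Fin (2 * κ + 1)), S.card = κ + 1 → ∀ x, (∀ i, eval x ((G i).map (ev z)) = 0) → (∀ s ∈ S, eval x (q s) = 0) → x = 0
      · obtain ⟨q, hq⟩ := h
        exact ⟨q, fun _ => hq⟩
      · exact ⟨0, fun h' => absurd h' h⟩
    choose q hq using h1
    exact ⟨q, hQ.mono fun z hz => hq z hz⟩
  obtain ⟨M, hM, Q, hQh, hid⟩ := transfer_forms (T := (Fin (2 * κ + 1) × Fin (N + 1)) ⊕ ({S : Finset (Fin (2 * κ + 1)) // S.card = κ + 1} × Fin (N + 1))) (e := e) G (fun s z => q z s)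
    (fun s => hq.mono fun z hz => hz.1 s) (Sum.elim (fun p => {p.1}) fun p => (p.1 : Finset (Fin (2 * κ + 1)))) (Sum.elim (fun p => X p.2 * F) fun p => X p.2) (by
      rintro (s | p)
      · refine hq.mono fun z hz x h1 h2 => ?_
        rw [Sum.elim_inl, map_mul, map_X, map_mul, eval_X]
        by_cases hx : x = 0
        · rw [hx, Pi.zero_apply, zero_mul]
        · rw [hz.2.1 s.1 x hx h1 (h2 s.1 (Finset.mem_singleton_self _)), mul_zero]
      · refine hq.mono fun z hz x h1 h2 => ?_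
        have h3 := hz.2.2 p.1 p.1.2 x h1 h2
        simp [h3])
  -- the data after the substitution
  have htp := tend_pow hM
  obtain ⟨w', hw'⟩ : ∃ w' : Fin (N + 1) → ℂ → ℂ, w' = fun i τ => w i (τ ^ M) := ⟨_, rfl⟩
  have hG' : ∀ᶠ τ in 𝓝[≠] (0 : ℂ), ∀ i, ((G i).map (ev (τ ^ M))).IsHomogeneous (dg i) ∧ eval (fun j => w' j τ) ((G i).map (ev (τ ^ M))) = 0 := by
    rw [Filter.eventually_all]
    intro i
    filter_upwards [htp.eventually (hG i), htp.eventually (hwG i)] with τ h1 h2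
    rw [hw']
    exact ⟨h1, h2⟩
  obtain ⟨Q', hQ'⟩ : ∃ Q' : Fin (2 * κ + 1) → MvPolynomial (Fin (N + 1)) MF, Q' = fun s => homogeneousComponent e (Q s) := ⟨_, rfl⟩
  have hQQ : ∀ᶠ τ in 𝓝[≠] (0 : ℂ), ∀ s, (Q' s).map (ev τ) = (Q s).map (ev τ) ∧ ((Q s).map (ev τ)).IsHomogeneous e := by
    rw [Filter.eventually_all]
    intro s
    filter_upwards [hQh s] with τ h1
    refine ⟨?_, h1⟩
    rw [hQ']
    simp only
    rw [map_hc, homogeneousComponent_eq_self h1]
  have hT : TD κ e w' Q' := by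
    refine ⟨?_, ?_, he, fun s => ?_, fun s => ?_, fun S hS => ?_⟩
    · filter_upwards [htp.eventually hw] with τ h1
      obtain ⟨φ, h2, h3⟩ := h1
      have h4 : ContinuousAt (fun τ : ℂ => τ ^ M) τ := (continuous_pow M).continuousAt
      refine ⟨fun i τ => φ i (τ ^ M), fun i => AnalyticAt.comp (f := fun τ : ℂ => τ ^ M) (h2 i) (analyticAt_id.pow M), ?_⟩
      rw [hw']
      exact h4.eventually h3
    · filter_upwards [htp.eventually hw0] with τ h1
      rw [hw']
      exact h1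
    · rw [hQ']
      exact homogeneousComponent_isHomogeneous _ _
    · have h0 : ∀ l, ∀ᶠ τ in 𝓝[≠] (0 : ℂ), va w' (Q' s) τ = 0 → w' l τ = 0 := by
        intro l
        obtain ⟨n, c, b, h1⟩ := hid (Sum.inl (s, l))
        filter_upwards [h1, hG', hQQ, htp.eventually hwF] with τ h2 h3 h4 h5
        have h6 := congrArg (eval fun j => w' j τ) h2
        rw [map_add, map_sum, map_sum, Sum.elim_inl, Sum.elim_inl, Finset.sum_singleton, map_mul, map_pow, map_mul, map_X, map_mul, eval_X] at h6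
        have h7 : ∑ i, eval (fun j => w' j τ) ((c i).map (ev τ) * (G i).map (ev (τ ^ M))) = 0 := by
          refine Finset.sum_eq_zero fun i _ => ?_
          rw [map_mul, (h3 i).2, mul_zero]
        rw [h7, zero_add] at h6
        unfold va
        rw [(h4 s).1]
        intro h8
        rw [h8, mul_zero] at h6
        rw [hw'] at h6 ⊢
        have hn : n ≠ 0 := by
          rintro rfl
          rw [pow_zero] at h6
          exact zero_ne_one h6
        exact (mul_eq_zero.1 ((pow_eq_zero_iff hn).1 h6.symm)).resolve_right h5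
      filter_upwards [Filter.eventually_all.2 h0, htp.eventually hw0] with τ h1 h2 h3
      obtain ⟨l, hl⟩ := h2
      apply hl
      have h4 := h1 l h3
      rw [hw'] at h4
      exact h4
    · have h1 : ∀ l, ∃ (n : ℕ) (c : Fin g → MvPolynomial (Fin (N + 1)) MF) (b : Fin (2 * κ + 1) → MvPolynomial (Fin (N + 1)) MF), ∀ᶠ τ in 𝓝[≠] (0 : ℂ),
          ∑ i, (c i).map (ev τ) * (G i).map (ev (τ ^ M)) + ∑ s ∈ S, (b s).map (ev τ) * (Q s).map (ev τ) = (X l) ^ n := by
        intro l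
        obtain ⟨n, c, b, h2⟩ := hid (Sum.inr (⟨S, hS⟩, l))
        refine ⟨n, c, b, h2.mono fun τ h3 => ?_⟩
        rw [Sum.elim_inr, Sum.elim_inr, map_X] at h3
        exact h3
      choose n c b h1 using h1
      obtain ⟨n', hn'⟩ : ∃ n', n' = ∑ l, n l + e := ⟨_, rfl⟩
      have hnl : ∀ l, n l ≤ n' := fun l => by
        have := Finset.single_le_sum (f := n) (fun _ _ => Nat.zero_le _) (Finset.mem_univ l)
        omega
      refine ⟨n', by omega, by omega, fun l s => homogeneousComponent (n' - e) (X l ^ (n' - n l) * b l s), fun l s => homogeneousComponent_isHomogeneous _ _, fun l => ?_⟩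
      filter_upwards [h1 l, hG', hQQ] with τ h2 h3 h4
      have h5 : ∑ i, (X l ^ (n' - n l) * (c l i).map (ev τ)) * (G i).map (ev (τ ^ M)) + ∑ s ∈ S, ((X l ^ (n' - n l) * b l s).map (ev τ)) * (Q s).map (ev τ) = (X l) ^ n' := by
        have h6 : (X l : MvPolynomial (Fin (N + 1)) ℂ) ^ n' = X l ^ (n' - n l) * X l ^ n l := by
          rw [← pow_add, Nat.sub_add_cancel (hnl l)]
        rw [h6, ← h2, mul_add, Finset.mul_sum, Finset.mul_sum]
        congr 1
        · exact Finset.sum_congr rfl fun i _ => by ring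
        · refine Finset.sum_congr rfl fun s _ => ?_
          rw [map_mul, map_pow, map_X]
          ring
      have h6 := congrArg (homogeneousComponent n') h5
      rw [homogeneousComponent_eq_self (isHomogeneous_X_pow l n'), map_add, map_sum, map_sum] at h6
      have h7 := congrArg (eval fun j => w' j τ) h6
      rw [map_add, map_sum, map_sum, map_pow, eval_X] at h7
      have h8 : ∑ i, eval (fun j => w' j τ) (homogeneousComponent n' ((X l ^ (n' - n l) * (c l i).map (ev τ)) * (G i).map (ev (τ ^ M)))) = 0 := by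
        refine Finset.sum_eq_zero fun i _ => ?_
        rcases Nat.lt_or_ge n' (dg i) with h9 | h9
        · rw [hc_mul_lt (h3 i).1 h9, map_zero]
        · have h10 := hc_mul (h3 i).1 (q := X l ^ (n' - n l) * (c l i).map (ev τ)) (n' - dg i)
          rw [Nat.sub_add_cancel h9] at h10
          rw [h10, map_mul, (h3 i).2, mul_zero]
      rw [h8, zero_add] at h7
      rw [← h7]
      refine Finset.sum_congr rfl fun s _ => ?_
      unfold va
      have h10 := hc_mul (h4 s).2 (q := (X l ^ (n' - n l) * b l s).map (ev τ)) (n' - e)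
      rw [Nat.sub_add_cancel (by omega)] at h10
      rw [h10, map_mul, map_hc, (h4 s).1]
  obtain ⟨l, hl, hk⟩ := hT.coord le_rfl
  rw [hw'] at hl hk
  exact ⟨l, ev_of_pow hM (p := fun z => w l z ≠ 0) hl, fun k => Md.of_pow hM (f := fun z => w k z / w l z) (hk k)⟩

end Pool.Agent.HE
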