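import Pool.Agent.HE.Good

/-!
# HE Gen: entire curves of bounded derivative outside hypersurfaces in general position

`Y ⊆ ℂ^(N+1)` is a closed cone, `Q s`, `s < m`, are entire homogeneous functions of degree `e s > 0`, any `κ + 1` of which have no common zero on `Y`, and `2 κ + 1 ≤ m`.  If `G` is an entire curve of bounded derivative in `Y` on which each `Q s` is `0`
or has no zeros then `G` is constant as a curve in `ℙ^N`.

Proof.  `J z` = the set of the `s` with `c ‖G z‖ ^ e s ≤ ‖Q s (G z)‖` has at least `m - κ` elements (compactness).  `Q s (G z) = exp (p s z)`; the differences of the functions `p s / e s` are quadratic polynomials (`quadratic_of_mean`).  At some `z₀` the real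
parts of all nonconstant differences are large, so the differences for `s, t ∈ J z₀` are constant.  As `2 (m - κ) > m` the sets `J z` and `J z₀` have a common element for all `z`; so `G exp (- p s₁ / e s₁)`, `s₁ ∈ J z₀`, is bounded.
-/

set_option autoImplicit false

open Topology Filter Metric

namespace Pool.Agent.HE

open Pool.Agent.H36.BP (EN fs wd)

variable {N m κ : ℕ} {Y : Set (EN N)} {Q : Fin m → EN N → ℂ} {e : Fin m → ℕ}

/-- forms in general position on the cone `Y` -/
structure Gp (Y : Set (EN N)) (Q : Fin m → EN N → ℂ) (e : Fin m → ℕ) (κ : ℕ) : Prop where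
  closed : IsClosed Y
  smul : ∀ (c : ℂ), ∀ x ∈ Y, c • x ∈ Y
  an : ∀ s, Differentiable ℂ (Q s)
  deg : ∀ s, 0 < e s
  hom : ∀ (s : Fin m) (c : ℂ) (x : EN N), Q s (c • x) = c ^ e s * Q s x
  gp : ∀ S : Finset (Fin m), S.card = κ + 1 → ∀ x ∈ Y, x ≠ 0 → ∃ s ∈ S, Q s x ≠ 0
  card : 2 * κ + 1 ≤ m

private theorem Gen_scale {x : EN N} (hx : x ≠ 0) : ‖(((‖x‖⁻¹ : ℝ)) : ℂ) • x‖ = 1 ∧ (((‖x‖⁻¹ : ℝ)) : ℂ) ≠ 0 ∧ ‖(((‖x‖⁻¹ : ℝ)) : ℂ)‖ = ‖x‖⁻¹ := by
  have hn : ‖x‖ ≠ 0 := norm_ne_zero_iff.2 hx
  refine ⟨?_, ?_, ?_⟩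
  · rw [norm_smul, Complex.norm_real, norm_inv, norm_norm, inv_mul_cancel₀ hn]
  · rw [Complex.ofReal_ne_zero]
    exact inv_ne_zero hn
  · rw [Complex.norm_real, norm_inv, norm_norm]

/-- at most `κ` of the forms are small -/
theorem Gp.low (P : Gp Y Q e κ) : ∃ c : ℝ, 0 < c ∧ ∀ x ∈ Y, x ≠ 0 → m ≤ (Finset.univ.filter fun s => c * ‖x‖ ^ e s ≤ ‖Q s x‖).card + κ := by
  classical
  have hcpt : IsCompact (sphere (0 : EN N) 1 ∩ Y) := (isCompact_sphere _ _).inter_right P.closed
  have h1 : ∃ c : ℝ, 0 < c ∧ ∀ x ∈ sphere (0 : EN N) 1 ∩ Y, m ≤ (Finset.univ.filter fun s => c ≤ ‖Q s x‖).card + κ := by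
    refine hcpt.induction_on (p := fun S : Set (EN N) => ∃ c : ℝ, 0 < c ∧ ∀ x ∈ S, m ≤ (Finset.univ.filter fun s => c ≤ ‖Q s x‖).card + κ) ?_ ?_ ?_ ?_
    · exact ⟨1, one_pos, fun x hx => absurd hx (Set.notMem_empty x)⟩
    · rintro S T hST ⟨c, hc, h⟩
      exact ⟨c, hc, fun x hx => h x (hST hx)⟩
    · rintro S T ⟨c, hc, h⟩ ⟨c', hc', h'⟩
      refine ⟨min c c', lt_min hc hc', fun x hx => ?_⟩
      rcases hx with hx | hx
      · refine (h x hx).trans (Nat.add_le_add_right (Finset.card_le_card fun s hs => ?_) κ)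
        rw [Finset.mem_filter] at hs ⊢
        exact ⟨hs.1, (min_le_left _ _).trans hs.2⟩
      · refine (h' x hx).trans (Nat.add_le_add_right (Finset.card_le_card fun s hs => ?_) κ)
        rw [Finset.mem_filter] at hs ⊢
        exact ⟨hs.1, (min_le_right _ _).trans hs.2⟩
    · rintro x ⟨hx, hxY⟩
      have hx0 : x ≠ 0 := by
        rintro rfl
        simp at hx
      set T : Finset (Fin m) := Finset.univ.filter fun s => Q s x ≠ 0 with hT
      have hcardT : m ≤ T.card + κ := by
        by_contra hcon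
        push Not at hcon
        have h2 : κ + 1 ≤ (Finset.univ \ T).card := by
          rw [Finset.card_sdiff_of_subset (Finset.subset_univ T), Finset.card_univ, Fintype.card_fin]
          omega
        obtain ⟨S, hS, hSc⟩ := Finset.exists_subset_card_eq h2
        obtain ⟨s, hs, hne⟩ := P.gp S hSc x hxY hx0
        have h3 := hS hs
        rw [Finset.mem_sdiff, hT, Finset.mem_filter] at h3
        exact h3.2 ⟨Finset.mem_univ s, hne⟩
      have hpos : ∀ s : Fin m, ∃ c : ℝ, 0 < c ∧ (s ∈ T → c < ‖Q s x‖) := by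
        intro s
        by_cases hs : s ∈ T
        · rw [hT, Finset.mem_filter] at hs
          have h4 : 0 < ‖Q s x‖ := norm_pos_iff.2 hs.2
          exact ⟨‖Q s x‖ / 2, by positivity, fun _ => by linarith⟩
        · exact ⟨1, one_pos, fun h => absurd h hs⟩
      choose c hc hcT using hpos
      have h0 : ∀ s, 0 < (c s)⁻¹ := fun s => inv_pos.2 (hc s)
      have h5 : 0 < ∑ s, (c s)⁻¹ + 1 := by
        have := Finset.sum_nonneg fun s (_ : s ∈ Finset.univ) => (h0 s).le
        linarith
      have h6 : ∀ s, (∑ s, (c s)⁻¹ + 1)⁻¹ ≤ c s := by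
        intro s
        rw [inv_le_comm₀ h5 (hc s)]
        have := Finset.single_le_sum (f := fun s => (c s)⁻¹) (fun i _ => (h0 i).le) (Finset.mem_univ s)
        linarith
      have h7 : ∀ᶠ y in 𝓝 x, ∀ s, s ∈ T → c s < ‖Q s y‖ := by
        rw [Filter.eventually_all]
        intro s
        by_cases hs : s ∈ T
        · filter_upwards [((P.an s).continuous.norm.continuousAt).eventually (lt_mem_nhds (hcT s hs))] with y hy _
          exact hy
        · exact Filter.Eventually.of_forall fun y h => absurd h hs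
      refine ⟨_, mem_nhdsWithin_of_mem_nhds h7, (∑ s, (c s)⁻¹ + 1)⁻¹, inv_pos.2 h5, fun y hy => ?_⟩
      refine hcardT.trans (Nat.add_le_add_right (Finset.card_le_card fun s hs => ?_) κ)
      rw [Finset.mem_filter]
      exact ⟨Finset.mem_univ s, (h6 s).trans (hy s hs).le⟩
  obtain ⟨c, hc, h⟩ := h1
  refine ⟨c, hc, fun x hx hx0 => ?_⟩
  obtain ⟨hn, hb0, hbn⟩ := Gen_scale hx0
  have hxn : 0 < ‖x‖ := norm_pos_iff.2 hx0
  refine (h _ ⟨by rw [mem_sphere_zero_iff_norm]; exact hn, P.smul _ x hx⟩).trans (Nat.add_le_add_right (Finset.card_le_card fun s hs => ?_) κ)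
  rw [Finset.mem_filter] at hs ⊢
  refine ⟨hs.1, ?_⟩
  have h2 := hs.2
  rw [P.hom, norm_mul, norm_pow, hbn, inv_pow, ← div_eq_inv_mul, le_div_iff₀ (by positivity)] at h2
  exact h2

/-- the upper bound of the forms -/
theorem Gp.upp (P : Gp Y Q e κ) : ∃ C : ℝ, 1 ≤ C ∧ ∀ (s : Fin m) (x : EN N), x ≠ 0 → ‖Q s x‖ ≤ C * ‖x‖ ^ e s := by
  have h1 : ∀ s : Fin m, ∃ C : ℝ, 0 ≤ C ∧ ∀ x : EN N, x ≠ 0 → ‖Q s x‖ ≤ C * ‖x‖ ^ e s := by
    intro s
    obtain ⟨C, hC⟩ := (isCompact_sphere (0 : EN N) 1).bddAbove_image ((P.an s).continuous.norm.continuousOn)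
    refine ⟨max C 0, le_max_right _ _, fun x hx0 => ?_⟩
    obtain ⟨hn, hb0, hbn⟩ := Gen_scale hx0
    have hxn : 0 < ‖x‖ := norm_pos_iff.2 hx0
    have h2 : ‖Q s ((((‖x‖⁻¹ : ℝ)) : ℂ) • x)‖ ≤ C := hC ⟨_, by rw [mem_sphere_zero_iff_norm]; exact hn, rfl⟩
    rw [P.hom, norm_mul, norm_pow, hbn, inv_pow, ← div_eq_inv_mul, div_le_iff₀ (by positivity)] at h2
    exact h2.trans (mul_le_mul_of_nonneg_right (le_max_left _ _) (by positivity))
  choose C hC h using h1
  refine ⟨1 + ∑ s, C s, by have := Finset.sum_nonneg fun s (_ : s ∈ Finset.univ) => hC s; linarith, fun s x hx => (h s x hx).trans ?_⟩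
  refine mul_le_mul_of_nonneg_right ?_ (by positivity)
  have := Finset.single_le_sum (f := C) (fun i _ => hC i) (Finset.mem_univ s)
  linarith

/-- **Entire curves of bounded derivative outside hypersurfaces in general position are constant.** -/
theorem Gp.const (P : Gp Y Q e κ) {G : ℂ → EN N} (hG : Differentiable ℂ G) (h0 : ∀ z, G z ≠ 0) (hY : ∀ z, G z ∈ Y) {L : ℝ} (hL : ∀ z, fs (G z) (deriv G z) ≤ L)
    (hz : ∀ s, (∀ z, Q s (G z) = 0) ∨ ∀ z, Q s (G z) ≠ 0) (z w : ℂ) : ∃ c : ℂ, G z = c • G w := by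
  classical
  obtain ⟨A, hA0, hA⟩ := avg_of_fs hG h0 hL
  obtain ⟨c, hc, hlow⟩ := P.low
  obtain ⟨C, hC1, hupp⟩ := P.upp
  have hC0 : 0 < C := by linarith
  have hGn : ∀ z, 0 < ‖G z‖ := fun z => norm_pos_iff.2 (h0 z)
  have heR : ∀ s, (0 : ℝ) < e s := fun s => by exact_mod_cast P.deg s
  have heC : ∀ s, (e s : ℂ) ≠ 0 := fun s => by exact_mod_cast (P.deg s).ne'
  -- logarithms
  have hex : ∀ s : Fin m, ∃ p : ℂ → ℂ, Differentiable ℂ p ∧ ((∀ z, Q s (G z) ≠ 0) → ∀ z, Q s (G z) = Complex.exp (p z)) := by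
    intro s
    by_cases hs : ∀ z, Q s (G z) ≠ 0
    · obtain ⟨p, hp, h1⟩ := entire_log ((P.an s).comp hG) hs
      exact ⟨p, hp, fun _ => h1⟩
    · exact ⟨fun _ => 0, differentiable_const _, fun h => absurd h hs⟩
  choose p hp hpe using hex
  set J : ℂ → Finset (Fin m) := fun z => Finset.univ.filter fun s => c * ‖G z‖ ^ e s ≤ ‖Q s (G z)‖ with hJ
  have hJcard : ∀ z, m ≤ (J z).card + κ := fun z => hlow _ (hY z) (h0 z)
  have hJmem : ∀ z s, s ∈ J z → c * ‖G z‖ ^ e s ≤ ‖Q s (G z)‖ := fun z s hs => by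
    rw [hJ] at hs
    exact (Finset.mem_filter.1 hs).2
  have hJfree : ∀ z s, s ∈ J z → ∀ v, Q s (G v) = Complex.exp (p s v) := by
    intro z s hs
    have h1 := hJmem z s hs
    have h2 : Q s (G z) ≠ 0 := by
      intro h3
      rw [h3, norm_zero] at h1
      have := hGn z
      have h4 : 0 < c * ‖G z‖ ^ e s := by positivity
      linarith
    exact hpe s ((hz s).resolve_left fun h => h2 (h z))
  -- the real parts
  have hlogu : ∀ s, (∀ v, Q s (G v) = Complex.exp (p s v)) → ∀ z, (p s z).re ≤ Real.log C + e s * Real.log ‖G z‖ := by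
    intro s hs z
    have h1 := hupp s (G z) (h0 z)
    rw [hs z, Complex.norm_exp] at h1
    have h2 := Real.log_le_log (Real.exp_pos _) h1
    have h3 := hGn z
    rw [Real.log_exp, Real.log_mul hC0.ne' (by positivity), Real.log_pow] at h2
    exact h2
  have hlogl : ∀ z s, s ∈ J z → Real.log c + e s * Real.log ‖G z‖ ≤ (p s z).re := by
    intro z s hs
    have h1 := hJmem z s hs
    have h3 := hGn z
    rw [hJfree z s hs z, Complex.norm_exp] at h1
    have h2 := Real.log_le_log (by positivity) h1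
    rw [Real.log_exp, Real.log_mul hc.ne' (by positivity), Real.log_pow] at h2
    exact h2
  set B : ℝ := |Real.log c| + |Real.log C| with hB
  have hnear : ∀ z s, s ∈ J z → |(p s z).re / e s - Real.log ‖G z‖| ≤ B := by
    intro z s hs
    have h1 := hlogu s (hJfree z s hs) z
    have h2 := hlogl z s hs
    have h3 : (1 : ℝ) ≤ e s := by exact_mod_cast P.deg s
    have h4 : (p s z).re / e s - Real.log ‖G z‖ = ((p s z).re - e s * Real.log ‖G z‖) / e s := by
      field_simp
    rw [h4, abs_div, abs_of_pos (heR s), div_le_iff₀ (heR s)]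
    have h5 : |(p s z).re - e s * Real.log ‖G z‖| ≤ B := by
      rw [abs_le]
      have := neg_abs_le (Real.log c)
      have := le_abs_self (Real.log C)
      have := abs_nonneg (Real.log c)
      have := abs_nonneg (Real.log C)
      constructor <;> linarith
    have h6 : 0 ≤ B := by positivity
    nlinarith
  -- an index
  have hJ0 : (J 0).Nonempty := by
    rw [← Finset.card_pos]
    have := hJcard 0
    have := P.card
    omega
  obtain ⟨s₀, hs₀⟩ := hJ0
  have hfree₀ := hJfree 0 s₀ hs₀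
  have hlogG : Continuous fun z => Real.log ‖G z‖ := Continuous.log hG.continuous.norm fun z => norm_ne_zero_iff.2 (h0 z)
  -- quadratic polynomials
  have hquad : ∀ s, (∀ v, Q s (G v) = Complex.exp (p s v)) → ∃ a b c' : ℂ, ∀ z, (e s₀ : ℂ) * p s z - e s * p s₀ z = a * z ^ 2 + b * z + c' := by
    intro s hs
    have hd : Differentiable ℂ fun z => (e s₀ : ℂ) * p s z - e s * p s₀ z := ((hp s).const_mul _).sub ((hp s₀).const_mul _)
    set u : ℂ → ℂ := fun z => (e s₀ : ℂ) * p s z - e s * p s₀ z with hu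
    have hure : ∀ z, (u z).re = e s₀ * (p s z).re - e s * (p s₀ z).re := by
      intro z
      rw [hu]
      simp only [Complex.sub_re, Complex.mul_re, Complex.natCast_re, Complex.natCast_im, zero_mul, sub_zero]
    have hgc : Continuous fun z => (u z).re := Complex.continuous_re.comp hd.continuous
    -- the positive part
    set K : ℝ := e s₀ * |Real.log C| + e s * |Real.log C| with hK
    have hpos : ∀ z, max 0 (u z).re ≤ K + e s * (e s₀ * Real.log ‖G z‖ - (p s₀ z).re) := by
      intro z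
      have h1 := hlogu s hs z
      have h2 := hlogu s₀ hfree₀ z
      have h3 := le_abs_self (Real.log C)
      have h4 := abs_nonneg (Real.log C)
      have h5 := heR s
      have h6 := heR s₀
      rw [hK]
      apply max_le
      · have h7 : 0 ≤ e s * (|Real.log C| + e s₀ * Real.log ‖G z‖ - (p s₀ z).re) := mul_nonneg h5.le (by linarith)
        have h8 : 0 ≤ e s₀ * |Real.log C| := by positivity
        nlinarith
      · rw [hure]
        have h7 : e s₀ * (p s z).re ≤ e s₀ * (|Real.log C| + e s * Real.log ‖G z‖) := mul_le_mul_of_nonneg_left (by linarith) h6.le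
        have h8 : 0 ≤ e s * |Real.log C| := by positivity
        nlinarith
    apply Pool.Agent.H13.LU.quadratic_of_mean hd (A := 2 * (|K| + e s * (e s₀ * A + |(p s₀ 0).re|)) + |(u 0).re|)
    intro r hr
    have hr0 : 0 < r := by linarith
    have e1 : Real.circleAverage (fun z => (u z).re) 0 r = (u 0).re := by
      have h1 : InnerProductSpace.HarmonicOnNhd (fun z => (u z).re) (closedBall (0 : ℂ) |r|) := fun z _ =>
        AnalyticAt.harmonicAt_re (f := u) (x := z) (hd.analyticAt z)
      exact h1.circleAverage_eq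
    have e2 : Real.circleAverage (fun z => (p s₀ z).re) 0 r = (p s₀ 0).re := by
      have h1 : InnerProductSpace.HarmonicOnNhd (fun z => (p s₀ z).re) (closedBall (0 : ℂ) |r|) := fun z _ =>
        AnalyticAt.harmonicAt_re (f := p s₀) (x := z) ((hp s₀).analyticAt z)
      exact h1.circleAverage_eq
    have hci : ∀ f : ℂ → ℝ, Continuous f → CircleIntegrable f 0 r := fun f hf => hf.continuousOn.circleIntegrable'
    have hp0c : Continuous fun z => (p s₀ z).re := Complex.continuous_re.comp (hp s₀).continuous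
    have e3 : Real.circleAverage (fun z => max 0 (u z).re) 0 r ≤ K + e s * (e s₀ * (A * (1 + r ^ 2)) - (p s₀ 0).re) := by
      have h1 : Real.circleAverage (fun z => max 0 (u z).re) 0 r ≤ Real.circleAverage (fun z => K + e s * (e s₀ * Real.log ‖G z‖ - (p s₀ z).re)) 0 r :=
        Real.circleAverage_mono (hci _ (continuous_const.max hgc)) (hci _ (by fun_prop)) fun z _ => hpos z
      have h2 : Real.circleAverage (fun z => K + e s * (e s₀ * Real.log ‖G z‖ - (p s₀ z).re)) 0 r =
          K + e s * (e s₀ * Real.circleAverage (fun z => Real.log ‖G z‖) 0 r - (p s₀ 0).re) := by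
        rw [Real.circleAverage_fun_add (hci _ continuous_const) (hci _ (by fun_prop)), Real.circleAverage_const]
        have h3 := Real.circleAverage_fun_smul (a := (e s : ℝ)) (f := fun z => e s₀ * Real.log ‖G z‖ - (p s₀ z).re) (c := 0) (R := r)
        simp only [smul_eq_mul] at h3
        rw [h3, Real.circleAverage_fun_sub (hci _ (by fun_prop)) (hci _ hp0c), e2]
        have h4 := Real.circleAverage_fun_smul (a := (e s₀ : ℝ)) (f := fun z => Real.log ‖G z‖) (c := 0) (R := r)
        simp only [smul_eq_mul] at h4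
        rw [h4]
      rw [h2] at h1
      refine h1.trans ?_
      have h5 := hA r hr0
      have h6 : (e s₀ : ℝ) * Real.circleAverage (fun z => Real.log ‖G z‖) 0 r ≤ e s₀ * (A * (1 + r ^ 2)) := mul_le_mul_of_nonneg_left h5 (heR s₀).le
      have h7 := mul_le_mul_of_nonneg_left (sub_le_sub_right h6 (p s₀ 0).re) (heR s).le
      linarith
    have e4 : Real.circleAverage (fun z => |(u z).re|) 0 r = 2 * Real.circleAverage (fun z => max 0 (u z).re) 0 r - (u 0).re := by
      have h1 : (fun z => |(u z).re|) = fun z => 2 * max 0 (u z).re - (u z).re := by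
        funext z
        rcases le_total 0 (u z).re with h2 | h2
        · rw [abs_of_nonneg h2, max_eq_right h2]
          ring
        · rw [abs_of_nonpos h2, max_eq_left h2]
          ring
      rw [h1, Real.circleAverage_fun_sub (hci _ (by fun_prop)) (hci _ hgc), e1]
      have h3 := Real.circleAverage_fun_smul (a := (2 : ℝ)) (f := fun z => max 0 (u z).re) (c := 0) (R := r)
      simp only [smul_eq_mul] at h3
      rw [h3]
    rw [e4]
    have h1 := neg_abs_le (u 0).re
    have h2 := neg_abs_le (p s₀ 0).re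
    have h3 := le_abs_self K
    have h4 := heR s
    have h5 := heR s₀
    have h6 : (1 : ℝ) ≤ 1 + r ^ 2 := by nlinarith
    have h7 : |K| ≤ |K| * (1 + r ^ 2) := le_mul_of_one_le_right (abs_nonneg _) h6
    have h8 : e s * |(p s₀ 0).re| ≤ e s * |(p s₀ 0).re| * (1 + r ^ 2) := le_mul_of_one_le_right (by positivity) h6
    have h9 : |(u 0).re| ≤ |(u 0).re| * (1 + r ^ 2) := le_mul_of_one_le_right (abs_nonneg _) h6
    have h10 : e s * (e s₀ * (A * (1 + r ^ 2)) - (p s₀ 0).re) ≤ e s * (e s₀ * (A * (1 + r ^ 2)) + |(p s₀ 0).re|) :=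
      mul_le_mul_of_nonneg_left (by linarith) h4.le
    nlinarith
  -- coefficients
  have hco : ∀ s : Fin m, ∃ a b c' : ℂ, (∀ v, Q s (G v) = Complex.exp (p s v)) → ∀ z, (e s₀ : ℂ) * p s z - e s * p s₀ z = a * z ^ 2 + b * z + c' := by
    intro s
    by_cases hs : ∀ v, Q s (G v) = Complex.exp (p s v)
    · obtain ⟨a, b, c', h1⟩ := hquad s hs
      exact ⟨a, b, c', fun _ => h1⟩
    · exact ⟨0, 0, 0, fun h => absurd h hs⟩
  choose α β γ hαβ using hco
  -- differences
  set a' : Fin m × Fin m → ℂ := fun x => (α x.1 / e x.1 - α x.2 / e x.2) / e s₀ with ha'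
  set b' : Fin m × Fin m → ℂ := fun x => (β x.1 / e x.1 - β x.2 / e x.2) / e s₀ with hb'
  set c' : Fin m × Fin m → ℂ := fun x => (γ x.1 / e x.1 - γ x.2 / e x.2) / e s₀ with hc'
  have hdiff : ∀ s t, (∀ v, Q s (G v) = Complex.exp (p s v)) → (∀ v, Q t (G v) = Complex.exp (p t v)) → ∀ z,
      p s z / e s - p t z / e t = a' (s, t) * z ^ 2 + b' (s, t) * z + c' (s, t) := by
    intro s t hs ht z
    have h1 := hαβ s hs z
    have h2 := hαβ t ht z
    have h3 := heC s
    have h4 := heC t
    have h5 := heC s₀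
    have e1 : p s z / e s = p s₀ z / e s₀ + (α s * z ^ 2 + β s * z + γ s) / (e s * e s₀) := by
      rw [← h1]
      field_simp
      ring
    have e2 : p t z / e t = p s₀ z / e s₀ + (α t * z ^ 2 + β t * z + γ t) / (e t * e s₀) := by
      rw [← h2]
      field_simp
      ring
    rw [e1, e2, ha', hb', hc']
    simp only
    field_simp
    ring
  -- the good point
  obtain ⟨z₀, hz₀⟩ := exists_large (ι := {x : Fin m × Fin m // a' x ≠ 0 ∨ b' x ≠ 0}) (fun x => a' x.1) (fun x => b' x.1) (fun x => c' x.1) (fun x => x.2) (2 * B)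
  have hJz : (J z₀).Nonempty := by
    rw [← Finset.card_pos]
    have := hJcard z₀
    have := P.card
    omega
  obtain ⟨s₁, hs₁⟩ := hJz
  have hfree₁ := hJfree z₀ s₁ hs₁
  have hcl : ∀ s ∈ J z₀, ∀ z, p s z / e s - p s₁ z / e s₁ = c' (s, s₁) := by
    intro s hs z
    have hfs := hJfree z₀ s hs
    have h1 : a' (s, s₁) = 0 ∧ b' (s, s₁) = 0 := by
      by_contra hcon
      have h2 : a' (s, s₁) ≠ 0 ∨ b' (s, s₁) ≠ 0 := by
        by_contra h3
        push Not at h3
        exact hcon h3
      have h3 := hz₀ ⟨(s, s₁), h2⟩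
      simp only at h3
      rw [← hdiff s s₁ hfs hfree₁ z₀] at h3
      have h4 := hnear z₀ s hs
      have h5 := hnear z₀ s₁ hs₁
      have h6 : (p s z₀ / e s - p s₁ z₀ / e s₁).re = ((p s z₀).re / e s - Real.log ‖G z₀‖) - ((p s₁ z₀).re / e s₁ - Real.log ‖G z₀‖) := by
        rw [Complex.sub_re, Complex.div_natCast_re, Complex.div_natCast_re]
        ring
      rw [h6] at h3
      have h7 := abs_sub ((p s z₀).re / e s - Real.log ‖G z₀‖) ((p s₁ z₀).re / e s₁ - Real.log ‖G z₀‖)
      linarith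
    rw [hdiff s s₁ hfs hfree₁ z, h1.1, h1.2]
    ring
  -- the bound
  have hbd : ∀ z, Real.log ‖G z‖ ≤ (p s₁ z).re / e s₁ + (B + ∑ s, ‖c' (s, s₁)‖) := by
    intro z
    have h1 : ∃ s, s ∈ J z ∧ s ∈ J z₀ := by
      by_contra hcon
      push Not at hcon
      have h2 : Disjoint (J z) (J z₀) := Finset.disjoint_left.2 hcon
      have h3 := Finset.card_union_of_disjoint h2
      have h4 := Finset.card_le_univ (J z ∪ J z₀)
      rw [Fintype.card_fin] at h4
      have h5 := hJcard z
      have h6 := hJcard z₀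
      have h7 := P.card
      omega
    obtain ⟨s, hs, hs'⟩ := h1
    have h2 := hcl s hs' z
    have h3 := hnear z s hs
    rw [abs_le] at h3
    have h4 : (p s z).re / e s = (p s₁ z).re / e s₁ + (c' (s, s₁)).re := by
      rw [← h2, Complex.sub_re, Complex.div_natCast_re, Complex.div_natCast_re]
      ring
    have h5 : (c' (s, s₁)).re ≤ ‖c' (s, s₁)‖ := Complex.re_le_norm _
    have h6 := Finset.single_le_sum (f := fun s => ‖c' (s, s₁)‖) (fun i _ => norm_nonneg _) (Finset.mem_univ s)
    linarith [h3.1]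
  -- Liouville
  have hh : Differentiable ℂ fun z => Complex.exp (-(p s₁ z / e s₁)) • G z := (((hp s₁).div_const _).neg.cexp).smul hG
  have hhb : Bornology.IsBounded (Set.range fun z => Complex.exp (-(p s₁ z / e s₁)) • G z) := by
    rw [isBounded_iff_forall_norm_le]
    refine ⟨Real.exp (B + ∑ s, ‖c' (s, s₁)‖), ?_⟩
    rintro _ ⟨z, rfl⟩
    simp only
    rw [norm_smul, Complex.norm_exp, Complex.neg_re, Complex.div_natCast_re, ← Real.exp_log (hGn z), ← Real.exp_add, Real.exp_le_exp]
    have := hbd z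
    linarith
  have hconst := hh.apply_eq_apply_of_bounded hhb z w
  refine ⟨Complex.exp (p s₁ z / e s₁) * Complex.exp (-(p s₁ w / e s₁)), ?_⟩
  rw [mul_smul, ← hconst, smul_smul, ← Complex.exp_add, add_neg_cancel, Complex.exp_zero, one_smul]

end Pool.Agent.HE
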