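import Pool.Agent.H36.BPL.CurveK

/-!
# HE Kwa: extension over the puncture

A holomorphic map `f` from the punctured disc to `ℙ^N` whose derivative in the Fubini–Study metric is near `0` at most `L` times the Poincaré metric of the punctured disc extends.  (`bounded_lifts`, `puncture_limit` for the Fubini–Study metric of `ℙ^N`; adapted from `H36/BP/Main`.)
-/

set_option autoImplicit false

open Topology Filter Metric

namespace Pool.Agent.HE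

open Pool.Agent.H17 (PN HolomorphicInto puncturedDisc)
open Pool.Agent.H36.BP
open Pool.Agent.H36.BPL (AffProper curve_metric)

variable {N : ℕ}

/-- the metric data of the Fubini–Study metric of `ℙ^N` -/
theorem md_all (N : ℕ) : MetricData {x : EN N | x ≠ 0} ∅ (fun x v => fs x v) (fun _ => 1) 1 1 (3 / 2) := by
  have hs : ∀ x ∈ {x : EN N | x ≠ 0}, ∀ c : ℂ, c ≠ 0 → c • x ∈ {x : EN N | x ≠ 0} := fun x hx c hc => smul_ne_zero hc hx
  refine curve_metric (X := {x : EN N | x ≠ 0}) (K := {x : EN N | x ≠ 0}) (fun h => h rfl) (fun x _ hx => hx) le_rfl hs (fun x _ => Eventually.of_forall fun y hy => hy) (AffProper.closed _ hs) ?_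
  intro F z₀ _ h
  exact absurd h.self_of_nhds.1 h.self_of_nhds.2

theorem kwack {f : ℂ → PN N} (hf : HolomorphicInto f puncturedDisc) {L r₀ : ℝ} (hr₀ : 0 < r₀) (hr₁ : r₀ < 1)
    (hgr : ∀ F : ℂ → EN N, DifferentiableOn ℂ F (ball 0 r₀ \ {0}) → (∀ z ∈ ball (0 : ℂ) r₀ \ {0}, ∃ h : (F z).ofLp ≠ 0, f z = Projectivization.mk ℂ (F z).ofLp h) →
      ∀ z ∈ ball (0 : ℂ) r₀ \ {0}, fs (F z) (deriv F z) * (‖z‖ * Real.log (1 / ‖z‖)) ≤ L) :
    ∃ g : ℂ → PN N, HolomorphicInto g (ball 0 1) ∧ ∀ z ∈ puncturedDisc, g z = f z := by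
  classical
  have hr0C : (r₀ : ℂ) ≠ 0 := by exact_mod_cast hr₀.ne'
  have hM := md_all N
  obtain ⟨F, hFd, hFf⟩ := lift_punct hf (r := r₀) hr₀ hr₁
  have hhalf : ∀ z ∈ ball (0 : ℂ) 1 \ {0}, (r₀ : ℂ) * z ∈ ball (0 : ℂ) r₀ \ {0} := by
    rintro z ⟨hz1, hz2⟩
    rw [mem_ball_zero_iff] at hz1
    refine ⟨?_, ?_⟩
    · rw [mem_ball_zero_iff, norm_mul, Complex.norm_real, Real.norm_of_nonneg hr₀.le]
      nlinarith
    · exact mul_ne_zero hr0C hz2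
  have hsubp : ball (0 : ℂ) r₀ \ {0} ⊆ puncturedDisc := by
    rintro z ⟨hz1, hz2⟩
    exact ⟨ball_subset_ball hr₁.le hz1, hz2⟩
  have hopen : IsOpen (ball (0 : ℂ) r₀ \ {0}) := isOpen_ball.sdiff isClosed_singleton
  have hopen1 : IsOpen (ball (0 : ℂ) 1 \ {0}) := isOpen_ball.sdiff isClosed_singleton
  set F₁ : ℂ → EN N := fun z => F ((r₀ : ℂ) * z) with hF₁
  have hd1 : ∀ z ∈ ball (0 : ℂ) 1 \ {0}, HasDerivAt F₁ ((r₀ : ℂ) • deriv F ((r₀ : ℂ) * z)) z := by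
    intro z hz
    have h1 : HasDerivAt F (deriv F ((r₀ : ℂ) * z)) ((r₀ : ℂ) * z) := (hFd.differentiableAt (hopen.mem_nhds (hhalf z hz))).hasDerivAt
    have h2 : HasDerivAt (fun z : ℂ => (r₀ : ℂ) * z) (r₀ : ℂ) z := by simpa using (hasDerivAt_id z).const_mul (r₀ : ℂ)
    exact h1.scomp z h2
  have hF1c : Curve {x : EN N | x ≠ 0} (ball 0 1 \ {0}) F₁ := by
    refine ⟨fun z hz => (hd1 z hz).differentiableAt.differentiableWithinAt, fun z hz => ?_⟩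
    obtain ⟨h1, -⟩ := hFf _ (hhalf z hz)
    exact ne_zero_of_ofLp h1
  -- the constant case
  by_cases hconst : ∃ c₁ : PN N, ∀ z ∈ puncturedDisc, f z = c₁
  · obtain ⟨c₁, hc₁⟩ := hconst
    refine ⟨fun _ => c₁, ?_, fun z hz => (hc₁ z hz).symm⟩
    intro z _
    exact ⟨fun _ => c₁.rep, analyticAt_const, Filter.Eventually.of_forall fun w => ⟨c₁.rep_nonzero, (Projectivization.mk_rep c₁).symm⟩⟩
  have han1 : ∀ z ∈ ball (0 : ℂ) 1 \ {0}, AnalyticAt ℂ F₁ z := fun z hz => hF1c.1.analyticAt (hopen1.mem_nhds hz)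
  have hscale : ∀ z : ℂ, Tendsto (fun w : ℂ => (r₀ : ℂ)⁻¹ * w) (𝓝 ((r₀ : ℂ) * z)) (𝓝 z) := by
    intro z
    have : Tendsto (fun w : ℂ => (r₀ : ℂ)⁻¹ * w) (𝓝 ((r₀ : ℂ) * z)) (𝓝 ((r₀ : ℂ)⁻¹ * ((r₀ : ℂ) * z))) := (continuous_const.mul continuous_id).tendsto _
    rwa [inv_mul_cancel_left₀ hr0C] at this
  have hF1F : ∀ w : ℂ, F₁ ((r₀ : ℂ)⁻¹ * w) = F w := by
    intro w
    rw [hF₁]
    simp only
    rw [mul_inv_cancel_left₀ hr0C]
  have hc : ∀ z ∈ ball (0 : ℂ) 1 \ {0}, ¬ ∀ᶠ w in 𝓝 z, wd (F₁ w) (deriv F₁ w) = 0 := by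
    intro z hz hw
    apply hconst
    have h0 : F₁ z ≠ 0 := hM.ne _ (hF1c.2 z hz)
    have h1 := const_of_wedge (han1 z hz) h0 hw
    refine ⟨f ((r₀ : ℂ) * z), const_identity preconnected_puncturedDisc hf (hsubp (hhalf z hz)) ?_⟩
    filter_upwards [(hscale z).eventually h1, hopen.mem_nhds (hhalf z hz)] with w hw1 hw2
    obtain ⟨c, hc0, hcw⟩ := hw1
    rw [hF1F] at hcw
    obtain ⟨h3, h4⟩ := hFf w hw2
    obtain ⟨h5, h6⟩ := hFf _ (hhalf z hz)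
    rw [h4, h6, Projectivization.mk_eq_mk_iff']
    refine ⟨c, ?_⟩
    rw [hcw]
    rfl
  -- a point with positive metric
  have hz0 : (1 / 2 : ℂ) ∈ ball (0 : ℂ) 1 \ {0} := by
    refine ⟨?_, by simp⟩
    rw [mem_ball_zero_iff]
    norm_num
  have hpos := exists_pos hM (han1 _ hz0) (Filter.mem_of_superset (hopen1.mem_nhds hz0) fun z hz => hF1c.2 z hz)
    (fun h => h.self_of_nhds) (hc _ hz0)
  obtain ⟨z₁, hz₁pos, hz₁⟩ := (hpos.and (hopen1.mem_nhds hz0 |> Filter.Eventually.filter_mono nhdsWithin_le_nhds)).exists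
  have hz₁1 : ‖z₁‖ < 1 := by simpa using hz₁.1
  have hz₁0 : 0 < ‖z₁‖ := norm_pos_iff.mpr hz₁.2
  have hL' : 0 < max L 1 := lt_max_of_lt_right one_pos
  have hgr' : ∀ z : ℂ, z ≠ 0 → ‖z‖ < 1 → Pool.Agent.H36.BP.mt (fun x v => fs x v) F₁ z * (‖z‖ * Real.log (1 / ‖z‖)) ≤ max L 1 := by
    intro z hz hz1
    have hzm : z ∈ ball (0 : ℂ) 1 \ {0} := ⟨mem_ball_zero_iff.2 hz1, hz⟩
    have h1 := hgr F hFd hFf _ (hhalf z hzm)
    have hzp : 0 < ‖z‖ := norm_pos_iff.2 hz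
    have h0 : Pool.Agent.H36.BP.mt (fun x v => fs x v) F₁ z = r₀ * fs (F ((r₀ : ℂ) * z)) (deriv F ((r₀ : ℂ) * z)) := by
      unfold Pool.Agent.H36.BP.mt
      beta_reduce
      rw [(hd1 z hzm).deriv, fs_smul_right, Complex.norm_real, Real.norm_of_nonneg hr₀.le]
    rw [h0]
    rw [norm_mul, Complex.norm_real, Real.norm_of_nonneg hr₀.le] at h1
    refine le_trans ?_ (h1.trans (le_max_left _ _))
    have h2 : 0 ≤ fs (F ((r₀ : ℂ) * z)) (deriv F ((r₀ : ℂ) * z)) := fs_nonneg _ _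
    have h3 : Real.log (1 / ‖z‖) ≤ Real.log (1 / (r₀ * ‖z‖)) := by
      refine Real.log_le_log (by positivity) ?_
      refine one_div_le_one_div_of_le (by positivity) ?_
      nlinarith
    calc r₀ * fs (F ((r₀ : ℂ) * z)) (deriv F ((r₀ : ℂ) * z)) * (‖z‖ * Real.log (1 / ‖z‖)) = fs (F ((r₀ : ℂ) * z)) (deriv F ((r₀ : ℂ) * z)) * (r₀ * ‖z‖ * Real.log (1 / ‖z‖)) := by ring
      _ ≤ _ := by gcongr
  obtain ⟨c, hcpos, hlift⟩ := bounded_lifts hM hL' hF1c hgr' (r₁ := (‖z₁‖ + 1) / 2) hz₁0 (by linarith) (by linarith) hz₁pos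
  obtain ⟨Q, hQa, hQ0, hQ⟩ := puncture_limit hF1c.1 (fun z hz => hM.ne _ (hF1c.2 z hz)) hcpos hz₁0 (r₁ := (‖z₁‖ + 1) / 2)
    (by linarith) (by linarith) hlift
  -- gluing
  set q₀ : PN N := Projectivization.mk ℂ (Q 0).ofLp (ofLp_ne_zero hQ0) with hq₀
  refine ⟨fun z => if z = 0 then q₀ else f z, ?_, ?_⟩
  · intro z hz
    by_cases hz0 : z = 0
    · subst hz0
      refine ⟨fun w => (Q ((r₀ : ℂ)⁻¹ * w)).ofLp, ?_, ?_⟩
      · apply analyticAt_ofLp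
        have h1 : AnalyticAt ℂ Q ((fun w : ℂ => (r₀ : ℂ)⁻¹ * w) 0) := by simpa using hQa
        exact h1.comp (analyticAt_const.mul analyticAt_id)
      · have h2 : Tendsto (fun w : ℂ => (r₀ : ℂ)⁻¹ * w) (𝓝 0) (𝓝 0) := by
          have := hscale 0
          rwa [mul_zero] at this
        have h3 : ∀ᶠ w in 𝓝 (0 : ℂ), w ≠ 0 → ∃ k : ℂ, k ≠ 0 ∧ Q ((r₀ : ℂ)⁻¹ * w) = k • F₁ ((r₀ : ℂ)⁻¹ * w) := by
          filter_upwards [h2.eventually (eventually_nhdsWithin_iff.mp hQ)] with w hw hw0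
          exact hw (mul_ne_zero (inv_ne_zero hr0C) hw0)
        have h4 : ∀ᶠ w in 𝓝 (0 : ℂ), Q ((r₀ : ℂ)⁻¹ * w) ≠ 0 := by
          have h5 : ∀ᶠ y in 𝓝 (0 : ℂ), Q y ≠ 0 := hQa.continuousAt.eventually_ne hQ0
          exact h2.eventually h5
        filter_upwards [h3, h4, ball_mem_nhds (0 : ℂ) hr₀] with w hw1 hw2 hw3
        refine ⟨ofLp_ne_zero hw2, ?_⟩
        by_cases hw0 : w = 0
        · subst hw0
          simp only [if_true, hq₀, mul_zero]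
        · rw [if_neg hw0]
          obtain ⟨k, hk0, hk⟩ := hw1 hw0
          rw [hF1F] at hk
          obtain ⟨h5, h6⟩ := hFf w ⟨hw3, hw0⟩
          rw [h6, Projectivization.mk_eq_mk_iff']
          refine ⟨k⁻¹, ?_⟩
          rw [hk]
          show k⁻¹ • (k • (F w).ofLp) = _
          rw [smul_smul, inv_mul_cancel₀ hk0, one_smul]
    · obtain ⟨φ, hφ, he⟩ := hf z ⟨hz, hz0⟩
      refine ⟨φ, hφ, ?_⟩
      filter_upwards [he, isOpen_ne.mem_nhds hz0] with w hw1 hw2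
      rw [if_neg hw2]
      exact hw1
  · intro z hz
    have hz0 : z ≠ 0 := hz.2
    simp only
    rw [if_neg hz0]

end Pool.Agent.HE
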