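import Pool.Agent.PX.F.FDefs

/-!
# HE FDefs: complements of divisors in families over complex tori: the definitions of the final theorem

`A = ℂ^n / Λ`, `n = k + 1`, is a complex torus, `X` a closed analytic subset of `A × ℙ^m`, that is a family of projective varieties over `A`.

* `IsHolomorphicForm`: forms in `x ∈ ℂ^(m+1)` whose coefficients are holomorphic functions of `y`; `IsAnalytic`: closed analytic subsets of `A × ℙ^m`; `IsAnalyticIn`: of `A`.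
* `IsSemipositive`, `IsAmple`: `F` is a section of `L ⊠ O(d)`, `d > 0`, with `L` a semipositive (positive) line bundle on `A`.
* `IsHyperbolicOff`: the hypotheses on the divisors `{F j = 0}` off the fibres over `S`; `outside`: the complement of the divisors in `X`; `KobayashiPositive`: the Kobayashi–Royden metric is bounded below near the fibres over the complement of `S`.
-/

set_option autoImplicit false

open Topology Filter MvPolynomial
open Pool.Agent.H17 (PN VanishesAt HolomorphicInto)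
open Pool.Agent.PXF (Cn IsSimple IsCurveIn)

noncomputable section

namespace Pool.Agent.HEF

variable {k m q : ℕ}

/-- `F y` is a form of degree `d` in `x ∈ ℂ^(m+1)` whose coefficients are holomorphic functions of `y` in the set `U` (used for open sets). -/
structure IsHolomorphicForm (U : Set (Cn (k + 1))) (F : Cn (k + 1) → MvPolynomial (Fin (m + 1)) ℂ) (d : ℕ) : Prop where
  homogeneous : ∀ y ∈ U, (F y).IsHomogeneous d
  holomorphic : ∀ α, DifferentiableOn ℂ (fun y => (F y).coeff α) U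

/-- `X` is a closed analytic subset of `A × ℙ^m`: near each fibre it is the set of the common zeros of finitely many forms. -/
def IsAnalytic (Λ : AddSubgroup (Cn (k + 1))) (X : Set ((Cn (k + 1) ⧸ Λ) × PN m)) : Prop :=
  ∀ y₀ : Cn (k + 1), ∃ (ρ : ℝ) (s : ℕ) (G : Fin s → Cn (k + 1) → MvPolynomial (Fin (m + 1)) ℂ) (d : Fin s → ℕ), 0 < ρ ∧ (∀ i, IsHolomorphicForm (Metric.ball y₀ ρ) (G i) (d i)) ∧
    ∀ y ∈ Metric.ball y₀ ρ, ∀ p : PN m, ((y : Cn (k + 1) ⧸ Λ), p) ∈ X ↔ ∀ i, VanishesAt (G i y) p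

/-- `S` is a closed analytic subset of `A`. -/
def IsAnalyticIn (Λ : AddSubgroup (Cn (k + 1))) (S : Set (Cn (k + 1) ⧸ Λ)) : Prop :=
  ∀ y₀ : Cn (k + 1), ∃ (s : ℕ) (f : Fin s → Cn (k + 1) → ℂ), (∀ i, AnalyticAt ℂ (f i) y₀) ∧ ∀ᶠ y : Cn (k + 1) in 𝓝 y₀, ((y : Cn (k + 1) ⧸ Λ) ∈ S ↔ ∀ i, f i y = 0)

/-- `F` is a section of `L ⊠ O(d)`, `d > 0`, for a line bundle `L` on `A`: the functions `‖F y x‖ exp (- ∑ ‖W j y‖²)` are `Λ`-periodic. -/
structure IsSection (Λ : AddSubgroup (Cn (k + 1))) (F : Cn (k + 1) → MvPolynomial (Fin (m + 1)) ℂ) {r : ℕ} (W : Fin r → Cn (k + 1) →L[ℂ] ℂ) : Prop where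
  form : ∃ d, 0 < d ∧ IsHolomorphicForm Set.univ F d
  quasiPeriodic : ∀ l ∈ Λ, ∀ y, ∃ e : ℂ, ‖e‖ = Real.exp (∑ j, ‖W j (y + l)‖ ^ 2 - ∑ j, ‖W j y‖ ^ 2) ∧ F (y + l) = C e * F y

/-- The line bundle is semipositive. -/
def IsSemipositive (Λ : AddSubgroup (Cn (k + 1))) (F : Cn (k + 1) → MvPolynomial (Fin (m + 1)) ℂ) : Prop :=
  ∃ (r : ℕ) (W : Fin r → Cn (k + 1) →L[ℂ] ℂ), IsSection Λ F W

/-- The line bundle is positive. -/
def IsAmple (Λ : AddSubgroup (Cn (k + 1))) (F : Cn (k + 1) → MvPolynomial (Fin (m + 1)) ℂ) : Prop :=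
  ∃ (r : ℕ) (W : Fin r → Cn (k + 1) →L[ℂ] ℂ), (∀ y, (∀ j, W j y = 0) → y = 0) ∧ IsSection Λ F W

/-- `g` is an entire curve in `ℙ^m` with bounded derivative (homogeneous coordinates `φ`, Fubini–Study metric). -/
def IsBrodyCurve (g : ℂ → PN m) : Prop :=
  ∃ (φ : ℂ → Cn (m + 1)) (C : ℝ), Differentiable ℂ φ ∧ ∀ z, (∃ h : φ z ≠ 0, g z = Projectivization.mk ℂ (φ z) h) ∧ ∀ i j, ‖φ z i * deriv φ z j - φ z j * deriv φ z i‖ ≤ C * ∑ i, ‖φ z i‖ ^ 2

/-- Near the fibre over `y₀` the union of the zeros of the `F j` in `X` contains finitely many families of hypersurface sections `{Q i = 0}` of the fibres of `X`, such that all entire curves with bounded derivative in the fibre over `y₀`, contained in or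
disjoint from each `{Q i = 0}`, are constant. -/
def HasHyperbolicFibre (Λ : AddSubgroup (Cn (k + 1))) (X : Set ((Cn (k + 1) ⧸ Λ) × PN m)) (F : Fin q → Cn (k + 1) → MvPolynomial (Fin (m + 1)) ℂ) (y₀ : Cn (k + 1)) : Prop :=
  ∃ (ρ : ℝ) (s : ℕ) (Q : Fin s → Cn (k + 1) → MvPolynomial (Fin (m + 1)) ℂ) (e : Fin s → ℕ), 0 < ρ ∧ (∀ i, IsHolomorphicForm (Metric.ball y₀ ρ) (Q i) (e i)) ∧
    (∀ i, ∀ y ∈ Metric.ball y₀ ρ, ∀ p : PN m, ((y : Cn (k + 1) ⧸ Λ), p) ∈ X → VanishesAt (Q i y) p → ∃ j, VanishesAt (F j y) p) ∧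
    ∀ g : ℂ → PN m, IsBrodyCurve g → (∀ z, ((y₀ : Cn (k + 1) ⧸ Λ), g z) ∈ X) → (∀ i, (∀ z, VanishesAt (Q i y₀) (g z)) ∨ ∀ z, ¬ VanishesAt (Q i y₀) (g z)) → ∀ z w, g z = g w

/-- In the fibre over `y` the union of the zeros of the `F j` contains `2 κ + 1` hypersurface sections of degree `e` in general position: any `κ + 1` of them have no common point. -/
def HasHypersurfaces (Λ : AddSubgroup (Cn (k + 1))) (X : Set ((Cn (k + 1) ⧸ Λ) × PN m)) (F : Fin q → Cn (k + 1) → MvPolynomial (Fin (m + 1)) ℂ) (κ e : ℕ) (y : Cn (k + 1)) : Prop :=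
  ∃ Q : Fin (2 * κ + 1) → MvPolynomial (Fin (m + 1)) ℂ, (∀ s, (Q s).IsHomogeneous e) ∧ (∀ s, ∀ p : PN m, ((y : Cn (k + 1) ⧸ Λ), p) ∈ X → VanishesAt (Q s) p → ∃ j, VanishesAt (F j y) p) ∧
    ∀ I : Finset (Fin (2 * κ + 1)), I.card = κ + 1 → ∀ p : PN m, ((y : Cn (k + 1) ⧸ Λ), p) ∈ X → ∃ s ∈ I, ¬ VanishesAt (Q s) p

/-- `g` is a holomorphic section of `X` over the affine line `z ↦ y + z a`, outside the fibres over `S`, which is contained in or disjoint from the set of zeros of each `F j`. -/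
structure IsSectionOver (Λ : AddSubgroup (Cn (k + 1))) (X : Set ((Cn (k + 1) ⧸ Λ) × PN m)) (F : Fin q → Cn (k + 1) → MvPolynomial (Fin (m + 1)) ℂ) (S : Set (Cn (k + 1) ⧸ Λ)) (y a : Cn (k + 1)) (g : ℂ → PN m) :
    Prop where
  holomorphic : HolomorphicInto g {z | ((y + z • a : Cn (k + 1)) : Cn (k + 1) ⧸ Λ) ∉ S}
  mem : ∀ z : ℂ, ((y + z • a : Cn (k + 1)) : Cn (k + 1) ⧸ Λ) ∉ S → (((y + z • a : Cn (k + 1)) : Cn (k + 1) ⧸ Λ), g z) ∈ X
  inOrOff : ∀ j, (∀ z : ℂ, ((y + z • a : Cn (k + 1)) : Cn (k + 1) ⧸ Λ) ∉ S → VanishesAt (F j (y + z • a)) (g z)) ∨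
    ∀ z : ℂ, ((y + z • a : Cn (k + 1)) : Cn (k + 1) ⧸ Λ) ∉ S → ¬ VanishesAt (F j (y + z • a)) (g z)

/-- The hypotheses on the divisors `{F j = 0}` of `X`, hyperbolic outside the fibres over the closed analytic subset `S` of `A`, which contains no image of an affine line of `ℂ^n`. -/
structure IsHyperbolicOff (Λ : AddSubgroup (Cn (k + 1))) (X : Set ((Cn (k + 1) ⧸ Λ) × PN m)) (F : Fin q → Cn (k + 1) → MvPolynomial (Fin (m + 1)) ℂ) (S : Set (Cn (k + 1) ⧸ Λ)) : Prop where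
  analytic : IsAnalytic Λ X
  sections : ∀ j, IsSemipositive Λ (F j)
  special : IsAnalyticIn Λ S
  /-- no line: for example `A` is simple and `S ≠ A` -/
  noLines : (IsSimple Λ ∧ S ≠ Set.univ) ∨ ∀ a y : Cn (k + 1), a ≠ 0 → ∃ z : ℂ, ((y + z • a : Cn (k + 1)) : Cn (k + 1) ⧸ Λ) ∉ S
  /-- no section: for example the ample divisors have no common point outside the fibres over `S` -/
  noSections : ∀ (y a : Cn (k + 1)) (g : ℂ → PN m), a ≠ 0 → IsSectionOver Λ X F S y a g → ∃ j, IsAmple Λ (F j) ∧ ∃ z : ℂ, ((y + z • a : Cn (k + 1)) : Cn (k + 1) ⧸ Λ) ∉ S ∧ ¬ VanishesAt (F j (y + z • a)) (g z)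
  /-- for example the entire curves in the fibres over the complement of `S`, contained in or disjoint from each `{F j = 0}`, are constant (`Q = F`), or the `{Q i = 0}` are `2 κ + 1` hypersurface sections, any `κ + 1` of which have no common point -/
  fibres : ∀ y : Cn (k + 1), (y : Cn (k + 1) ⧸ Λ) ∉ S → HasHyperbolicFibre Λ X F y
  overSpecial : ∀ y₀ : Cn (k + 1), (y₀ : Cn (k + 1) ⧸ Λ) ∈ S → ∃ κ e, 0 < e ∧ ∀ᶠ y : Cn (k + 1) in 𝓝 y₀, (y : Cn (k + 1) ⧸ Λ) ∉ S → HasHypersurfaces Λ X F κ e y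

/-- The complement of the zeros of the `F j` in `X`. -/
def outside (Λ : AddSubgroup (Cn (k + 1))) (X : Set ((Cn (k + 1) ⧸ Λ) × PN m)) (F : Fin q → Cn (k + 1) → MvPolynomial (Fin (m + 1)) ℂ) : Set ((Cn (k + 1) ⧸ Λ) × PN m) :=
  {x | x ∈ X ∧ ∀ y : Cn (k + 1), (y : Cn (k + 1) ⧸ Λ) = x.1 → ∀ j, ¬ VanishesAt (F j y) x.2}

/-- The Kobayashi–Royden metric of the subset `T` of `A × ℙ^m` is bounded below near the nonempty fibres over the complement of `S` (the component in `ℙ^m`; homogeneous coordinates `φ`, Fubini–Study metric). -/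
def KobayashiPositive (Λ : AddSubgroup (Cn (k + 1))) (T : Set ((Cn (k + 1) ⧸ Λ) × PN m)) (S : Set (Cn (k + 1) ⧸ Λ)) : Prop :=
  ∀ y : Cn (k + 1), (y : Cn (k + 1) ⧸ Λ) ∉ S → (∃ p, ((y : Cn (k + 1) ⧸ Λ), p) ∈ T) → ∃ C : ℝ, ∀ᶠ y' : Cn (k + 1) in 𝓝 y, ∀ (t : ℂ → Cn (k + 1) ⧸ Λ) (g : ℂ → PN m) (φ : ℂ → Cn (m + 1)),
    IsCurveIn Λ T t g (Metric.ball 0 1) → t 0 = (y' : Cn (k + 1) ⧸ Λ) → AnalyticAt ℂ φ 0 → (∀ᶠ z in 𝓝 (0 : ℂ), ∃ h : φ z ≠ 0, g z = Projectivization.mk ℂ (φ z) h) →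
    ∀ i j, ‖φ 0 i * deriv φ 0 j - φ 0 j * deriv φ 0 i‖ ≤ C * ∑ i, ‖φ 0 i‖ ^ 2

end Pool.Agent.HEF
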