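import Pool.Agent.PX.RPow
import Mathlib.FieldTheory.IsAlgClosed.Basic
import Mathlib.RingTheory.Jacobson.Ring

/-!
# HE Fld: germs

`MF` is the ring of the functions which are meromorphic at `0`; `Fg 𝒰` its image in the field of the germs of all functions with respect to an ultrafilter `𝒰` on the punctured neighbourhoods of `0`; `pbF M`: the substitution
of `τ ^ M`.
-/

set_option autoImplicit false

open Topology Filter Metric

namespace Pool.Agent.HE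

/-- the ring of the functions which are meromorphic at `0` -/
noncomputable def MF : Subring (ℂ → ℂ) where
  carrier := {f | MeromorphicAt f 0}
  mul_mem' := fun ha hb => MeromorphicAt.mul ha hb
  one_mem' := MeromorphicAt.const (1 : ℂ) 0
  add_mem' := fun ha hb => MeromorphicAt.add ha hb
  zero_mem' := MeromorphicAt.const (0 : ℂ) 0
  neg_mem' := fun ha => MeromorphicAt.neg ha

variable (𝒰 𝒱 : Ultrafilter ℂ)

/-- the field of all germs -/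
abbrev Gm (𝒰 : Ultrafilter ℂ) : Type := Germ (𝒰 : Filter ℂ) ℂ

/-- the germ of a function -/
noncomputable def gr : (ℂ → ℂ) →+* Gm 𝒰 := Germ.coeRingHom (𝒰 : Filter ℂ)

theorem gr_surj : Function.Surjective (gr 𝒰) := fun x => Quot.exists_rep x

theorem gr_eq (f g : ℂ → ℂ) : gr 𝒰 f = gr 𝒰 g ↔ ∀ᶠ z in (𝒰 : Filter ℂ), f z = g z := Germ.coe_eq

/-- the germs of the meromorphic functions with respect to an ultrafilter -/
noncomputable def Fg : Subfield (Gm 𝒰) where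
  carrier := {x | ∃ f : ℂ → ℂ, MeromorphicAt f 0 ∧ (f : Germ (𝒰 : Filter ℂ) ℂ) = x}
  mul_mem' := by
    rintro _ _ ⟨f, hf, rfl⟩ ⟨g, hg, rfl⟩
    exact ⟨f * g, hf.mul hg, rfl⟩
  one_mem' := ⟨1, MeromorphicAt.const (1 : ℂ) 0, rfl⟩
  add_mem' := by
    rintro _ _ ⟨f, hf, rfl⟩ ⟨g, hg, rfl⟩
    exact ⟨f + g, hf.add hg, rfl⟩
  zero_mem' := ⟨0, MeromorphicAt.const (0 : ℂ) 0, rfl⟩
  neg_mem' := by
    rintro _ ⟨f, hf, rfl⟩
    exact ⟨-f, hf.neg, rfl⟩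
  inv_mem' := by
    rintro _ ⟨f, hf, rfl⟩
    exact ⟨f⁻¹, hf.inv, rfl⟩

/-- the germ of a function -/
noncomputable def φg : MF →+* Fg 𝒰 where
  toFun f := ⟨((f : ℂ → ℂ) : Germ (𝒰 : Filter ℂ) ℂ), (f : ℂ → ℂ), f.2, rfl⟩
  map_one' := rfl
  map_mul' _ _ := rfl
  map_zero' := rfl
  map_add' _ _ := rfl

theorem φg_surj : Function.Surjective (φg 𝒰) := by
  rintro ⟨_, f, hf, rfl⟩
  exact ⟨⟨f, hf⟩, rfl⟩

theorem φg_coe (f : MF) : ((φg 𝒰 f : Fg 𝒰) : Gm 𝒰) = ((f : ℂ → ℂ) : Germ (𝒰 : Filter ℂ) ℂ) := rfl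

/-- the value of a function -/
noncomputable def ev (z : ℂ) : MF →+* ℂ := (Pi.evalRingHom (fun _ : ℂ => ℂ) z).comp MF.subtype

theorem ev_apply (z : ℂ) (f : MF) : ev z f = (f : ℂ → ℂ) z := rfl

variable {𝒰 𝒱}

theorem φg_zero (h𝒰 : (𝒰 : Filter ℂ) ≤ 𝓝[≠] 0) {f : MF} (hf : φg 𝒰 f = 0) : ∀ᶠ z in 𝓝[≠] (0 : ℂ), ev z f = 0 := by
  have h1 : ∀ᶠ z in (𝒰 : Filter ℂ), (f : ℂ → ℂ) z = 0 := by
    have h2 : (((f : ℂ → ℂ) : Germ (𝒰 : Filter ℂ) ℂ)) = ((fun _ => (0 : ℂ)) : ℂ → ℂ) :=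
      congrArg Subtype.val hf
    exact Germ.coe_eq.1 h2
  rcases f.2.eventually_eq_zero_or_eventually_ne_zero with h3 | h3
  · exact h3
  · exfalso
    obtain ⟨z, hz1, hz2⟩ := (h1.and (h𝒰 h3)).exists
    exact hz2 hz1

theorem φg_of (h𝒰 : (𝒰 : Filter ℂ) ≤ 𝓝[≠] 0) {f : MF} (hf : ∀ᶠ z in 𝓝[≠] (0 : ℂ), ev z f = 0) : φg 𝒰 f = 0 := by
  refine Subtype.ext ?_
  exact Germ.coe_eq.2 (h𝒰 hf)

theorem Fg_charZero (h𝒰 : (𝒰 : Filter ℂ) ≤ 𝓝[≠] 0) : CharZero (Fg 𝒰) := by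
  refine charZero_of_inj_zero fun n hn => ?_
  have h1 : φg 𝒰 (n : MF) = 0 := by rw [map_natCast]; exact hn
  obtain ⟨z, hz⟩ := (φg_zero h𝒰 h1).exists
  rw [map_natCast] at hz
  exact_mod_cast hz

/-- the substitution `τ ^ M` -/
noncomputable def pb (M : ℕ) (hM : 0 < M) : MF →+* MF where
  toFun f := ⟨fun τ => (f : ℂ → ℂ) (τ ^ M), by
    have h1 : MeromorphicAt (f : ℂ → ℂ) ((0 : ℂ) ^ M) := by rw [zero_pow hM.ne']; exact f.2
    exact h1.comp_analyticAt (g := fun τ : ℂ => τ ^ M) (analyticAt_id.pow M)⟩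
  map_one' := rfl
  map_mul' _ _ := rfl
  map_zero' := rfl
  map_add' _ _ := rfl

theorem pb_ev {M : ℕ} (hM : 0 < M) (f : MF) (τ : ℂ) : ev τ (pb M hM f) = ev (τ ^ M) f := rfl

theorem tend_pow {M : ℕ} (hM : 0 < M) : Tendsto (fun τ : ℂ => τ ^ M) (𝓝[≠] 0) (𝓝[≠] 0) := by
  refine tendsto_nhdsWithin_iff.2 ⟨?_, ?_⟩
  · have h1 : Tendsto (fun τ : ℂ => τ ^ M) (𝓝 0) (𝓝 ((0 : ℂ) ^ M)) := (continuous_pow M).tendsto 0
    rw [zero_pow hM.ne'] at h1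
    exact h1.mono_left nhdsWithin_le_nhds
  · filter_upwards [self_mem_nhdsWithin] with τ hτ
    exact pow_ne_zero M hτ

theorem pb_ker (h𝒰 : (𝒰 : Filter ℂ) ≤ 𝓝[≠] 0) (h𝒱 : (𝒱 : Filter ℂ) ≤ 𝓝[≠] 0) {M : ℕ} (hM : 0 < M) : RingHom.ker (φg 𝒰) ≤ RingHom.ker ((φg 𝒱).comp (pb M hM)) := by
  intro f hf
  rw [RingHom.mem_ker] at hf ⊢
  rw [RingHom.comp_apply]
  exact φg_of h𝒱 ((tend_pow hM).eventually (φg_zero h𝒰 hf))

/-- the substitution `τ ^ M` on germs -/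
noncomputable def pbF (h𝒰 : (𝒰 : Filter ℂ) ≤ 𝓝[≠] 0) (h𝒱 : (𝒱 : Filter ℂ) ≤ 𝓝[≠] 0) {M : ℕ} (hM : 0 < M) : Fg 𝒰 →+* Fg 𝒱 :=
  (φg 𝒰).liftOfSurjective (φg_surj 𝒰) ⟨(φg 𝒱).comp (pb M hM), pb_ker h𝒰 h𝒱 hM⟩

theorem pbF_φg (h𝒰 : (𝒰 : Filter ℂ) ≤ 𝓝[≠] 0) (h𝒱 : (𝒱 : Filter ℂ) ≤ 𝓝[≠] 0) {M : ℕ} (hM : 0 < M) (f : MF) : pbF h𝒰 h𝒱 hM (φg 𝒰 f) = φg 𝒱 (pb M hM f) :=
  (φg 𝒰).liftOfSurjective_comp_apply (φg_surj 𝒰) ⟨(φg 𝒱).comp (pb M hM), pb_ker h𝒰 h𝒱 hM⟩ f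

/-- the field of germs is algebraically closed -/
theorem Gm_closed (𝒰 : Ultrafilter ℂ) : IsAlgClosed (Gm 𝒰) := by
  refine IsAlgClosed.of_exists_root (Gm 𝒰) fun p hp hirr => ?_
  have hdeg : 0 < p.natDegree := hirr.natDegree_pos
  have hrep : ∀ i, ∃ f : ℂ → ℂ, ((f : ℂ → ℂ) : Germ (𝒰 : Filter ℂ) ℂ) = p.coeff i := fun i => Quot.exists_rep (p.coeff i)
  choose f hf using hrep
  set n := p.natDegree with hn
  set P : ℂ → Polynomial ℂ := fun z => Polynomial.X ^ n + ∑ i ∈ Finset.range n, Polynomial.C (f i z) * Polynomial.X ^ i with hP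
  have hex : ∀ z, ∃ r : ℂ, (P z).eval r = 0 := by
    intro z
    have h1 : (∑ i ∈ Finset.range n, Polynomial.C (f i z) * Polynomial.X ^ i : Polynomial ℂ).degree < n := by
      rw [Finset.sum_range]
      exact Polynomial.degree_sum_fin_lt fun i => f i z
    have h2 : (P z).degree = n := by
      rw [hP]
      simp only
      rw [Polynomial.degree_add_eq_left_of_degree_lt, Polynomial.degree_X_pow]
      rw [Polynomial.degree_X_pow]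
      exact h1
    obtain ⟨r, hr⟩ := IsAlgClosed.exists_root (P z) (by rw [h2]; exact_mod_cast hdeg.ne')
    exact ⟨r, hr⟩
  choose r hr using hex
  refine ⟨gr 𝒰 r, ?_⟩
  have h3 : p.eval (gr 𝒰 r) = gr 𝒰 (fun z => (P z).eval (r z)) := by
    rw [hp.as_sum, Polynomial.eval_add, Polynomial.eval_pow, Polynomial.eval_X, Polynomial.eval_finsetSum]
    have h4 : ((fun z => (P z).eval (r z)) : ℂ → ℂ) = r ^ n + ∑ i ∈ Finset.range n, f i * r ^ i := by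
      funext z
      rw [hP]
      simp only
      rw [Polynomial.eval_add, Polynomial.eval_pow, Polynomial.eval_X, Polynomial.eval_finsetSum, Pi.add_apply, Pi.pow_apply, Finset.sum_apply]
      congr 1
      refine Finset.sum_congr rfl fun i _ => ?_
      rw [Polynomial.eval_mul, Polynomial.eval_C, Polynomial.eval_pow, Polynomial.eval_X, Pi.mul_apply, Pi.pow_apply]
    rw [h4, map_add, map_pow, map_sum]
    congr 1
    refine Finset.sum_congr rfl fun i _ => ?_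
    rw [Polynomial.eval_mul, Polynomial.eval_C, Polynomial.eval_pow, Polynomial.eval_X, map_mul, map_pow, ← hf i]
    rfl
  have h6 : ((fun z => (P z).eval (r z)) : ℂ → ℂ) = 0 := funext hr
  rw [h6, map_zero] at h3
  exact h3

end Pool.Agent.HE
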