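import Pool.Agent.H13.OT.Std
import Pool.Agent.H17EF.Up
import Pool.Agent.H13.LU.Quad
import Mathlib.Analysis.Polynomial.Basic

/-!
# HE Good: a point at which finitely many nonconstant quadratic polynomials have large real part; entire logarithms
-/

set_option autoImplicit false

open Topology Filter Metric

namespace Pool.Agent.HE

open Pool.Agent.H36.BP (EN fs wd)

variable {N : ℕ}

/-- entire logarithms -/
theorem entire_log {f : ℂ → ℂ} (hf : Differentiable ℂ f) (h0 : ∀ z, f z ≠ 0) : ∃ p : ℂ → ℂ, Differentiable ℂ p ∧ ∀ z, f z = Complex.exp (p z) := by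
  have hd : Differentiable ℂ fun z => deriv f z / f z := fun z => ((hf.deriv z)).div (hf z) (h0 z)
  obtain ⟨g, hg⟩ := hd.isExactOn_univ
  have hg' : ∀ z, HasDerivAt g (deriv f z / f z) z := fun z => hg z (Set.mem_univ z)
  have h1 : ∀ z, HasDerivAt (fun z => f z * Complex.exp (-g z)) 0 z := by
    intro z
    have h2 : HasDerivAt (fun z => f z * Complex.exp (-g z)) (deriv f z * Complex.exp (-g z) + f z * (Complex.exp (-g z) * -(deriv f z / f z))) z :=
      (hf z).hasDerivAt.mul (hg' z).neg.cexp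
    have h3 : deriv f z * Complex.exp (-g z) + f z * (Complex.exp (-g z) * -(deriv f z / f z)) = 0 := by
      have := h0 z
      field_simp
      ring
    rw [h3] at h2
    exact h2
  have h2 : ∀ z, f z * Complex.exp (-g z) = f 0 * Complex.exp (-g 0) := fun z =>
    is_const_of_deriv_eq_zero (fun z => (h1 z).differentiableAt) (fun z => (h1 z).deriv) z 0
  obtain ⟨b, hb⟩ : ∃ b : ℂ, f 0 * Complex.exp (-g 0) = Complex.exp b := by
    refine ⟨Complex.log (f 0 * Complex.exp (-g 0)), ?_⟩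
    rw [Complex.exp_log (mul_ne_zero (h0 0) (Complex.exp_ne_zero _))]
  refine ⟨fun z => b + g z, fun z => (hg' z).differentiableAt.const_add b, fun z => ?_⟩
  rw [Complex.exp_add, ← hb, ← h2 z, mul_assoc, ← Complex.exp_add]
  simp

/-- a point with large real parts -/
theorem exists_large {ι : Type*} [Finite ι] (a b c : ι → ℂ) (h : ∀ i, a i ≠ 0 ∨ b i ≠ 0) (M : ℝ) : ∃ z : ℂ, ∀ i, M < |(a i * z ^ 2 + b i * z + c i).re| := by
  classical
  -- the direction
  have hA : ∀ i, a i ≠ 0 → {ξ : ℝ | (a i * (1 + ξ * Complex.I) ^ 2).re = 0}.Finite := by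
    intro i hi
    have h1 : ∀ ξ : ℝ, (a i * (1 + ξ * Complex.I) ^ 2).re = (a i).re + -(2 * (a i).im) * ξ + -(a i).re * ξ ^ 2 := by
      intro ξ
      simp [pow_two, Complex.mul_re, Complex.mul_im, Complex.add_re, Complex.add_im]
      ring
    set p : Polynomial ℝ := Polynomial.C (a i).re + Polynomial.C (-(2 * (a i).im)) * Polynomial.X + Polynomial.C (-(a i).re) * Polynomial.X ^ 2 with hp
    have hp0 : p ≠ 0 := by
      intro h0
      apply hi
      have e0 : p.coeff 0 = (a i).re := by simp [hp]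
      have e1 : p.coeff 1 = -(2 * (a i).im) := by simp [hp, Polynomial.coeff_X_pow, Polynomial.coeff_C]
      rw [h0, Polynomial.coeff_zero] at e0 e1
      apply Complex.ext
      · simpa using e0.symm
      · simpa using e1
    refine (Polynomial.finite_setOfPred_isRoot hp0).subset fun ξ hξ => ?_
    simp only [Set.mem_ofPred_eq] at hξ ⊢
    rw [h1] at hξ
    rw [Polynomial.IsRoot.def, hp]
    simpa using hξ
  have hB : ∀ i, b i ≠ 0 → {ξ : ℝ | (b i * (1 + ξ * Complex.I)).re = 0}.Finite := by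
    intro i hi
    have h1 : ∀ ξ : ℝ, (b i * (1 + ξ * Complex.I)).re = (b i).re + -(b i).im * ξ := by
      intro ξ
      simp [Complex.mul_re, Complex.add_re, Complex.add_im]
      ring
    set p : Polynomial ℝ := Polynomial.C (b i).re + Polynomial.C (-(b i).im) * Polynomial.X with hp
    have hp0 : p ≠ 0 := by
      intro h0
      apply hi
      have e0 : p.coeff 0 = (b i).re := by simp [hp]
      have e1 : p.coeff 1 = -(b i).im := by simp [hp, Polynomial.coeff_C]
      rw [h0, Polynomial.coeff_zero] at e0 e1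
      apply Complex.ext
      · simpa using e0.symm
      · simpa using e1
    refine (Polynomial.finite_setOfPred_isRoot hp0).subset fun ξ hξ => ?_
    simp only [Set.mem_ofPred_eq] at hξ ⊢
    rw [h1] at hξ
    rw [Polynomial.IsRoot.def, hp]
    simpa using hξ
  have hfin : (⋃ i, ({ξ : ℝ | a i ≠ 0 ∧ (a i * (1 + ξ * Complex.I) ^ 2).re = 0} ∪ {ξ : ℝ | b i ≠ 0 ∧ (b i * (1 + ξ * Complex.I)).re = 0})).Finite := by
    refine Set.finite_iUnion fun i => Set.Finite.union ?_ ?_
    · by_cases hi : a i = 0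
      · refine Set.finite_empty.subset fun ξ hξ => absurd hi hξ.1
      · exact (hA i hi).subset fun ξ hξ => hξ.2
    · by_cases hi : b i = 0
      · refine Set.finite_empty.subset fun ξ hξ => absurd hi hξ.1
      · exact (hB i hi).subset fun ξ hξ => hξ.2
  obtain ⟨ξ, hξ⟩ := hfin.infinite_compl.nonempty
  simp only [Set.mem_compl_iff, Set.mem_iUnion, not_exists, Set.mem_union, Set.mem_ofPred_eq, not_or, not_and] at hξ
  -- large `t`
  have h2 : ∀ i, ∀ᶠ t : ℝ in atTop, M < |(a i * ((t : ℂ) * (1 + ξ * Complex.I)) ^ 2 + b i * ((t : ℂ) * (1 + ξ * Complex.I)) + c i).re| := by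
    intro i
    set A : ℝ := (a i * (1 + ξ * Complex.I) ^ 2).re with hAd
    set B : ℝ := (b i * (1 + ξ * Complex.I)).re with hBd
    have hAB : A ≠ 0 ∨ B ≠ 0 := by
      rcases h i with hi | hi
      · exact Or.inl ((hξ i).1 hi)
      · exact Or.inr ((hξ i).2 hi)
    set p : Polynomial ℝ := Polynomial.C A * Polynomial.X ^ 2 + Polynomial.C B * Polynomial.X + Polynomial.C (c i).re with hp
    have hdeg : 0 < p.degree := by
      by_contra hcon
      have h3 := Polynomial.eq_C_of_degree_le_zero (not_lt.1 hcon)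
      have e1 : p.coeff 1 = B := by simp [hp, Polynomial.coeff_X_pow, Polynomial.coeff_C]
      have e2 : p.coeff 2 = A := by simp [hp, Polynomial.coeff_X, Polynomial.coeff_C]
      rw [h3, Polynomial.coeff_C] at e1 e2
      simp only [OfNat.ofNat_ne_zero, ↓reduceIte, one_ne_zero] at e1 e2
      rcases hAB with h4 | h4
      · exact h4 e2.symm
      · exact h4 e1.symm
    have h4 := Polynomial.abs_tendsto_atTop p hdeg
    filter_upwards [h4.eventually_gt_atTop M] with t ht
    refine ht.trans_le (le_of_eq ?_)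
    congr 1
    rw [hp]
    simp only [Polynomial.eval_add, Polynomial.eval_mul, Polynomial.eval_C, Polynomial.eval_pow, Polynomial.eval_X]
    rw [hAd, hBd, Complex.add_re, Complex.add_re]
    have e1 : a i * ((t : ℂ) * (1 + ξ * Complex.I)) ^ 2 = ((t ^ 2 : ℝ) : ℂ) * (a i * (1 + ξ * Complex.I) ^ 2) := by
      push_cast
      ring
    have e2 : b i * ((t : ℂ) * (1 + ξ * Complex.I)) = (t : ℂ) * (b i * (1 + ξ * Complex.I)) := by ring
    rw [e1, e2, Complex.re_ofReal_mul, Complex.re_ofReal_mul]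
    ring
  obtain ⟨t, ht⟩ := (Filter.eventually_all.2 h2).exists
  exact ⟨_, ht⟩

/-- the characteristic of a curve of bounded derivative -/
theorem avg_of_fs {G : ℂ → EN N} (hG : Differentiable ℂ G) (h0 : ∀ z, G z ≠ 0) {L : ℝ} (hL : ∀ z, fs (G z) (deriv G z) ≤ L) :
    ∃ A : ℝ, 0 ≤ A ∧ ∀ r : ℝ, 0 < r → Real.circleAverage (fun z => Real.log ‖G z‖) 0 r ≤ A * (1 + r ^ 2) := by
  obtain ⟨C₀, hC₀⟩ := Pool.Agent.H17EF.ordTwo_of_fs hG h0 hL
  refine ⟨|Real.log ‖G 0‖| + 3 * |C₀|, by positivity, fun r hr => ?_⟩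
  obtain ⟨f, hf, hf1, hf0, hff⟩ := hC₀ (r + 1) (by linarith)
  have hf0' : f 0 ≠ 0 := by
    intro h
    rw [h, norm_zero] at hf0
    exact absurd hf0 (not_le.2 (Real.exp_pos _))
  have h1 := Pool.Agent.H13.OT.average_le (f := G) hr (lt_add_one r) hf hf1 hf0' hff hG.differentiableOn fun z _ => ⟨h0 z, ⟨1, one_ne_zero, by simp⟩⟩
  have h2 : -(C₀ * (1 + (r + 1) ^ 2)) ≤ Real.log ‖f 0‖ := by
    rw [Real.le_log_iff_exp_le (norm_pos_iff.2 hf0')]
    exact hf0
  have h3 : C₀ * (1 + (r + 1) ^ 2) ≤ 3 * |C₀| * (1 + r ^ 2) := by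
    have h4 : C₀ ≤ |C₀| := le_abs_self _
    have h5 : 0 ≤ |C₀| := abs_nonneg _
    have h6 : 1 + (r + 1) ^ 2 ≤ 3 * (1 + r ^ 2) := by nlinarith [sq_nonneg (r - 1)]
    calc C₀ * (1 + (r + 1) ^ 2) ≤ |C₀| * (1 + (r + 1) ^ 2) := mul_le_mul_of_nonneg_right h4 (by positivity)
      _ ≤ |C₀| * (3 * (1 + r ^ 2)) := mul_le_mul_of_nonneg_left h6 h5
      _ = _ := by ring
  have h7 : Real.log ‖G 0‖ ≤ |Real.log ‖G 0‖| * (1 + r ^ 2) := by
    have h8 : Real.log ‖G 0‖ ≤ |Real.log ‖G 0‖| := le_abs_self _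
    have h9 : 0 ≤ |Real.log ‖G 0‖| := abs_nonneg _
    nlinarith [sq_nonneg r]
  have h10 : (|Real.log ‖G 0‖| + 3 * |C₀|) * (1 + r ^ 2) = |Real.log ‖G 0‖| * (1 + r ^ 2) + 3 * |C₀| * (1 + r ^ 2) := by
    ring
  rw [h10]
  linarith

end Pool.Agent.HE
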