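import Pool.Agent.HE.Cvx

/-!
# HE Gro: moderate growth

`Md f`: `‖z‖ ^ K * ‖f z‖` is bounded near the puncture.  If the quotients `Q i (w) / Q j (w)` are meromorphic then the quotients of the coordinates of `w` are meromorphic (`TD.coord`): `(w k) ^ n = ∑ b k s (w) Q s (w)`, so the monomials of degree `e` in the `w k` divided
by `Q j (w)` have moderate growth.
-/

set_option autoImplicit false

open Topology Filter Metric MvPolynomial

namespace Pool.Agent.HE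

open Pool.Agent.H62.FC (MeroPunct PunctMero)

/-- moderate growth -/
def Md (f : ℂ → ℂ) : Prop := ∃ (K : ℕ) (C : ℝ), ∀ᶠ z in 𝓝[≠] (0 : ℂ), ‖z‖ ^ K * ‖f z‖ ≤ C

theorem ev_small {r : ℝ} (hr : 0 < r) : ∀ᶠ z in 𝓝[≠] (0 : ℂ), 0 < ‖z‖ ∧ ‖z‖ < r := pd_ev hr

theorem Md.of_mero {f : ℂ → ℂ} (hf : MeromorphicAt f 0) : Md f := by
  obtain ⟨n, h1⟩ := hf
  have h2 : ContinuousAt (fun z : ℂ => ‖(z - 0) ^ n • f z‖) 0 := h1.continuousAt.norm
  refine ⟨n, ‖((0 : ℂ) - 0) ^ n • f 0‖ + 1, ?_⟩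
  have h3 : ∀ᶠ z in 𝓝 (0 : ℂ), ‖(z - 0) ^ n • f z‖ < ‖((0 : ℂ) - 0) ^ n • f 0‖ + 1 := h2.eventually_lt_const (lt_add_one _)
  filter_upwards [nhdsWithin_le_nhds h3] with z hz
  rw [sub_zero, smul_eq_mul, norm_mul, norm_pow] at hz
  exact hz.le

theorem Md.congr {f g : ℂ → ℂ} (hf : Md f) (h : ∀ᶠ z in 𝓝[≠] (0 : ℂ), ‖g z‖ ≤ ‖f z‖) : Md g := by
  obtain ⟨K, C, h1⟩ := hf
  refine ⟨K, C, ?_⟩
  filter_upwards [h1, h] with z h2 h3
  exact (mul_le_mul_of_nonneg_left h3 (by positivity)).trans h2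

theorem Md.mul {f g : ℂ → ℂ} (hf : Md f) (hg : Md g) : Md fun z => f z * g z := by
  obtain ⟨K, C, h1⟩ := hf
  obtain ⟨K', C', h2⟩ := hg
  refine ⟨K + K', |C| * |C'|, ?_⟩
  filter_upwards [h1, h2] with z h3 h4
  rw [norm_mul, pow_add]
  calc ‖z‖ ^ K * ‖z‖ ^ K' * (‖f z‖ * ‖g z‖) = (‖z‖ ^ K * ‖f z‖) * (‖z‖ ^ K' * ‖g z‖) := by ring
    _ ≤ |C| * |C'| := mul_le_mul (h3.trans (le_abs_self _)) (h4.trans (le_abs_self _)) (by positivity) (abs_nonneg _)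

theorem Md.const (c : ℂ) : Md fun _ => c := Md.of_mero (MeromorphicAt.const c 0)

theorem Md.pow {f : ℂ → ℂ} (hf : Md f) (n : ℕ) : Md fun z => f z ^ n := by
  induction n with
  | zero => simpa using Md.const 1
  | succ n ih =>
    have h1 : (fun z => f z ^ (n + 1)) = fun z => f z ^ n * f z := funext fun z => pow_succ _ _
    rw [h1]
    exact ih.mul hf

theorem Md.add {f g : ℂ → ℂ} (hf : Md f) (hg : Md g) : Md fun z => f z + g z := by
  obtain ⟨K, C, h1⟩ := hf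
  obtain ⟨K', C', h2⟩ := hg
  refine ⟨K + K', |C| + |C'|, ?_⟩
  filter_upwards [h1, h2, ev_small one_pos] with z h3 h4 h5
  have h6 : ‖z‖ ^ K ≤ 1 := pow_le_one₀ (norm_nonneg _) h5.2.le
  have h7 : ‖z‖ ^ K' ≤ 1 := pow_le_one₀ (norm_nonneg _) h5.2.le
  calc ‖z‖ ^ (K + K') * ‖f z + g z‖ ≤ ‖z‖ ^ (K + K') * (‖f z‖ + ‖g z‖) := mul_le_mul_of_nonneg_left (norm_add_le _ _) (by positivity)
    _ = ‖z‖ ^ K' * (‖z‖ ^ K * ‖f z‖) + ‖z‖ ^ K * (‖z‖ ^ K' * ‖g z‖) := by rw [pow_add]; ring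
    _ ≤ 1 * (‖z‖ ^ K * ‖f z‖) + 1 * (‖z‖ ^ K' * ‖g z‖) := add_le_add (mul_le_mul_of_nonneg_right h7 (by positivity)) (mul_le_mul_of_nonneg_right h6 (by positivity))
    _ ≤ |C| + |C'| := by
        rw [one_mul, one_mul]
        exact add_le_add (h3.trans (le_abs_self _)) (h4.trans (le_abs_self _))

theorem Md.sum {ι : Type*} (S : Finset ι) {f : ι → ℂ → ℂ} (hf : ∀ i ∈ S, Md (f i)) : Md fun z => ∑ i ∈ S, f i z := by
  classical
  induction S using Finset.induction_on with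
  | empty => simpa using Md.const 0
  | insert a S ha ih =>
    have h1 : (fun z => ∑ i ∈ insert a S, f i z) = fun z => f a z + ∑ i ∈ S, f i z := funext fun z => Finset.sum_insert ha
    rw [h1]
    exact (hf a (Finset.mem_insert_self _ _)).add (ih fun i hi => hf i (Finset.mem_insert_of_mem hi))

theorem ev_ev {p : ℂ → Prop} (h : ∀ᶠ z in 𝓝[≠] (0 : ℂ), p z) : ∀ᶠ z in 𝓝[≠] (0 : ℂ), ∀ᶠ ζ in 𝓝 z, p ζ := by
  obtain ⟨R, hR, h1⟩ := pd_of_ev h
  filter_upwards [pd_ev hR] with z hz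
  filter_upwards [(pd_open R).mem_nhds hz] with ζ hζ using h1 ζ hζ

theorem Md.of_punct {f : ℂ → ℂ} (hf : PunctMero f) (hc : ∀ᶠ z in 𝓝[≠] (0 : ℂ), ContinuousAt f z) : Md f := by
  obtain ⟨v, hv, h1⟩ := hf
  refine (Md.of_mero hv).congr ?_
  filter_upwards [h1, hc, hv.eventually_analyticAt] with z h2 h3 h4
  have h5 : f z = v z := tendsto_nhds_unique_of_eventuallyEq (h3.tendsto.mono_left nhdsWithin_le_nhds) (h4.continuousAt.tendsto.mono_left nhdsWithin_le_nhds) h2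
  rw [h5]

theorem Md.punct {f : ℂ → ℂ} (hf : Md f) (hc : ∀ᶠ z in 𝓝[≠] (0 : ℂ), AnalyticAt ℂ f z) : PunctMero f := by
  obtain ⟨K, C, h1⟩ := hf
  obtain ⟨R, hR, h2⟩ := pd_of_ev (h1.and hc)
  obtain ⟨v, hv, h3⟩ := Pool.Agent.H92.GGL.meromorphicAt_of_bounded (u := fun z => z ^ K * f z) (M := C) hR (fun z h4 h5 => (analyticAt_id.pow K).mul (h2 z ⟨h4, h5⟩).2)
    (fun z h4 h5 => by
      rw [norm_mul, norm_pow]
      exact (h2 z ⟨h4, h5⟩).1)
  have h4 : MeromorphicAt (fun z : ℂ => (z ^ K)⁻¹ * v z) 0 := ((analyticAt_id.pow K).meromorphicAt.inv).mul hv.meromorphicAt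
  refine ⟨_, h4, ?_⟩
  filter_upwards [self_mem_nhdsWithin] with z h6
  have h7 : ∀ᶠ ζ in 𝓝[≠] z, ζ ≠ 0 := nhdsWithin_le_nhds (isOpen_ne.mem_nhds h6)
  filter_upwards [h7] with ζ h8
  rw [h3 ζ h8, ← mul_assoc, inv_mul_cancel₀ (pow_ne_zero K h8), one_mul]

theorem Md.norm {f : ℂ → ℂ} (hf : Md f) : Md fun z => ((‖f z‖ : ℝ) : ℂ) :=
  hf.congr (Filter.Eventually.of_forall fun z => by rw [Complex.norm_real, norm_norm])

variable {N m κ e : ℕ}

theorem va_bound (w : Fin (N + 1) → ℂ → ℂ) {P : MvPolynomial (Fin (N + 1)) MF} {d : ℕ} (hP : P.IsHomogeneous d) :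
    ∃ B : ℂ → ℂ, Md B ∧ ∀ z, ‖va w P z‖ ≤ ‖B z‖ * ‖fun i => w i z‖ ^ d := by
  classical
  refine ⟨fun z => ∑ α ∈ P.support, ((‖ev z (coeff α P)‖ : ℝ) : ℂ), Md.sum _ fun α _ => (Md.of_mero (coeff α P).2).norm, fun z => ?_⟩
  have h1 : va w P z = ∑ α ∈ P.support, ev z (coeff α P) * ∏ i, w i z ^ α i := by
    unfold va
    rw [eval_map, MvPolynomial.eval₂_eq']
  have h2 : ‖∑ α ∈ P.support, ((‖ev z (coeff α P)‖ : ℝ) : ℂ)‖ = ∑ α ∈ P.support, ‖ev z (coeff α P)‖ := by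
    rw [← Complex.ofReal_sum, Complex.norm_real, Real.norm_of_nonneg (Finset.sum_nonneg fun α _ => norm_nonneg _)]
  rw [h1, h2, Finset.sum_mul]
  refine (norm_sum_le _ _).trans (Finset.sum_le_sum fun α hα => ?_)
  rw [norm_mul, norm_prod]
  refine mul_le_mul_of_nonneg_left ?_ (norm_nonneg _)
  have h3 : α.degree = d := by
    have h4 := hP (mem_support_iff.1 hα)
    have h5 : Finsupp.weight (1 : Fin (N + 1) → ℕ) α = Finsupp.degree α := (congrFun (congrArg DFunLike.coe (Finsupp.degree_eq_weight_one (σ := Fin (N + 1)) (R := ℕ))) α).symm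
    rw [← h5, h4]
  rw [← h3, Finsupp.degree_eq_sum, ← Finset.prod_pow_eq_pow_sum]
  refine Finset.prod_le_prod (fun i _ => norm_nonneg _) fun i _ => ?_
  rw [norm_pow]
  exact pow_le_pow_left₀ (norm_nonneg _) (norm_le_pi_norm (fun i => w i z) i) _

/-- the coordinates are dominated by the pieces -/
theorem TD.dom {w : Fin (N + 1) → ℂ → ℂ} {Q : Fin m → MvPolynomial (Fin (N + 1)) MF} (T : TD κ e w Q) (hm : 2 * κ + 1 ≤ m) (j : Fin m) :
    ∃ E : ℂ → ℂ, Md E ∧ ∀ᶠ z in 𝓝[≠] (0 : ℂ), ‖fun i => w i z‖ ^ e ≤ ‖E z‖ * ‖va w (Q j) z‖ := by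
  classical
  obtain ⟨S, -, hS⟩ : ∃ S ⊆ (Finset.univ : Finset (Fin m)), S.card = κ + 1 := Finset.exists_subset_card_eq (by rw [Finset.card_univ, Fintype.card_fin]; omega)
  obtain ⟨n, hn0, hne, b, hb, hid⟩ := T.id S hS
  have hB : ∀ l s, ∃ B : ℂ → ℂ, Md B ∧ ∀ z, ‖va w (b l s) z‖ ≤ ‖B z‖ * ‖fun i => w i z‖ ^ (n - e) := fun l s => va_bound w (hb l s)
  choose B hBm hB using hB
  have hq : ∀ s, Md fun z => va w (Q s) z / va w (Q j) z := by
    intro s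
    refine Md.of_punct (T.quo hm s j) ?_
    filter_upwards [va_quo T.an (T.hom s) (T.hom j) (T.val j)] with z h1
    exact h1.continuousAt
  refine ⟨fun z => ∑ p ∈ (Finset.univ : Finset (Fin (N + 1))) ×ˢ S, ((‖B p.1 p.2 z * (va w (Q p.2) z / va w (Q j) z)‖ : ℝ) : ℂ), Md.sum _ fun p _ => ((hBm p.1 p.2).mul (hq p.2)).norm, ?_⟩
  filter_upwards [Filter.eventually_all.2 hid, T.ne, T.val j] with z h1 h2 h3
  obtain ⟨W, hW⟩ : ∃ W, W = ‖fun i => w i z‖ := ⟨_, rfl⟩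
  have hW0 : 0 < W := by
    obtain ⟨i, hi⟩ := h2
    rw [hW]
    exact (norm_pos_iff.2 hi).trans_le (norm_le_pi_norm (fun i => w i z) i)
  obtain ⟨l, hl⟩ : ∃ l, W ≤ ‖w l z‖ := by
    obtain ⟨l, hl⟩ := Finite.exists_max fun i => ‖w i z‖
    exact ⟨l, by rw [hW]; exact (pi_norm_le_iff_of_nonneg (norm_nonneg _)).2 hl⟩
  have h4 : W ^ n ≤ ∑ s ∈ S, ‖B l s z‖ * W ^ (n - e) * ‖va w (Q s) z‖ := by
    calc W ^ n ≤ ‖w l z‖ ^ n := pow_le_pow_left₀ hW0.le hl _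
      _ = ‖∑ s ∈ S, va w (b l s) z * va w (Q s) z‖ := by rw [← norm_pow, h1 l]
      _ ≤ ∑ s ∈ S, ‖va w (b l s) z * va w (Q s) z‖ := norm_sum_le _ _
      _ ≤ _ := by
          refine Finset.sum_le_sum fun s _ => ?_
          rw [norm_mul]
          refine mul_le_mul_of_nonneg_right ?_ (norm_nonneg _)
          rw [hW]
          exact hB l s z
  have h5 : W ^ n = W ^ e * W ^ (n - e) := by rw [← pow_add]; congr 1; omega
  have h6 : W ^ e ≤ ∑ s ∈ S, ‖B l s z‖ * ‖va w (Q s) z‖ := by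
    have h7 : ∑ s ∈ S, ‖B l s z‖ * W ^ (n - e) * ‖va w (Q s) z‖ = (∑ s ∈ S, ‖B l s z‖ * ‖va w (Q s) z‖) * W ^ (n - e) := by
      rw [Finset.sum_mul]
      exact Finset.sum_congr rfl fun s _ => by ring
    rw [h5, h7] at h4
    exact le_of_mul_le_mul_right h4 (by positivity)
  rw [← hW]
  refine h6.trans ?_
  have h8 : ‖∑ p ∈ (Finset.univ : Finset (Fin (N + 1))) ×ˢ S, ((‖B p.1 p.2 z * (va w (Q p.2) z / va w (Q j) z)‖ : ℝ) : ℂ)‖ = ∑ p ∈ (Finset.univ : Finset (Fin (N + 1))) ×ˢ S, ‖B p.1 p.2 z * (va w (Q p.2) z / va w (Q j) z)‖ := by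
    rw [← Complex.ofReal_sum, Complex.norm_real, Real.norm_of_nonneg (Finset.sum_nonneg fun α _ => norm_nonneg _)]
  rw [h8, Finset.sum_product]
  have h9 : ∑ s ∈ S, ‖B l s z‖ * ‖va w (Q s) z‖ = (∑ s ∈ S, ‖B l s z * (va w (Q s) z / va w (Q j) z)‖) * ‖va w (Q j) z‖ := by
    rw [Finset.sum_mul]
    refine Finset.sum_congr rfl fun s _ => ?_
    rw [norm_mul, norm_div]
    have h10 : ‖va w (Q j) z‖ ≠ 0 := norm_ne_zero_iff.2 h3
    field_simp
  rw [h9]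
  refine mul_le_mul_of_nonneg_right ?_ (norm_nonneg _)
  exact Finset.single_le_sum (f := fun l => ∑ s ∈ S, ‖B l s z * (va w (Q s) z / va w (Q j) z)‖) (fun i _ => Finset.sum_nonneg fun s _ => norm_nonneg _) (Finset.mem_univ l)

/-- **The quotients of the coordinates are meromorphic.** -/
theorem TD.coord {w : Fin (N + 1) → ℂ → ℂ} {Q : Fin m → MvPolynomial (Fin (N + 1)) MF} (T : TD κ e w Q) (hm : 2 * κ + 1 ≤ m) :
    ∃ l, (∀ᶠ z in 𝓝[≠] (0 : ℂ), w l z ≠ 0) ∧ ∀ k, Md fun z => w k z / w l z := by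
  classical
  obtain ⟨j, -⟩ : ∃ j : Fin m, True := ⟨⟨0, by omega⟩, trivial⟩
  obtain ⟨E, hE, hdom⟩ := T.dom hm j
  obtain ⟨A, hA⟩ : ∃ A : Fin (N + 1) → Fin (N + 1) → ℂ → ℂ, A = fun k l z => w l z ^ (e - 1) * w k z / va w (Q j) z := ⟨_, rfl⟩
  have hAan : ∀ k l, ∀ᶠ z in 𝓝[≠] (0 : ℂ), AnalyticAt ℂ (A k l) z := by
    intro k l
    have h0 : (X l ^ (e - 1) * X k : MvPolynomial (Fin (N + 1)) MF).IsHomogeneous e := by
      have h1 := (isHomogeneous_X_pow (R := MF) l (e - 1)).mul (isHomogeneous_X MF k)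
      rwa [Nat.sub_add_cancel T.pos] at h1
    filter_upwards [va_quo T.an h0 (T.hom j) (T.val j)] with z h1
    have h2 : A k l = fun z => va w (X l ^ (e - 1) * X k) z / va w (Q j) z := by
      funext ζ
      rw [hA]
      unfold va
      simp only [map_mul, map_pow, map_X, eval_X]
    rw [h2]
    exact h1
  have hAmd : ∀ k l, Md (A k l) := by
    intro k l
    refine hE.congr ?_
    filter_upwards [hdom, T.val j] with z h1 h2
    have h3 : 0 < ‖va w (Q j) z‖ := norm_pos_iff.2 h2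
    rw [hA]
    simp only
    rw [norm_div, norm_mul, norm_pow, div_le_iff₀ h3]
    refine le_trans ?_ h1
    have h4 : ‖fun i => w i z‖ ^ e = ‖fun i => w i z‖ ^ (e - 1) * ‖fun i => w i z‖ := by
      rw [← pow_succ]
      congr 1
      have := T.pos
      omega
    rw [h4]
    exact mul_le_mul (pow_le_pow_left₀ (norm_nonneg _) (norm_le_pi_norm (fun i => w i z) l) _) (norm_le_pi_norm (fun i => w i z) k) (norm_nonneg _) (by positivity)
  have hAp : ∀ k l, PunctMero (A k l) := fun k l => (hAmd k l).punct (hAan k l)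
  have hAll : ∀ l, ∀ᶠ z in 𝓝[≠] (0 : ℂ), (A l l z = w l z ^ e / va w (Q j) z) := by
    intro l
    refine Filter.Eventually.of_forall fun z => ?_
    rw [hA]
    simp only
    rw [← pow_succ]
    congr 2
    have := T.pos
    omega
  -- dichotomy
  have hdich : ∀ l, (∀ᶠ z in 𝓝[≠] (0 : ℂ), w l z = 0) ∨ ∀ᶠ z in 𝓝[≠] (0 : ℂ), w l z ≠ 0 := by
    intro l
    obtain ⟨v, hv, h1⟩ := hAp l l
    have h2 : ∀ᶠ z in 𝓝[≠] (0 : ℂ), A l l z = v z := by
      filter_upwards [h1, hAan l l, hv.eventually_analyticAt] with z h2 h3 h4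
      exact tendsto_nhds_unique_of_eventuallyEq (h3.continuousAt.tendsto.mono_left nhdsWithin_le_nhds) (h4.continuousAt.tendsto.mono_left nhdsWithin_le_nhds) h2
    rcases hv.eventually_eq_zero_or_eventually_ne_zero with h3 | h3
    · left
      filter_upwards [h2, h3, hAll l, T.val j] with z h4 h5 h6 h7
      rw [h4, h5] at h6
      have h8 := h6.symm
      rw [div_eq_zero_iff] at h8
      exact (pow_eq_zero_iff T.pos.ne').1 (h8.resolve_right h7)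
    · right
      filter_upwards [h2, h3, hAll l] with z h4 h5 h6 h7
      rw [h7, zero_pow T.pos.ne', zero_div, h4] at h6
      exact h5 h6
  obtain ⟨l, hl⟩ : ∃ l, ∀ᶠ z in 𝓝[≠] (0 : ℂ), w l z ≠ 0 := by
    by_contra hcon
    push Not at hcon
    have h1 : ∀ l, ∀ᶠ z in 𝓝[≠] (0 : ℂ), w l z = 0 := fun l => (hdich l).resolve_right (hcon l)
    obtain ⟨z, h2, i, h3⟩ := ((Filter.eventually_all.2 h1).and T.ne).exists
    exact h3 (h2 i)
  refine ⟨l, hl, fun k => ?_⟩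
  have h1 : PunctMero fun z => A k l z * (A l l z)⁻¹ := (hAp k l).mul (hAp l l).inv
  have h2 : Md fun z => A k l z * (A l l z)⁻¹ := by
    refine Md.of_punct h1 ?_
    filter_upwards [hAan k l, hAan l l, hAll l, hl, T.val j] with z h3 h4 h5 h6 h7
    refine h3.continuousAt.mul (h4.continuousAt.inv₀ ?_)
    rw [h5]
    exact div_ne_zero (pow_ne_zero _ h6) h7
  refine h2.congr ?_
  filter_upwards [hAll l, hl, T.val j] with z h5 h6 h7
  refine le_of_eq ?_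
  congr 1
  rw [h5, hA]
  simp only
  have h8 : w l z ^ e = w l z ^ (e - 1) * w l z := by
    rw [← pow_succ]
    congr 1
    have := T.pos
    omega
  rw [h8]
  have h9 : w l z ^ (e - 1) ≠ 0 := pow_ne_zero _ h6
  field_simp

/-- moderate growth and the substitution `τ ^ M` -/
theorem Md.of_pow {f : ℂ → ℂ} {M : ℕ} (hM : 0 < M) (hf : Md fun τ => f (τ ^ M)) : Md f := by
  obtain ⟨K, C, h1⟩ := hf
  refine ⟨K, C, ?_⟩
  obtain ⟨R, hR, h2⟩ := pd_of_ev h1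
  have hr : 0 < (min R 1) ^ M := by positivity
  filter_upwards [ev_small hr] with z hz
  obtain ⟨τ, hτ⟩ := IsAlgClosed.exists_pow_nat_eq z hM
  have h3 : ‖τ‖ ^ M = ‖z‖ := by rw [← norm_pow, hτ]
  have h4 : ‖τ‖ < min R 1 := by
    rw [← h3] at hz
    exact lt_of_pow_lt_pow_left₀ M (by positivity) hz.2
  have h5 : 0 < ‖τ‖ := by
    rcases eq_or_lt_of_le (norm_nonneg τ) with h6 | h6
    · rw [← h3, ← h6, zero_pow hM.ne'] at hz
      exact absurd hz.1 (lt_irrefl _)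
    · exact h6
  have h6 := h2 τ ⟨h5, h4.trans_le (min_le_left _ _)⟩
  simp only [hτ] at h6
  refine le_trans ?_ h6
  refine mul_le_mul_of_nonneg_right ?_ (norm_nonneg _)
  refine pow_le_pow_left₀ (norm_nonneg _) ?_ K
  rw [← h3]
  exact pow_le_of_le_one h5.le (h4.le.trans (min_le_right _ _)) hM.ne'

end Pool.Agent.HE
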