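import Pool.Agent.HE.Lip
import Pool.Agent.H62.EF.PrLip
import Pool.Agent.H62.Log.Hurwitz

/-!
# HE Lim: limits of curves on lines

Adapted from `PX/Lim`.
-/

set_option autoImplicit false

open Topology Filter Metric

namespace Pool.Agent.HE

open Pool.Agent.H36.BP (EN fs wd)
open Pool.Agent.H62.EF (MN pr)
open Pool.Agent.AD (Vd)
open Pool.Agent.TG (Lat Gd)
open Pool.Agent.G3 (wt TT LLift)

variable {N k q r : ℕ} {Λ : AddSubgroup (Vd (k + 1))} {D : Set (Vd (k + 1))} {X : Set (Vd (k + 1) × EN N)} {F : Fin q → Vd (k + 1) × EN N → ℂ} {d : Fin q → ℕ}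
  {W : Fin q → Fin r → Vd (k + 1) →L[ℂ] ℂ}

/-- a point outside of the closed set `D` has positive distance from `D` -/
private theorem Lim_gd {D : Set (Vd (k + 1))} (hD : IsClosed D) {y : Vd (k + 1)} (hy : y ∉ D) : ∃ δ : ℝ, 0 < δ ∧ y ∈ Gd D δ := by
  have h1 : Dᶜ ∈ 𝓝 y := hD.isOpen_compl.mem_nhds hy
  obtain ⟨δ, hδ, h⟩ := Metric.mem_nhds_iff.mp h1
  refine ⟨δ, hδ, fun b hb => ?_⟩
  by_contra hlt
  push Not at hlt
  have hb' : b ∈ ball y δ := by
    rw [mem_ball, dist_comm, dist_eq_norm]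
    exact hlt
  exact h hb' hb

/-- Cauchy's estimate for the derivatives -/
private theorem Lim_deriv {g : ℂ → Vd (k + 1)} {y a : Vd (k + 1)} {r ε : ℝ} {V : Set ℂ} (hV : IsOpen V) (hr : closedBall (0 : ℂ) (r + 1) ⊆ V)
    (hg : DifferentiableOn ℂ g V) (hε : ∀ z ∈ closedBall (0 : ℂ) (r + 1), ‖g z - (y + z • a)‖ < ε) {z : ℂ} (hz : z ∈ closedBall (0 : ℂ) r) :
    ‖deriv g z‖ ≤ ε + ‖a‖ := by
  have hH : Differentiable ℂ fun z : ℂ => y + z • a := by fun_prop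
  have hsub : closedBall z 1 ⊆ closedBall (0 : ℂ) (r + 1) := by
    refine closedBall_subset_closedBall' ?_
    have := mem_closedBall.mp hz
    linarith
  have hgd : DifferentiableOn ℂ g (closedBall z 1) := hg.mono (hsub.trans hr)
  have hd : DiffContOnCl ℂ (fun w => g w - (y + w • a)) (ball z 1) := by
    have h1 : DifferentiableOn ℂ (fun w => g w - (y + w • a)) (closedBall z 1) := hgd.sub hH.differentiableOn
    have h2 : DifferentiableOn ℂ (fun w => g w - (y + w • a)) (closure (ball z 1)) := h1.mono closure_ball_subset_closedBall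
    exact h2.diffContOnCl
  have h1 := Complex.norm_deriv_le_of_forall_mem_sphere_norm_le (c := z) one_pos hd (C := ε) fun w hw =>
    (hε w (hsub (sphere_subset_closedBall hw))).le
  have hgz : DifferentiableAt ℂ g z := hg.differentiableAt (hV.mem_nhds (hr (hsub (mem_closedBall_self zero_le_one))))
  have hHz : deriv (fun z : ℂ => y + z • a) z = a := by
    have h2 : HasDerivAt (fun z : ℂ => y + z • a) ((1 : ℂ) • a) z := ((hasDerivAt_id z).smul_const a).const_add y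
    rw [h2.deriv, one_smul]
  rw [deriv_fun_sub hgz (hH z), div_one, hHz] at h1
  have h3 := norm_add_le (deriv g z - a) a
  rw [sub_add_cancel] at h3
  linarith

private theorem Lim_countable (P : HD Λ D X F d W) {a : Vd (k + 1)} (ha : a ≠ 0) (y : Vd (k + 1)) : {z : ℂ | y + z • a ∈ D}.Countable := by
  have h : ∀ z ∈ {z : ℂ | y + z • a ∈ D}, ∀ᶠ w in 𝓝[≠] z, w ∉ {z : ℂ | y + z • a ∈ D} := by
    intro z _
    have h1 := P.iso a ha (y + z • a)
    rw [eventually_nhdsWithin_iff, Metric.eventually_nhds_iff] at h1 ⊢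
    obtain ⟨ε, hε, h1⟩ := h1
    refine ⟨ε, hε, fun w hw hwz => ?_⟩
    have h2 : w - z ∈ ({0}ᶜ : Set ℂ) := fun h3 => hwz (sub_eq_zero.1 h3)
    have h3 := @h1 (w - z) (by rwa [dist_zero_right, ← dist_eq_norm]) h2
    intro h4
    refine h3 ?_
    have h5 : y + z • a + (w - z) • a = y + w • a := by rw [sub_smul]; abel
    rw [h5]
    exact h4
  have hd : DiscreteTopology {z : ℂ | y + z • a ∈ D} := by
    rw [discreteTopology_subtype_iff]
    intro z hz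
    rw [Filter.inf_principal_eq_bot]
    exact h z hz
  rw [← Set.countable_coe_iff]
  exact countable_of_Lindelof_of_discrete

private theorem Lim_tend {f₀ : Vd (k + 1) × EN N → ℂ} (hF : Continuous f₀) {l : Filter ℕ} {f : ℕ → Vd (k + 1)} {g : ℕ → EN N}
    {p : Vd (k + 1)} {q : EN N} (hf : Tendsto f l (𝓝 p)) (hg : Tendsto g l (𝓝 q)) : Tendsto (fun n => f₀ (f n, g n)) l (𝓝 (f₀ (p, q))) := by
  have h1 : Tendsto (fun n => (f n, g n)) l (𝓝 (p, q)) := hf.prodMk_nhds hg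
  have h2 := (hF.tendsto (p, q)).comp h1
  exact h2

private theorem Lim_dich {U : Set ℂ} (hU : IsPreconnected U) {p : ℂ → Prop}
    (h : ∀ z₀ ∈ U, ∃ r : ℝ, 0 < r ∧ ((∀ z ∈ ball z₀ r, p z) ∨ ∀ z ∈ ball z₀ r, ¬ p z)) {z₀ : ℂ} (hz₀ : z₀ ∈ U) (hp₀ : p z₀) : ∀ z ∈ U, p z := by
  set V : Set ℂ := {z | ∀ᶠ w in 𝓝 z, p w} with hV
  have hVo : IsOpen V := by
    rw [isOpen_iff_mem_nhds]
    intro z hz
    exact hz.eventually_nhds
  have hpV : ∀ z ∈ U, p z → z ∈ V := by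
    intro z hz hp
    obtain ⟨r, hr, h1 | h1⟩ := h z hz
    · exact Filter.eventually_of_mem (isOpen_ball.mem_nhds (mem_ball_self hr)) h1
    · exact absurd hp (h1 z (mem_ball_self hr))
  have hsub : U ⊆ V := by
    refine hU.subset_of_closure_inter_subset hVo ⟨z₀, hz₀, hpV z₀ hz₀ hp₀⟩ ?_
    rintro z ⟨hzc, hz⟩
    obtain ⟨r, hr, h1 | h1⟩ := h z hz
    · exact hpV z hz (h1 z (mem_ball_self hr))
    · obtain ⟨w, hw1, hw2⟩ := _root_.mem_closure_iff.1 hzc (ball z r) isOpen_ball (mem_ball_self hr)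
      exact absurd hw2.self_of_nhds (h1 w hw1)
  exact fun z hz => (hsub hz : z ∈ V).self_of_nhds

theorem HD.exists_ls (P : HD Λ D X F d W) {y a : Vd (k + 1)} (ha : a ≠ 0) (𝒰 : Ultrafilter ℕ) {w : ℕ → ℂ → EN N} {h : ℕ → ℂ → Vd (k + 1)}
    (hcv : ∀ R : ℝ, ∀ᶠ n in (𝒰 : Filter ℕ), Cw X F (ball 0 R) (w n) (h n))
    (hh : ∀ R ε : ℝ, 0 < ε → ∀ᶠ n in (𝒰 : Filter ℕ), ∀ z ∈ closedBall (0 : ℂ) R, ‖h n z - (y + z • a)‖ < ε) : ∃ g : ℂ → MN N, LS X F D y a 𝒰 w h g := by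
  classical
  have hHc : Continuous fun z : ℂ => y + z • a := by fun_prop
  have hUo : IsOpen {z : ℂ | y + z • a ∉ D} := P.D_closed.isOpen_compl.preimage hHc
  -- curves on large discs
  have hcurve : ∀ r : ℝ, ∀ᶠ n in (𝒰 : Filter ℕ), Cw X F (ball 0 (r + 1)) (w n) (h n) ∧ closedBall (0 : ℂ) r ⊆ ball 0 (r + 1) := by
    intro r
    filter_upwards [hcv (r + 1)] with n h1
    exact ⟨h1, closedBall_subset_ball (by linarith)⟩
  -- derivatives
  have hbound : ∀ r : ℝ, ∀ᶠ n in (𝒰 : Filter ℕ), ∀ z ∈ closedBall (0 : ℂ) r, ‖deriv (h n) z‖ ≤ 1 + ‖a‖ := by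
    intro r
    filter_upwards [hcurve (r + 1), hh (r + 1) 1 one_pos] with n h1 h2 z hz
    exact Lim_deriv isOpen_ball h1.2 h1.1.h_diff h2 hz
  -- points off `D`
  have hoff : ∀ z : ℂ, y + z • a ∉ D → ∃ δ s : ℝ, 0 < δ ∧ 0 < s ∧ ∀ᶠ n in (𝒰 : Filter ℕ), ∀ v ∈ ball z s, h n v ∈ Gd D δ := by
    intro z hz
    obtain ⟨δ, hδ, hδm⟩ := Lim_gd P.D_closed hz
    obtain ⟨s, hs, hsb⟩ := Metric.continuousAt_iff.mp (hHc.continuousAt (x := z)) (δ / 4) (by positivity)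
    refine ⟨δ / 2, s, by positivity, hs, ?_⟩
    filter_upwards [hh (‖z‖ + s) (δ / 4) (by positivity)] with n hn v hv
    have hv1 : dist v z < s := mem_ball.mp hv
    have hv0 : v ∈ closedBall (0 : ℂ) (‖z‖ + s) := by
      rw [mem_closedBall, dist_zero_right]
      have := norm_le_norm_add_norm_sub' v z
      rw [← dist_eq_norm] at this
      linarith
    have h1 := hn v hv0
    have h2 : ‖(y + v • a) - (y + z • a)‖ < δ / 4 := by
      rw [← dist_eq_norm]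
      exact hsb hv1
    have h3 : ‖h n v - (y + z • a)‖ ≤ δ / 2 := by
      have h4 := norm_sub_le_norm_sub_add_norm_sub (h n v) (y + v • a) (y + z • a)
      linarith
    have h5 := Pool.Agent.TG.gd_near hδm h3
    have h6 : δ - δ / 2 = δ / 2 := by ring
    rwa [h6] at h5
  -- equicontinuity
  have heq : ∀ z : ℂ, y + z • a ∉ D → ∃ L s : ℝ, 0 < L ∧ 0 < s ∧ ∀ᶠ n in (𝒰 : Filter ℕ), DifferentiableOn ℂ (w n) (ball z s) ∧
      (∀ v ∈ ball z s, w n v ≠ 0) ∧ ∀ v ∈ ball z s, dist (pr (w n v)) (pr (w n z)) ≤ L * ‖v - z‖ := by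
    intro z hz
    obtain ⟨δ, s, hδ, hs, hev⟩ := hoff z hz
    obtain ⟨L, hL, hLip⟩ := P.lip (H := 1 + ‖a‖) hδ (by positivity) one_pos
    refine ⟨2 * L, s, by positivity, hs, ?_⟩
    filter_upwards [hev, hbound (‖z‖ + s + 1), hcurve (‖z‖ + s + 1)] with n h1 h2 h3
    have hsub : ∀ v ∈ ball z s, ball v 1 ⊆ closedBall (0 : ℂ) (‖z‖ + s + 1) := by
      intro v hv x hx
      rw [mem_closedBall, dist_zero_right]
      have hv1 : dist v z < s := mem_ball.mp hv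
      have hx1 : dist x v < 1 := mem_ball.mp hx
      have h4 : ‖x‖ ≤ dist x v + dist v z + ‖z‖ := by
        have h5 := dist_triangle4 x v z 0
        rwa [dist_zero_right, dist_zero_right] at h5
      linarith
    have hballs : ball z s ⊆ ball (0 : ℂ) (‖z‖ + s + 1 + 1) := fun v hv => h3.2 (hsub v hv (mem_ball_self one_pos))
    have hne : ∀ v ∈ ball z s, w n v ≠ 0 := fun v hv => h3.1.w_ne _ (hballs hv)
    refine ⟨h3.1.w_diff.mono hballs, hne, fun v hv => ?_⟩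
    refine Pool.Agent.H62.EF.pr_lipschitz isOpen_ball (convex_ball z s) (h3.1.w_diff.mono hballs) hne (L := L) (fun x hx => ?_) v hv z (mem_ball_self hs)
    exact hLip (w n) (h n) x (h3.1.mono ((hsub x hx).trans h3.2)) (fun q hq => h2 q (hsub x hx hq)) (h1 x hx)
  -- the limit
  obtain ⟨g, hgl, hgc⟩ := Pool.Agent.G3.ult 𝒰 hUo w (fun z hz => by
      obtain ⟨L, s, -, hs, hev⟩ := heq z hz
      exact ⟨s, hs, hev.mono fun n hn => ⟨hn.1, hn.2.1⟩⟩) (fun z hz ε hε => by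
      obtain ⟨L, s, hL, hs, hev⟩ := heq z hz
      refine ⟨min s (ε / L), lt_min hs (by positivity), hev.mono fun n hn v hv => ?_⟩
      have hv1 : dist v z < min s (ε / L) := mem_ball.mp hv
      refine (hn.2.2 v (mem_ball.mpr (lt_of_lt_of_le hv1 (min_le_left _ _)))).trans ?_
      have hv2 : ‖v - z‖ ≤ ε / L := by
        rw [← dist_eq_norm]
        exact (lt_of_lt_of_le hv1 (min_le_right _ _)).le
      calc L * ‖v - z‖ ≤ L * (ε / L) := mul_le_mul_of_nonneg_left hv2 hL.le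
        _ = ε := by field_simp)
  exact ⟨g, hcv, hh, fun z hz => hgl z hz, fun K hK hKD ε hε => hgc K (fun z hz => hKD z hz) hK ε hε⟩

theorem HD.ls_zr (P : HD Λ D X F d W) (j : Fin q) {y a : Vd (k + 1)} (ha : a ≠ 0) {𝒰 : Ultrafilter ℕ} {w : ℕ → ℂ → EN N} {h : ℕ → ℂ → Vd (k + 1)} {g : ℂ → MN N}
    (S : LS X F D y a 𝒰 w h g) {z₀ : ℂ} (hz₀ : y + z₀ • a ∉ D) {x : EN N} (hx : x ≠ 0) (hxg : pr x = g z₀) (h0 : F j (y + z₀ • a, x) = 0) : Zr (F j) D y a g := by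
  classical
  have hHc : Continuous fun z : ℂ => y + z • a := by fun_prop
  have hHd : Differentiable ℂ fun z : ℂ => y + z • a := by fun_prop
  have hUo : IsOpen {z : ℂ | y + z • a ∉ D} := P.D_closed.isOpen_compl.preimage hHc
  have hUc : IsPreconnected {z : ℂ | y + z • a ∉ D} :=
    (Set.Countable.isConnected_compl_of_one_lt_rank (E := ℂ) (by rw [Complex.rank_real_complex]; exact_mod_cast one_lt_two)
      (Lim_countable P ha y)).isPreconnected
  have hF : Differentiable ℂ (F j) := P.an j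
  -- two lifts of the same line
  have hpr : ∀ (z : ℂ) {v x : EN N}, v ≠ 0 → x ≠ 0 → pr x = pr v → F j (y + z • a, v) = 0 → F j (y + z • a, x) = 0 := by
    intro z v x hv hx hxv hF0
    obtain ⟨c, -, hc⟩ := (Pool.Agent.H62.EF.pr_eq_iff hx hv).mp hxv
    rw [hc, P.hom, hF0, mul_zero]
  have hgcont : ∀ z : ℂ, y + z • a ∉ D → ContinuousAt g z := by
    intro z hz
    obtain ⟨Φ, hΦ, hΦe⟩ := S.lift z hz
    have h1 : ContinuousAt (fun v => pr (Φ v)) z := (Pool.Agent.H62.EF.continuousAt_pr hΦe.self_of_nhds.1).comp hΦ.continuousAt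
    exact h1.congr (hΦe.mono fun v hv => hv.2.symm)
  refine Lim_dich hUc (p := fun z => ∀ x : EN N, x ≠ 0 → pr x = g z → F j (y + z • a, x) = 0) ?_ hz₀ ?_
  swap
  · intro x' hx' hxg'
    exact hpr z₀ hx hx' (hxg'.trans hxg.symm) h0
  intro z₁ hz₁
  obtain ⟨Φ, hΦ, hΦe⟩ := S.lift z₁ hz₁
  obtain ⟨v, hv⟩ : ∃ v, v = Φ z₁ := ⟨_, rfl⟩
  have hv0 : v ≠ 0 := by rw [hv]; exact hΦe.self_of_nhds.1
  have hin : ∀ᶠ z in 𝓝 z₁, (inner ℂ v (Φ z) : ℂ) ≠ 0 := by
    have h1 : ContinuousAt (fun z => (inner ℂ v (Φ z) : ℂ)) z₁ := continuousAt_const.inner hΦ.continuousAt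
    refine h1.eventually_ne ?_
    rw [← hv]
    exact inner_self_ne_zero.2 hv0
  have hUe : ∀ᶠ z in 𝓝 z₁, y + z • a ∉ D := hUo.mem_nhds hz₁
  obtain ⟨r₀, hr₀, hr⟩ := Metric.eventually_nhds_iff_ball.1 ((hΦe.and hin).and (hUe.and hΦ.eventually_analyticAt))
  obtain ⟨r, hrdef⟩ : ∃ r : ℝ, r = r₀ / 2 := ⟨_, rfl⟩
  have hr0 : 0 < r := by rw [hrdef]; positivity
  have hKr : closedBall z₁ r ⊆ ball z₁ r₀ := closedBall_subset_ball (by rw [hrdef]; linarith)
  have hbr : ball z₁ r ⊆ closedBall z₁ r := ball_subset_closedBall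
  have hK : IsCompact (closedBall z₁ r) := isCompact_closedBall _ _
  have hgpr : ∀ z ∈ closedBall z₁ r, Φ z ≠ 0 ∧ g z = pr (Φ z) ∧ (inner ℂ v (Φ z) : ℂ) ≠ 0 ∧ y + z • a ∉ D := fun z hz =>
    ⟨(hr z (hKr hz)).1.1.1, (hr z (hKr hz)).1.1.2, (hr z (hKr hz)).1.2, (hr z (hKr hz)).2.1⟩
  have hnv : ∀ z ∈ closedBall z₁ r, Pool.Agent.G3.C.nv v (g z) = (inner ℂ v (Φ z) : ℂ)⁻¹ • Φ z := by
    intro z hz
    rw [(hgpr z hz).2.1, Pool.Agent.G3.C.nv_pr (hgpr z hz).2.2.1]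
  have hnd : ∀ z ∈ closedBall z₁ r, Pool.Agent.G3.C.nd v (g z) ≠ 0 := by
    intro z hz
    rw [(hgpr z hz).2.1]
    exact (Pool.Agent.G3.C.nd_pr_ne (hgpr z hz).1).2 (hgpr z hz).2.2.1
  -- the curves near `z₁`
  obtain ⟨ε, hε, hεs⟩ : ∃ ε : ℝ, 0 < ε ∧ thickening ε (g '' closedBall z₁ r) ⊆ {m : MN N | Pool.Agent.G3.C.nd v m ≠ 0} := by
    refine (hK.image_of_continuousOn fun z hz => (hgcont z (hgpr z hz).2.2.2).continuousWithinAt).exists_thickening_subset_open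
      (isOpen_ne.preimage (Pool.Agent.G3.C.nd_cont v)) ?_
    rintro m ⟨z, hz, rfl⟩
    exact hnd z hz
  have hcurve : ∀ᶠ n in (𝒰 : Filter ℕ), Cw X F (ball z₁ r) (w n) (h n) := by
    filter_upwards [S.cv (‖z₁‖ + r)] with n hn
    refine hn.mono fun z hz => ?_
    rw [mem_ball, dist_zero_right]
    have h1 : dist z z₁ < r := mem_ball.mp hz
    have h2 := norm_le_norm_add_norm_sub' z z₁
    rw [← dist_eq_norm] at h2
    linarith
  have hin2 : ∀ᶠ n in (𝒰 : Filter ℕ), ∀ z ∈ ball z₁ r, w n z ≠ 0 ∧ (inner ℂ v (w n z) : ℂ) ≠ 0 := by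
    filter_upwards [hcurve, S.lim (closedBall z₁ r) hK (fun z hz => (hgpr z hz).2.2.2) ε hε] with n h1 h2 z hz
    have h3 : w n z ≠ 0 := h1.w_ne _ hz
    refine ⟨h3, (Pool.Agent.G3.C.nd_pr_ne h3).1 (hεs ?_)⟩
    rw [mem_thickening_iff]
    exact ⟨g z, ⟨z, hbr hz, rfl⟩, h2 z (hbr hz)⟩
  have hkey := Pool.Agent.H62.Log.hurwitz 𝒰 (a := z₁) (r := r) (φ := fun n z => F j (h n z, Pool.Agent.G3.C.nv v (pr (w n z))))
    (ψ := fun z => F j (y + z • a, Pool.Agent.G3.C.nv v (g z))) ?_ ?_ ?_ ?_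
  · refine ⟨r, hr0, ?_⟩
    rcases hkey with hk | hk
    · left
      intro z hz x' hx' hxg'
      have h1 : F j (y + z • a, Pool.Agent.G3.C.nv v (g z)) = 0 := hk z hz
      rw [hnv z (hbr hz)] at h1
      refine hpr z (smul_ne_zero (inv_ne_zero (hgpr z (hbr hz)).2.2.1) (hgpr z (hbr hz)).1) hx' ?_ h1
      rw [Pool.Agent.H62.EF.pr_smul _ (inv_ne_zero (hgpr z (hbr hz)).2.2.1), hxg', (hgpr z (hbr hz)).2.1]
    · right
      intro z hz hp
      refine hk z hz ?_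
      show F j (y + z • a, Pool.Agent.G3.C.nv v (g z)) = 0
      rw [hnv z (hbr hz)]
      refine hp _ (smul_ne_zero (inv_ne_zero (hgpr z (hbr hz)).2.2.1) (hgpr z (hbr hz)).1) ?_
      rw [Pool.Agent.H62.EF.pr_smul _ (inv_ne_zero (hgpr z (hbr hz)).2.2.1), (hgpr z (hbr hz)).2.1]
  · filter_upwards [hcurve, hin2] with n h1 h2
    have h4 : DifferentiableOn ℂ (fun z => (inner ℂ v (w n z) : ℂ)) (ball z₁ r) := (innerSL ℂ v).differentiable.comp_differentiableOn h1.w_diff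
    have h5 : DifferentiableOn ℂ (fun z => (inner ℂ v (w n z) : ℂ)⁻¹ • w n z) (ball z₁ r) := (h4.inv fun z hz => (h2 z hz).2).smul h1.w_diff
    have h6 : DifferentiableOn ℂ (fun z => F j (h n z, (inner ℂ v (w n z) : ℂ)⁻¹ • w n z)) (ball z₁ r) := hF.comp_differentiableOn (h1.h_diff.prodMk h5)
    exact h6.congr fun z hz => by simp only [Pool.Agent.G3.C.nv_pr (h2 z hz).2]
  · filter_upwards [hcurve, hin2] with n h1 h2 z hz
    simp only [Pool.Agent.G3.C.nv_pr (h2 z hz).2]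
    rw [P.hom]
    exact mul_ne_zero (pow_ne_zero _ (inv_ne_zero (h2 z hz).2)) (h1.ne j z hz)
  · have h3 : DifferentiableOn ℂ Φ (ball z₁ r) := fun z hz => (hr z (hKr (hbr hz))).2.2.differentiableAt.differentiableWithinAt
    have h4 : DifferentiableOn ℂ (fun z => (inner ℂ v (Φ z) : ℂ)) (ball z₁ r) := (innerSL ℂ v).differentiable.comp_differentiableOn h3
    have h5 : DifferentiableOn ℂ (fun z => (inner ℂ v (Φ z) : ℂ)⁻¹ • Φ z) (ball z₁ r) := (h4.inv fun z hz => (hgpr z (hbr hz)).2.2.1).smul h3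
    have h6 : DifferentiableOn ℂ (fun z : ℂ => F j (y + z • a, (inner ℂ v (Φ z) : ℂ)⁻¹ • Φ z)) (ball z₁ r) :=
      hF.comp_differentiableOn (hHd.differentiableOn.prodMk h5)
    exact h6.congr fun z hz => by simp only [hnv z (hbr hz)]
  · intro zs z' hz' hzs
    have hbn : ∀ᶠ n in (𝒰 : Filter ℕ), zs n ∈ ball z₁ r := hzs.eventually (isOpen_ball.mem_nhds hz')
    have e1 : Tendsto (fun n => h n (zs n)) (𝒰 : Filter ℕ) (𝓝 (y + z' • a)) := by
      have h1 : Tendsto (fun n => y + zs n • a) (𝒰 : Filter ℕ) (𝓝 (y + z' • a)) := (hHc.tendsto z').comp hzs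
      have h2 : Tendsto (fun n => h n (zs n) - (y + zs n • a)) (𝒰 : Filter ℕ) (𝓝 0) := by
        rw [Metric.tendsto_nhds]
        intro ε' hε'
        filter_upwards [hbn, S.hh (‖z₁‖ + r) ε' hε'] with n hn1 hn2
        rw [dist_zero_right]
        refine hn2 _ ?_
        rw [mem_closedBall, dist_zero_right]
        have h1 : dist (zs n) z₁ < r := mem_ball.mp hn1
        have h2 := norm_le_norm_add_norm_sub' (zs n) z₁
        rw [← dist_eq_norm] at h2
        linarith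
      have h3 := h2.add h1
      simp only [sub_add_cancel, zero_add] at h3
      exact h3
    have e2 : Tendsto (fun n => pr (w n (zs n))) (𝒰 : Filter ℕ) (𝓝 (g z')) := by
      have h1 : Tendsto (fun n => g (zs n)) (𝒰 : Filter ℕ) (𝓝 (g z')) := (hgcont z' (hgpr z' (hbr hz')).2.2.2).tendsto.comp hzs
      refine h1.congr_dist ?_
      rw [Metric.tendsto_nhds]
      intro ε' hε'
      filter_upwards [hbn, S.lim (closedBall z₁ r) hK (fun z hz => (hgpr z hz).2.2.2) ε' hε'] with n hn1 hn2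
      rw [dist_zero_right, Real.norm_of_nonneg dist_nonneg, dist_comm]
      exact hn2 _ (hbr hn1)
    have e3 : Tendsto (fun n => Pool.Agent.G3.C.nv v (pr (w n (zs n)))) (𝒰 : Filter ℕ) (𝓝 (Pool.Agent.G3.C.nv v (g z'))) :=
      (Pool.Agent.G3.C.nv_continuousAt (hnd z' (hbr hz'))).tendsto.comp e2
    exact Lim_tend hF.continuous e1 e3

end Pool.Agent.HE
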