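import Pool.Agent.HE.Bas

/-!
# HE Psi: the function `- log qf` along a curve

Adapted from `PX/Psi`.
-/

set_option autoImplicit false

open Topology Filter Metric

namespace Pool.Agent.HE

open Pool.Agent.H36.BP (EN fs wd)
open Pool.Agent.H62.EF (MN pr)
open Pool.Agent.AD (Vd)
open Pool.Agent.TG (Lat Gd)
open Pool.Agent.G3 (wt TT LLift)

variable {N k q r : ℕ} {Λ : AddSubgroup (Vd (k + 1))} {D : Set (Vd (k + 1))} {X : Set (Vd (k + 1) × EN N)} {F : Fin q → Vd (k + 1) × EN N → ℂ} {d : Fin q → ℕ}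
  {W : Fin q → Fin r → Vd (k + 1) →L[ℂ] ℂ}

/-- the weight is positive definite -/
private theorem Psi_wt_ge {W : Fin r → Vd (k + 1) →L[ℂ] ℂ} (hW : ∀ y, (∀ i, W i y = 0) → y = 0) :
    ∃ c : ℝ, 0 < c ∧ ∀ y : Vd (k + 1), c * ‖y‖ ^ 2 ≤ wt W y := by
  have hcont : Continuous (wt W) := by
    unfold wt
    exact continuous_finsetSum _ fun i _ => ((W i).continuous.norm.pow 2)
  have hpos : ∀ y ∈ sphere (0 : Vd (k + 1)) 1, 0 < wt W y := by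
    intro y hy
    rw [mem_sphere_zero_iff_norm] at hy
    have h0 : 0 ≤ wt W y := Finset.sum_nonneg fun i _ => by positivity
    rcases h0.eq_or_lt with h1 | h1
    · exfalso
      have h2 : ∀ i, W i y = 0 := by
        intro i
        have h3 := (Finset.sum_eq_zero_iff_of_nonneg (s := Finset.univ) (f := fun i => ‖W i y‖ ^ 2) fun i _ => by positivity).1 h1.symm i (Finset.mem_univ i)
        exact norm_eq_zero.1 (pow_eq_zero_iff (two_ne_zero)|>.1 h3)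
      rw [hW y h2, norm_zero] at hy
      exact zero_ne_one hy
    · exact h1
  have hne : (sphere (0 : Vd (k + 1)) 1).Nonempty := by
    refine ⟨fun _ => 1, ?_⟩
    rw [mem_sphere_zero_iff_norm]
    simp [pi_norm_const]
  obtain ⟨y₁, hy₁, hmin⟩ := (isCompact_sphere (0 : Vd (k + 1)) 1).exists_isMinOn hne hcont.continuousOn
  refine ⟨wt W y₁, hpos y₁ hy₁, fun y => ?_⟩
  by_cases hy : y = 0
  · subst hy
    simp [wt]
  · have hn : 0 < ‖y‖ := norm_pos_iff.2 hy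
    set c : ℂ := (((‖y‖⁻¹ : ℝ)) : ℂ) with hcd
    have hcn : ‖c‖ = ‖y‖⁻¹ := by rw [hcd, Complex.norm_real, norm_inv, norm_norm]
    have h1 : c • y ∈ sphere (0 : Vd (k + 1)) 1 := by
      rw [mem_sphere_zero_iff_norm, norm_smul, hcn]
      exact inv_mul_cancel₀ hn.ne'
    have h2 : wt W y₁ ≤ wt W (c • y) := hmin h1
    have h3 : wt W (c • y) = (‖y‖⁻¹) ^ 2 * wt W y := by
      unfold wt
      rw [Finset.mul_sum]
      refine Finset.sum_congr rfl fun i _ => ?_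
      rw [map_smul, norm_smul, hcn, mul_pow]
    rw [h3] at h2
    have h4 := mul_le_mul_of_nonneg_right h2 (by positivity : 0 ≤ ‖y‖ ^ 2)
    have h5 : (‖y‖⁻¹) ^ 2 * wt W y * ‖y‖ ^ 2 = wt W y := by
      field_simp
    rwa [h5] at h4

/-- a curve outside the zeros of one form -/
private structure Cs (f : Vd (k + 1) × EN N → ℂ) (U : Set ℂ) (w : ℂ → EN N) (h : ℂ → Vd (k + 1)) : Prop where
  w_diff : DifferentiableOn ℂ w U
  h_diff : DifferentiableOn ℂ h U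
  w_ne : ∀ ⦃z⦄, z ∈ U → w z ≠ 0
  ne : ∀ z ∈ U, f (h z, w z) ≠ 0

/-- the exponent of the comparison function -/
private noncomputable def Psi_e (W : Fin r → Vd (k + 1) →L[ℂ] ℂ) (y₁ y : Vd (k + 1)) : ℂ :=
  ∑ i, (2 * (starRingEnd ℂ (W i y₁)) * W i y - ((‖W i y₁‖ ^ 2 : ℝ) : ℂ))

/-- the holomorphic comparison function: `‖Psi_H‖ ≤ 1 / qf`, with equality at `(x₁, y₁)` -/
private noncomputable def Psi_H (f : Vd (k + 1) × EN N → ℂ) (d : ℕ) (W : Fin r → Vd (k + 1) →L[ℂ] ℂ) (x₁ : EN N) (y₁ : Vd (k + 1)) (x : EN N)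
    (y : Vd (k + 1)) : ℂ :=
  (innerSL ℂ x₁ x) ^ d * Complex.exp (Psi_e W y₁ y) / (((‖x₁‖ ^ d : ℝ) : ℂ) * f (y, x))

private theorem Psi_e_re (W : Fin r → Vd (k + 1) →L[ℂ] ℂ) (y₁ y : Vd (k + 1)) :
    (Psi_e W y₁ y).re + wt W (y - y₁) = wt W y := by
  unfold Psi_e wt
  rw [Complex.re_sum, ← Finset.sum_add_distrib]
  refine Finset.sum_congr rfl fun i _ => ?_
  rw [map_sub, Complex.sub_re, Complex.ofReal_re, ← Complex.normSq_eq_norm_sq, ← Complex.normSq_eq_norm_sq, ← Complex.normSq_eq_norm_sq,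
    Complex.normSq_apply, Complex.normSq_apply, Complex.normSq_apply]
  simp only [Complex.mul_re, Complex.mul_im, Complex.conj_re, Complex.conj_im, Complex.sub_re, Complex.sub_im, Complex.re_ofNat, Complex.im_ofNat]
  ring

private theorem Psi_H_norm (f : Vd (k + 1) × EN N → ℂ) (d : ℕ) (W : Fin r → Vd (k + 1) →L[ℂ] ℂ) (x₁ : EN N) (y₁ : Vd (k + 1)) (x : EN N)
    (y : Vd (k + 1)) : ‖Psi_H f d W x₁ y₁ x y‖ = ‖innerSL ℂ x₁ x‖ ^ d * Real.exp (Psi_e W y₁ y).re / (‖x₁‖ ^ d * ‖f (y, x)‖) := by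
  unfold Psi_H
  rw [norm_div, norm_mul, norm_mul, norm_pow, Complex.norm_exp, Complex.norm_real, norm_pow, norm_norm]

private theorem Psi_H_le (f : Vd (k + 1) × EN N → ℂ) (d : ℕ) (W : Fin r → Vd (k + 1) →L[ℂ] ℂ) {x₁ : EN N} (hx₁ : x₁ ≠ 0) (y₁ : Vd (k + 1)) {x : EN N}
    (hx : x ≠ 0) {y : Vd (k + 1)} (hF : f (y, x) ≠ 0) :
    ‖Psi_H f d W x₁ y₁ x y‖ * Real.exp (wt W (y - y₁)) * qf f d W y x ≤ 1 := by
  have h1 : 0 < ‖x₁‖ := norm_pos_iff.2 hx₁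
  have h2 : 0 < ‖x‖ := norm_pos_iff.2 hx
  have h3 : 0 < ‖f (y, x)‖ := norm_pos_iff.2 hF
  have e : ‖Psi_H f d W x₁ y₁ x y‖ * Real.exp (wt W (y - y₁)) * qf f d W y x =
      (‖innerSL ℂ x₁ x‖ / (‖x₁‖ * ‖x‖)) ^ d * (Real.exp (Psi_e W y₁ y).re * Real.exp (wt W (y - y₁)) * Real.exp (-wt W y)) := by
    rw [Psi_H_norm]
    unfold qf
    rw [div_pow, mul_pow]
    field_simp
  rw [e, ← Real.exp_add, ← Real.exp_add, Psi_e_re, add_neg_cancel, Real.exp_zero, mul_one]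
  refine pow_le_one₀ (by positivity) ?_
  rw [div_le_one (by positivity)]
  exact norm_inner_le_norm x₁ x

private theorem Psi_H_self (f : Vd (k + 1) × EN N → ℂ) (d : ℕ) (W : Fin r → Vd (k + 1) →L[ℂ] ℂ) {x₁ : EN N} (hx₁ : x₁ ≠ 0) {y₁ : Vd (k + 1)}
    (hF : f (y₁, x₁) ≠ 0) : ‖Psi_H f d W x₁ y₁ x₁ y₁‖ * qf f d W y₁ x₁ = 1 := by
  have h1 : 0 < ‖x₁‖ := norm_pos_iff.2 hx₁
  have h3 : 0 < ‖f (y₁, x₁)‖ := norm_pos_iff.2 hF
  have h4 : ‖innerSL ℂ x₁ x₁‖ = ‖x₁‖ * ‖x₁‖ := by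
    rw [innerSL_apply_apply, inner_self_eq_norm_sq_to_K, norm_pow]
    simp [sq]
  have h5 := Psi_e_re W y₁ y₁
  have h6 : wt W (y₁ - y₁) = 0 := by
    rw [sub_self]
    simp [wt]
  rw [h6, add_zero] at h5
  rw [Psi_H_norm, h4, h5]
  unfold qf
  have e : (‖x₁‖ * ‖x₁‖) ^ d * Real.exp (wt W y₁) / (‖x₁‖ ^ d * ‖f (y₁, x₁)‖) * (‖f (y₁, x₁)‖ * Real.exp (-wt W y₁) / ‖x₁‖ ^ d) =
      Real.exp (wt W y₁) * Real.exp (-wt W y₁) := by
    rw [mul_pow]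
    field_simp
  rw [e, ← Real.exp_add, add_neg_cancel, Real.exp_zero]

private theorem Psi_H_diff {f : Vd (k + 1) × EN N → ℂ} (hf : Differentiable ℂ f) (d : ℕ) (W : Fin r → Vd (k + 1) →L[ℂ] ℂ) {w : ℂ → EN N} {h : ℂ → Vd (k + 1)} {U : Set ℂ} (hc : Cs f U w h) {x₁ : EN N} (hx₁ : x₁ ≠ 0)
    (y₁ : Vd (k + 1)) : DifferentiableOn ℂ (fun z => Psi_H f d W x₁ y₁ (w z) (h z)) U := by
  have h1 : ‖x₁‖ ≠ 0 := norm_ne_zero_iff.2 hx₁
  unfold Psi_H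
  have hF : DifferentiableOn ℂ (fun z => f (h z, w z)) U :=
    hf.comp_differentiableOn (hc.h_diff.prodMk hc.w_diff)
  have he : DifferentiableOn ℂ (fun z => Psi_e W y₁ (h z)) U := by
    unfold Psi_e
    refine DifferentiableOn.fun_sum fun i _ => ?_
    exact (((W i).differentiable.comp_differentiableOn hc.h_diff).const_mul _).sub_const _
  have hi : DifferentiableOn ℂ (fun z => (innerSL ℂ x₁) (w z)) U :=
    (innerSL ℂ x₁).differentiable.comp_differentiableOn hc.w_diff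
  refine ((hi.pow d).mul he.cexp).div (hF.const_mul _) fun z hz => ?_
  refine mul_ne_zero ?_ (hc.ne z hz)
  rw [Ne, Complex.ofReal_eq_zero]
  exact pow_ne_zero d h1

private theorem Psi_qf_pos (f : Vd (k + 1) × EN N → ℂ) (d : ℕ) (W : Fin r → Vd (k + 1) →L[ℂ] ℂ) {x : EN N} (hx : x ≠ 0) {y : Vd (k + 1)}
    (hF : f (y, x) ≠ 0) : 0 < qf f d W y x := by
  have h1 : 0 < ‖x‖ := norm_pos_iff.2 hx
  have h3 : 0 < ‖f (y, x)‖ := norm_pos_iff.2 hF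
  unfold qf
  positivity

private theorem Psi_qf_cont {f : Vd (k + 1) × EN N → ℂ} (hf : Differentiable ℂ f) (d : ℕ) (W : Fin r → Vd (k + 1) →L[ℂ] ℂ) {w : ℂ → EN N} {h : ℂ → Vd (k + 1)} {U : Set ℂ} (hc : Cs f U w h) :
    ContinuousOn (fun z => qf f d W (h z) (w z)) U := by
  have hF : DifferentiableOn ℂ (fun z => f (h z, w z)) U :=
    hf.comp_differentiableOn (hc.h_diff.prodMk hc.w_diff)
  have hcont : Continuous (wt W) := by
    unfold wt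
    exact continuous_finsetSum _ fun i _ => ((W i).continuous.norm.pow 2)
  unfold qf
  refine ContinuousOn.div (hF.continuousOn.norm.mul ?_) (hc.w_diff.continuousOn.norm.pow d) fun z hz => ?_
  · exact Real.continuous_exp.comp_continuousOn (hcont.comp_continuousOn hc.h_diff.continuousOn).neg
  · exact pow_ne_zero d (norm_ne_zero_iff.2 (hc.w_ne hz))

private theorem psi_max {f : Vd (k + 1) × EN N → ℂ} (hf : Differentiable ℂ f) (d : ℕ) (W : Fin r → Vd (k + 1) →L[ℂ] ℂ) {w : ℂ → EN N} {h : ℂ → Vd (k + 1)} {z₀ : ℂ} {s R : ℝ} (hs : 0 < s) (hR : s < R) (hc : Cs f (ball z₀ R) w h) {c : ℝ} (hc0 : 0 < c)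
    (hq : ∀ z ∈ sphere z₀ s, c ≤ qf f d W (h z) (w z)) : c ≤ qf f d W (h z₀) (w z₀) := by
  have hz₀ : z₀ ∈ ball z₀ R := mem_ball_self (hs.trans hR)
  have hw₀ : w z₀ ≠ 0 := hc.w_ne hz₀
  have hcl : closedBall z₀ s ⊆ ball z₀ R := closedBall_subset_ball hR
  have hH := Psi_H_diff hf d W hc hw₀ (h z₀)
  have hH2 : DiffContOnCl ℂ (fun z => Psi_H f d W (w z₀) (h z₀) (w z) (h z)) (ball z₀ s) := by
    refine DifferentiableOn.diffContOnCl ?_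
    rw [closure_ball z₀ hs.ne']
    exact hH.mono hcl
  have h1 : ‖Psi_H f d W (w z₀) (h z₀) (w z₀) (h z₀)‖ ≤ 1 / c := by
    refine Complex.norm_le_of_forall_mem_frontier_norm_le isBounded_ball hH2 ?_ (subset_closure (mem_ball_self hs))
    intro z hz
    rw [frontier_ball z₀ hs.ne'] at hz
    have hzR : z ∈ ball z₀ R := hcl (sphere_subset_closedBall hz)
    have h2 := Psi_H_le f d W hw₀ (h z₀) (hc.w_ne hzR) (hc.ne z hzR)
    rw [le_div_iff₀ hc0]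
    have h3 : 1 ≤ Real.exp (wt W (h z - h z₀)) := by
      rw [Real.one_le_exp_iff]
      exact Finset.sum_nonneg fun i _ => by positivity
    calc ‖Psi_H f d W (w z₀) (h z₀) (w z) (h z)‖ * c
        ≤ (‖Psi_H f d W (w z₀) (h z₀) (w z) (h z)‖ * Real.exp (wt W (h z - h z₀))) * qf f d W (h z) (w z) :=
          mul_le_mul (le_mul_of_one_le_right (norm_nonneg _) h3) (hq z hz) hc0.le (by positivity)
      _ ≤ 1 := h2
  have h4 := Psi_H_self f d W hw₀ (hc.ne z₀ hz₀)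
  have h5 : 0 < qf f d W (h z₀) (w z₀) := Psi_qf_pos f d W hw₀ (hc.ne z₀ hz₀)
  have h6 : 1 ≤ 1 / c * qf f d W (h z₀) (w z₀) := h4.symm.le.trans (mul_le_mul_of_nonneg_right h1 h5.le)
  rw [one_div, ← div_eq_inv_mul, le_div_iff₀ hc0, one_mul] at h6
  exact h6

private theorem psi_grow {f : Vd (k + 1) × EN N → ℂ} (hf : Differentiable ℂ f) (d : ℕ) (W : Fin r → Vd (k + 1) →L[ℂ] ℂ) (hpos : ∀ y, (∀ i, W i y = 0) → y = 0) {A : ℝ} (hA : 0 < A) : ∃ c₀ : ℝ, 0 < c₀ ∧ ∀ (w : ℂ → EN N) (h : ℂ → Vd (k + 1)) (s R : ℝ), 0 < s → s < R → Cs f (ball 0 R) w h →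
    (∀ z ∈ ball (0 : ℂ) R, A ≤ ‖deriv h z‖) → ∀ c : ℝ, 0 < c → (∀ z ∈ sphere (0 : ℂ) s, c ≤ qf f d W (h z) (w z)) → c * Real.exp (c₀ * s ^ 2) ≤ qf f d W (h 0) (w 0) := by
  obtain ⟨l, hl, hwt⟩ := Psi_wt_ge hpos
  refine ⟨l * A ^ 2 / 2, by positivity, ?_⟩
  intro w h s R hs hR hc hh c hc0 hq
  set b : ℝ := l * A ^ 2 / 2 with hb
  have hb0 : 0 < b := by positivity
  have hcl : closedBall (0 : ℂ) s ⊆ ball 0 R := closedBall_subset_ball hR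
  have hqpos : ∀ z ∈ ball (0 : ℂ) R, 0 < qf f d W (h z) (w z) := fun z hz => Psi_qf_pos f d W (hc.w_ne hz) (hc.ne z hz)
  have hΦ : ContinuousOn (fun z : ℂ => (qf f d W (h z) (w z))⁻¹ * Real.exp (-(b * ‖z‖ ^ 2))) (closedBall 0 s) := by
    refine ContinuousOn.mul ?_ (by fun_prop)
    exact ((Psi_qf_cont hf d W hc).mono hcl).inv₀ fun z hz => (hqpos z (hcl hz)).ne'
  obtain ⟨z₁, hz₁, hmax⟩ := (isCompact_closedBall (0 : ℂ) s).exists_isMaxOn ⟨0, mem_closedBall_self hs.le⟩ hΦ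
  have hz₁R : z₁ ∈ ball (0 : ℂ) R := hcl hz₁
  have hw₁ : w z₁ ≠ 0 := hc.w_ne hz₁R
  rcases (mem_closedBall_zero_iff.1 hz₁).lt_or_eq with hlt | heq
  · -- an interior maximum
    exfalso
    have hdz : HasDerivAt h (deriv h z₁) z₁ := ((hc.h_diff z₁ hz₁R).differentiableAt (isOpen_ball.mem_nhds hz₁R)).hasDerivAt
    have hA1 := hh z₁ hz₁R
    have hlit := hdz.isLittleO.bound (show (0 : ℝ) < A / 8 by positivity)
    obtain ⟨ρ₁, hρ₁, hball⟩ := Metric.eventually_nhds_iff_ball.1 hlit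
    set ρ : ℝ := min (ρ₁ / 2) ((s - ‖z₁‖) / 2) with hρ
    have hρ0 : 0 < ρ := lt_min (by positivity) (by linarith)
    have hρ1 : ρ < ρ₁ := (min_le_left _ _).trans_lt (by linarith)
    have hρ2 : ρ ≤ (s - ‖z₁‖) / 2 := min_le_right _ _
    have hsub : closedBall z₁ ρ ⊆ closedBall (0 : ℂ) s := by
      intro z hz
      rw [mem_closedBall_zero_iff]
      rw [mem_closedBall, dist_eq_norm] at hz
      have h1 : ‖z‖ ≤ ‖z - z₁‖ + ‖z₁‖ := by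
        have := norm_add_le (z - z₁) z₁
        rwa [sub_add_cancel] at this
      linarith
    have hH := Psi_H_diff hf d W hc hw₁ (h z₁)
    set Ht : ℂ → ℂ := fun z => Psi_H f d W (w z₁) (h z₁) (w z) (h z) * Complex.exp (-(2 * (b : ℂ) * starRingEnd ℂ z₁ * (z - z₁))) with hHt
    have hHtd : DiffContOnCl ℂ Ht (ball z₁ ρ) := by
      refine DifferentiableOn.diffContOnCl ?_
      rw [closure_ball z₁ hρ0.ne']
      refine (hH.mono (hsub.trans hcl)).mul ?_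
      fun_prop
    obtain ⟨z₂, hz₂, hm₂⟩ := Complex.exists_mem_frontier_isMaxOn_norm isBounded_ball ⟨z₁, mem_ball_self hρ0⟩ hHtd
    rw [frontier_ball z₁ hρ0.ne'] at hz₂
    have hle : ‖Ht z₁‖ ≤ ‖Ht z₂‖ := hm₂ (subset_closure (mem_ball_self hρ0))
    have hz₂s : z₂ ∈ closedBall (0 : ℂ) s := hsub (sphere_subset_closedBall hz₂)
    have hz₂R := hcl hz₂s
    have hdist : ‖z₂ - z₁‖ = ρ := by
      rw [mem_sphere, dist_eq_norm] at hz₂
      exact hz₂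
    -- the lower bound of the weight
    have hb2 := hball z₂ (by rw [mem_ball, dist_eq_norm, hdist]; exact hρ1)
    rw [hdist] at hb2
    have hlow : 7 / 8 * A * ρ ≤ ‖h z₂ - h z₁‖ := by
      have h1 : ‖(z₂ - z₁) • deriv h z₁‖ ≤ ‖h z₂ - h z₁‖ + ‖h z₂ - h z₁ - (z₂ - z₁) • deriv h z₁‖ := by
        have := norm_sub_le (h z₂ - h z₁) (h z₂ - h z₁ - (z₂ - z₁) • deriv h z₁)
        rwa [sub_sub_cancel] at this
      rw [norm_smul, hdist] at h1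
      have h2 : ρ * A ≤ ρ * ‖deriv h z₁‖ := mul_le_mul_of_nonneg_left hA1 hρ0.le
      nlinarith
    have hwt2 : b * ρ ^ 2 < wt W (h z₂ - h z₁) := by
      have h1 := hwt (h z₂ - h z₁)
      have h2 : (7 / 8 * A * ρ) ^ 2 ≤ ‖h z₂ - h z₁‖ ^ 2 := pow_le_pow_left₀ (by positivity) hlow 2
      have h3 : l * (7 / 8 * A * ρ) ^ 2 ≤ l * ‖h z₂ - h z₁‖ ^ 2 := mul_le_mul_of_nonneg_left h2 hl.le
      have h4 : b * ρ ^ 2 < l * (7 / 8 * A * ρ) ^ 2 := by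
        have h5 : 0 < l * A ^ 2 * ρ ^ 2 := by positivity
        rw [hb]
        nlinarith
      linarith
    have hsq : ‖z₂‖ ^ 2 = ‖z₁‖ ^ 2 + 2 * (starRingEnd ℂ z₁ * (z₂ - z₁)).re + ρ ^ 2 := by
      rw [← hdist, ← Complex.normSq_eq_norm_sq, ← Complex.normSq_eq_norm_sq, ← Complex.normSq_eq_norm_sq, Complex.normSq_apply,
        Complex.normSq_apply, Complex.normSq_apply]
      simp only [Complex.mul_re, Complex.conj_re, Complex.conj_im, Complex.sub_re, Complex.sub_im]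
      ring
    have hHn : ∀ z, ‖Ht z‖ = ‖Psi_H f d W (w z₁) (h z₁) (w z) (h z)‖ * Real.exp (-(2 * b * (starRingEnd ℂ z₁ * (z - z₁)).re)) := by
      intro z
      rw [hHt]
      show ‖_ * _‖ = _
      rw [norm_mul, Complex.norm_exp]
      congr 2
      rw [Complex.neg_re, mul_assoc (2 * (b : ℂ)), Complex.mul_re]
      simp
    have h1 : ‖Ht z₁‖ = ‖Psi_H f d W (w z₁) (h z₁) (w z₁) (h z₁)‖ := by
      rw [hHn, sub_self, mul_zero, Complex.zero_re, mul_zero, neg_zero, Real.exp_zero, mul_one]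
    have h2 := Psi_H_self f d W hw₁ (hc.ne z₁ hz₁R)
    have h3 : (qf f d W (h z₁) (w z₁))⁻¹ = ‖Ht z₁‖ := by
      rw [h1]
      exact (eq_inv_of_mul_eq_one_left h2).symm
    have h4 := Psi_H_le f d W hw₁ (h z₁) (hc.w_ne hz₂R) (hc.ne z₂ hz₂R)
    have h5 : ‖Psi_H f d W (w z₁) (h z₁) (w z₂) (h z₂)‖ * Real.exp (wt W (h z₂ - h z₁)) ≤ (qf f d W (h z₂) (w z₂))⁻¹ := by
      rw [← one_div, le_div_iff₀ (hqpos z₂ hz₂R)]
      exact h4
    have h6 : (qf f d W (h z₂) (w z₂))⁻¹ * Real.exp (-(b * ‖z₂‖ ^ 2)) ≤ (qf f d W (h z₁) (w z₁))⁻¹ * Real.exp (-(b * ‖z₁‖ ^ 2)) := hmax hz₂s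
    have hHpos : 0 < ‖Ht z₁‖ := by
      rw [← h3]
      exact inv_pos.2 (hqpos z₁ hz₁R)
    have h7 : ‖Ht z₂‖ * Real.exp (wt W (h z₂ - h z₁) - b * ρ ^ 2) * Real.exp (-(b * ‖z₁‖ ^ 2)) ≤
        (qf f d W (h z₂) (w z₂))⁻¹ * Real.exp (-(b * ‖z₂‖ ^ 2)) := by
      refine le_trans (le_of_eq ?_) (mul_le_mul_of_nonneg_right h5 (Real.exp_pos _).le)
      have e : Real.exp (-(2 * b * (starRingEnd ℂ z₁ * (z₂ - z₁)).re)) * Real.exp (wt W (h z₂ - h z₁) - b * ρ ^ 2) * Real.exp (-(b * ‖z₁‖ ^ 2)) =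
          Real.exp (wt W (h z₂ - h z₁)) * Real.exp (-(b * ‖z₂‖ ^ 2)) := by
        rw [← Real.exp_add, ← Real.exp_add, ← Real.exp_add]
        congr 1
        rw [hsq]
        ring
      rw [hHn]
      linear_combination ‖Psi_H f d W (w z₁) (h z₁) (w z₂) (h z₂)‖ * e
    have h8 : ‖Ht z₁‖ * 1 < ‖Ht z₂‖ * Real.exp (wt W (h z₂ - h z₁) - b * ρ ^ 2) := by
      have h9 : 1 < Real.exp (wt W (h z₂ - h z₁) - b * ρ ^ 2) := by
        rw [Real.one_lt_exp_iff]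
        linarith
      calc ‖Ht z₁‖ * 1 < ‖Ht z₁‖ * Real.exp (wt W (h z₂ - h z₁) - b * ρ ^ 2) := mul_lt_mul_of_pos_left h9 hHpos
        _ ≤ _ := mul_le_mul_of_nonneg_right hle (Real.exp_pos _).le
    rw [mul_one] at h8
    have h10 := mul_lt_mul_of_pos_right h8 (Real.exp_pos (-(b * ‖z₁‖ ^ 2)))
    rw [h3] at h6
    linarith
  · have h1 : (qf f d W (h 0) (w 0))⁻¹ * Real.exp (-(b * ‖(0 : ℂ)‖ ^ 2)) ≤ (qf f d W (h z₁) (w z₁))⁻¹ * Real.exp (-(b * ‖z₁‖ ^ 2)) :=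
      hmax (mem_closedBall_self hs.le)
    have h0R : (0 : ℂ) ∈ ball (0 : ℂ) R := mem_ball_self (hs.trans hR)
    have h2 : c ≤ qf f d W (h z₁) (w z₁) := hq z₁ (mem_sphere_zero_iff_norm.2 heq)
    have h3 : (qf f d W (h z₁) (w z₁))⁻¹ ≤ c⁻¹ := inv_anti₀ hc0 h2
    rw [norm_zero, heq] at h1
    have h4 : (qf f d W (h 0) (w 0))⁻¹ ≤ c⁻¹ * Real.exp (-(b * s ^ 2)) := by
      have h5 := mul_le_mul_of_nonneg_right h3 (Real.exp_pos (-(b * s ^ 2))).le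
      have h6 : Real.exp (-(b * (0 : ℝ) ^ 2)) = 1 := by simp
      rw [h6, mul_one] at h1
      exact h1.trans h5
    have h5 : c⁻¹ * Real.exp (-(b * s ^ 2)) = (c * Real.exp (b * s ^ 2))⁻¹ := by
      rw [mul_inv, Real.exp_neg]
    rw [h5] at h4
    exact (inv_le_inv₀ (hqpos 0 h0R) (by positivity)).1 h4

theorem HD.psi_max (P : HD Λ D X F d W) (j : Fin q) {w : ℂ → EN N} {h : ℂ → Vd (k + 1)} {z₀ : ℂ} {s R : ℝ} (hs : 0 < s) (hR : s < R) (hc : Cw X F (ball z₀ R) w h) {c : ℝ} (hc0 : 0 < c)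
    (hq : ∀ z ∈ sphere z₀ s, c ≤ qf (F j) (d j) (W j) (h z) (w z)) : c ≤ qf (F j) (d j) (W j) (h z₀) (w z₀) :=
  Pool.Agent.HE.psi_max (P.an j) (d j) (W j) hs hR ⟨hc.w_diff, hc.h_diff, hc.w_ne, hc.ne j⟩ hc0 hq

theorem HD.psi_grow (P : HD Λ D X F d W) (j : Fin q) (hpos : ∀ y, (∀ i, W j i y = 0) → y = 0) {A : ℝ} (hA : 0 < A) : ∃ c₀ : ℝ, 0 < c₀ ∧
    ∀ (w : ℂ → EN N) (h : ℂ → Vd (k + 1)) (s R : ℝ), 0 < s → s < R → Cw X F (ball 0 R) w h → (∀ z ∈ ball (0 : ℂ) R, A ≤ ‖deriv h z‖) → ∀ c : ℝ, 0 < c →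
      (∀ z ∈ sphere (0 : ℂ) s, c ≤ qf (F j) (d j) (W j) (h z) (w z)) → c * Real.exp (c₀ * s ^ 2) ≤ qf (F j) (d j) (W j) (h 0) (w 0) := by
  obtain ⟨c₀, hc₀, h1⟩ := Pool.Agent.HE.psi_grow (P.an j) (d j) (W j) hpos hA
  exact ⟨c₀, hc₀, fun w h s R hs hR hc => h1 w h s R hs hR ⟨hc.w_diff, hc.h_diff, hc.w_ne, hc.ne j⟩⟩

end Pool.Agent.HE
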