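import Pool.Agent.HE.Spr
import Pool.Agent.HE.Psi
import Pool.Agent.HE.Circ
import Pool.Agent.HE.Sec

/-!
# HE Long: no long curves

`claim`: for every set `J` of indices, on a long curve which starts over `Gd D δ` some `F j`, `j ∈ J`, is not small at `0`; by downward induction on `J`.  If `J` contains all ample indices this is `nosec`.  Otherwise there is an ample `i ∉ J`;
if all `F j`, `j ∈ J`, are very small at `0` then they are small at all points over `Gd D δ'` of a large disc (`spread`), so `F i` is not small there by the claim for `J ∪ {i}`, so at all points of the disc by the maximum principle (`circ`, `psi_max`),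
against `psi_grow` and `qf_le`.  The claim for `J = ∅` says that there are no long curves.
-/

set_option autoImplicit false

open Topology Filter Metric

namespace Pool.Agent.HE

open Pool.Agent.H36.BP (EN fs wd)
open Pool.Agent.H62.EF (MN pr)
open Pool.Agent.AD (Vd)
open Pool.Agent.TG (Lat Gd)
open Pool.Agent.G3 (wt TT LLift)

variable {N k q r : ℕ} {Λ : AddSubgroup (Vd (k + 1))} {D : Set (Vd (k + 1))} {X : Set (Vd (k + 1) × EN N)} {F : Fin q → Vd (k + 1) × EN N → ℂ} {d : Fin q → ℕ}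
  {W : Fin q → Fin r → Vd (k + 1) →L[ℂ] ℂ}

/-- the mean value inequality -/
private theorem Long_mv {h : ℂ → Vd (k + 1)} {a : Vd (k + 1)} {R η : ℝ} (hd : DifferentiableOn ℂ h (ball 0 R))
    (hη : ∀ z ∈ ball (0 : ℂ) R, ‖deriv h z - a‖ ≤ η) (x y : ℂ) (hx : x ∈ ball (0 : ℂ) R) (hy : y ∈ ball (0 : ℂ) R) :
    ‖h y - h x - (y - x) • a‖ ≤ η * ‖y - x‖ := by
  have hdf : ∀ z ∈ ball (0 : ℂ) R, DifferentiableAt ℂ h z := fun z hz => hd.differentiableAt (isOpen_ball.mem_nhds hz)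
  have h1 : ∀ z ∈ ball (0 : ℂ) R, HasDerivAt (fun z => h z - z • a) (deriv h z - a) z := by
    intro z hz
    have h2 := (hdf z hz).hasDerivAt.sub ((hasDerivAt_id z).smul_const a)
    rw [one_smul] at h2
    exact h2
  have h3 := Convex.norm_image_sub_le_of_norm_hasDerivWithin_le (f := fun z => h z - z • a) (fun z hz => (h1 z hz).hasDerivWithinAt) hη
    (convex_ball 0 R) hx hy
  have h4 : h y - h x - (y - x) • a = (h y - y • a) - (h x - x • a) := by
    rw [sub_smul]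
    abel
  rw [h4]
  exact h3

private theorem Long_pos (c : Fin q → ℝ) (hc : ∀ j, 0 < c j) : ∃ m : ℝ, 0 < m ∧ ∀ j, m ≤ c j := by
  have h0 : ∀ j, 0 < (c j)⁻¹ := fun j => inv_pos.2 (hc j)
  have h1 : 0 < ∑ j, (c j)⁻¹ + 1 := by
    have := Finset.sum_nonneg fun j (_ : j ∈ Finset.univ) => (h0 j).le
    linarith
  refine ⟨(∑ j, (c j)⁻¹ + 1)⁻¹, inv_pos.2 h1, fun j => ?_⟩
  rw [inv_le_comm₀ h1 (hc j)]
  have := Finset.single_le_sum (f := fun j => (c j)⁻¹) (fun i _ => (h0 i).le) (Finset.mem_univ j)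
  linarith

/-- a long curve -/
private structure Lg (X : Set (Vd (k + 1) × EN N)) (F : Fin q → Vd (k + 1) × EN N → ℂ) (A₁ A₂ R η : ℝ) (w : ℂ → EN N) (h : ℂ → Vd (k + 1)) (a : Vd (k + 1)) : Prop where
  a1 : A₁ ≤ ‖a‖
  a2 : ‖a‖ ≤ A₂
  cw : Cw X F (ball 0 R) w h
  der : ∀ z ∈ ball (0 : ℂ) R, ‖deriv h z - a‖ ≤ η

private theorem Lg.shift {A₁ A₂ R η R' η' : ℝ} {w : ℂ → EN N} {h : ℂ → Vd (k + 1)} {a : Vd (k + 1)} (L : Lg X F A₁ A₂ R η w h a) {z₀ : ℂ} (hz₀ : ‖z₀‖ + R' ≤ R) (hη : η ≤ η') :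
    Lg X F A₁ A₂ R' η' (fun z => w (z₀ + z)) (fun z => h (z₀ + z)) a := by
  have hm : Set.MapsTo (fun z : ℂ => z₀ + z) (ball 0 R') (ball 0 R) := by
    intro z hz
    rw [mem_ball_zero_iff] at hz ⊢
    calc ‖z₀ + z‖ ≤ ‖z₀‖ + ‖z‖ := norm_add_le _ _
      _ < R := by linarith
  refine ⟨L.a1, L.a2, L.cw.comp (by fun_prop) hm, fun z hz => ?_⟩
  rw [deriv_comp_const_add]
  exact (L.der _ (hm hz)).trans hη

private theorem Long_claim (P : HD Λ D X F d W) {A₁ A₂ : ℝ} (hA₁ : 0 < A₁) : ∀ (n : ℕ) (J : Finset (Fin q)), (Finset.univ \ J).card ≤ n → ∀ δ : ℝ, 0 < δ →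
    ∃ R c η : ℝ, 0 < R ∧ 0 < c ∧ 0 < η ∧ ∀ (w : ℂ → EN N) (h : ℂ → Vd (k + 1)) (a : Vd (k + 1)), Lg X F A₁ A₂ R η w h a → h 0 ∈ Gd D δ →
      ∃ j ∈ J, c ≤ qf (F j) (d j) (W j) (h 0) (w 0) := by
  classical
  -- sets which contain all ample indices
  have hbase : ∀ J : Finset (Fin q), (∀ i, (∀ y, (∀ s, W i s y = 0) → y = 0) → i ∈ J) → ∀ δ : ℝ, 0 < δ →
      ∃ R c η : ℝ, 0 < R ∧ 0 < c ∧ 0 < η ∧ ∀ (w : ℂ → EN N) (h : ℂ → Vd (k + 1)) (a : Vd (k + 1)), Lg X F A₁ A₂ R η w h a → h 0 ∈ Gd D δ →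
        ∃ j ∈ J, c ≤ qf (F j) (d j) (W j) (h 0) (w 0) := by
    intro J hJ δ hδ
    obtain ⟨R, c, η, hR, hc, hη, h1⟩ := P.nosec J hJ (A₂ := A₂) hδ hA₁
    refine ⟨R, c, η / R, hR, hc, div_pos hη hR, fun w h a L h0 => h1 w h a L.a1 L.a2 L.cw ?_ h0⟩
    intro v hv
    have h2 := Long_mv L.cw.h_diff L.der 0 v (mem_ball_self hR) hv
    rw [sub_zero] at h2
    rw [mem_ball_zero_iff] at hv
    have e : h v - (h 0 + v • a) = h v - h 0 - v • a := by abel
    rw [e]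
    refine h2.trans ?_
    rw [div_mul_eq_mul_div, div_le_iff₀ hR]
    exact mul_le_mul_of_nonneg_left hv.le hη.le
  intro n
  induction n with
  | zero =>
    intro J hJ δ hδ
    refine hbase J (fun i _ => ?_) δ hδ
    by_contra hi
    have h1 : i ∈ Finset.univ \ J := Finset.mem_sdiff.2 ⟨Finset.mem_univ i, hi⟩
    rw [Nat.le_zero, Finset.card_eq_zero] at hJ
    rw [hJ] at h1
    exact Finset.notMem_empty i h1
  | succ n ih =>
    intro J hJ δ hδ
    by_cases hz : ∀ i, (∀ y, (∀ s, W i s y = 0) → y = 0) → i ∈ J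
    · exact hbase J hz δ hδ
    push Not at hz
    obtain ⟨i, hpos, hi⟩ := hz
    have hcard : (Finset.univ \ insert i J).card ≤ n := by
      have h1 : (Finset.univ \ insert i J) ⊂ (Finset.univ \ J) := by
        refine (Finset.ssubset_iff_of_subset (Finset.sdiff_subset_sdiff le_rfl (Finset.subset_insert i J))).2 ⟨i, Finset.mem_sdiff.2 ⟨Finset.mem_univ i, hi⟩, ?_⟩
        rw [Finset.mem_sdiff]
        exact fun h => h.2 (Finset.mem_insert_self i J)
      have h2 := Finset.card_lt_card h1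
      omega
    obtain ⟨δc, hδc, hcirc⟩ := P.circ (A₂ := A₂) hA₁ one_pos
    obtain ⟨R₁, c₁, η₁, hR₁, hc₁, hη₁, hone⟩ := ih (insert i J) hcard (δc / 2) (half_pos hδc)
    obtain ⟨C, hC, hle⟩ := P.qf_le
    obtain ⟨c₀, hc₀, hgrow⟩ := P.psi_grow i hpos (half_pos hA₁)
    set S : ℝ := max 1 (C / (c₁ * c₀)) with hS
    have hS1 : 1 ≤ S := le_max_left _ _
    have hS2 : C / (c₁ * c₀) ≤ S := le_max_right _ _
    have hspr := fun j : Fin q => P.spread j (A₂ := A₂) (T := S + 2) hδ (half_pos hδc) hA₁ hc₁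
    choose Rs cs ηs hRs hcs hηs hsp using hspr
    obtain ⟨c, hc, hcle⟩ := Long_pos cs hcs
    obtain ⟨η₂, hη₂, hη₂le⟩ := Long_pos (fun j => ηs j / Rs j) (fun j => div_pos (hηs j) (hRs j))
    set R : ℝ := R₁ + 3 + S + ∑ j, Rs j with hR
    have hsum : 0 ≤ ∑ j, Rs j := Finset.sum_nonneg fun j _ => (hRs j).le
    have hRsle : ∀ j, Rs j ≤ R := by
      intro j
      have := Finset.single_le_sum (f := Rs) (fun i _ => (hRs i).le) (Finset.mem_univ j)
      linarith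
    set η : ℝ := min (A₁ / 2) (min (δc / 4) (min η₁ η₂)) with hη
    have h0η : 0 < η := lt_min (half_pos hA₁) (lt_min (by linarith) (lt_min hη₁ hη₂))
    have e1 : η ≤ A₁ / 2 := min_le_left _ _
    have e2 : η ≤ δc / 4 := (min_le_right _ _).trans (min_le_left _ _)
    have e3 : η ≤ η₁ := (min_le_right _ _).trans ((min_le_right _ _).trans (min_le_left _ _))
    have e4 : ∀ j, η * Rs j ≤ ηs j := by
      intro j
      have h1 : η ≤ ηs j / Rs j := ((min_le_right _ _).trans ((min_le_right _ _).trans (min_le_right _ _))).trans (hη₂le j)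
      rwa [le_div_iff₀ (hRs j)] at h1
    refine ⟨R, c, η, by linarith, hc, h0η, fun w h a L h0 => ?_⟩
    by_contra hcon
    push Not at hcon
    have mv := Long_mv L.cw.h_diff L.der
    have h0R : (0 : ℂ) ∈ ball (0 : ℂ) R := mem_ball_self (by linarith)
    -- the small forms
    have s0 : ∀ j ∈ J, ∀ z : ℂ, ‖z‖ ≤ S + 2 → h z ∈ Gd D (δc / 2) → qf (F j) (d j) (W j) (h z) (w z) < c₁ := by
      intro j hj z hz hg
      refine hsp j w h a L.a1 L.a2 (L.cw.mono (ball_subset_ball (hRsle j))) ?_ h0 ((hcon j hj).trans_le (hcle j)) z hz hg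
      intro v hv
      have h2 := mv 0 v h0R (ball_subset_ball (hRsle j) hv)
      rw [sub_zero] at h2
      rw [mem_ball_zero_iff] at hv
      have e : h v - (h 0 + v • a) = h v - h 0 - v • a := by abel
      rw [e]
      exact h2.trans ((mul_le_mul_of_nonneg_left hv.le h0η.le).trans (e4 j))
    -- near the set of the good points
    have s1 : ∀ z₀ : ℂ, ‖z₀‖ ≤ S + 2 → h z₀ ∈ Gd D (δc / 2) → c₁ ≤ qf (F i) (d i) (W i) (h z₀) (w z₀) := by
      intro z₀ hz₀ hg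
      obtain ⟨j, hj, h1⟩ := hone _ _ _ (L.shift (R' := R₁) (z₀ := z₀) (by linarith) e3) (by simpa only [add_zero] using hg)
      simp only [add_zero] at h1
      rw [Finset.mem_insert] at hj
      rcases hj with rfl | hj
      · exact h1
      · exact absurd h1 (not_le.2 (s0 j hj z₀ hz₀ hg))
    -- all points
    have s2 : ∀ z₀ : ℂ, ‖z₀‖ ≤ S → c₁ ≤ qf (F i) (d i) (W i) (h z₀) (w z₀) := by
      intro z₀ hz₀
      obtain ⟨s, hs0, hs1, hs⟩ := hcirc (h z₀) a L.a1 L.a2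
      have hsub : ball z₀ 2 ⊆ ball (0 : ℂ) R := by
        intro z hz
        rw [mem_ball_zero_iff]
        rw [mem_ball, dist_eq_norm] at hz
        have : ‖z‖ ≤ ‖z - z₀‖ + ‖z₀‖ := by
          calc ‖z‖ = ‖(z - z₀) + z₀‖ := by rw [sub_add_cancel]
            _ ≤ _ := norm_add_le _ _
        linarith
      refine P.psi_max i hs0 (by linarith : s < 2) (L.cw.mono hsub) hc₁ ?_
      intro z hz
      rw [mem_sphere, dist_eq_norm] at hz
      have hzn : ‖z‖ ≤ ‖z - z₀‖ + ‖z₀‖ := by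
        calc ‖z‖ = ‖(z - z₀) + z₀‖ := by rw [sub_add_cancel]
          _ ≤ _ := norm_add_le _ _
      refine s1 z (by linarith) ?_
      have h2 := mv z₀ z (hsub (mem_ball_self two_pos)) (hsub (by
        rw [mem_ball, dist_eq_norm]
        linarith))
      have h3 := hs (z - z₀) hz
      intro b hb
      have h4 := h3 b hb
      have h5 : ‖h z₀ + (z - z₀) • a - b‖ ≤ ‖h z - b‖ + ‖h z - h z₀ - (z - z₀) • a‖ := by
        calc ‖h z₀ + (z - z₀) • a - b‖ = ‖(h z - b) - (h z - h z₀ - (z - z₀) • a)‖ := by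
              congr 1
              abel
          _ ≤ _ := norm_sub_le _ _
      have h6 : η * ‖z - z₀‖ ≤ δc / 4 := by
        rw [hz]
        calc η * s ≤ η * 1 := mul_le_mul_of_nonneg_left hs1 h0η.le
          _ = η := mul_one _
          _ ≤ δc / 4 := e2
      linarith
    -- growth
    have h7 := hgrow w h S R (by linarith) (by linarith) L.cw (by
      intro z hz
      have h8 := L.der z hz
      have h9 : ‖a‖ ≤ ‖deriv h z‖ + ‖deriv h z - a‖ := by
        calc ‖a‖ = ‖deriv h z - (deriv h z - a)‖ := by rw [sub_sub_cancel]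
          _ ≤ _ := norm_sub_le _ _
      have h10 := L.a1
      linarith) c₁ hc₁ (by
      intro z hz
      rw [mem_sphere_zero_iff_norm] at hz
      exact s2 z hz.le)
    have h10 := hle i (h 0) (w 0)
    have h11 : c₀ * S ^ 2 + 1 ≤ Real.exp (c₀ * S ^ 2) := Real.add_one_le_exp _
    have h12 : S ≤ S ^ 2 := by nlinarith
    have h13 : C ≤ c₁ * (c₀ * S) := by
      rw [div_le_iff₀ (mul_pos hc₁ hc₀)] at hS2
      linarith
    have h14 : c₁ * (c₀ * S) ≤ c₁ * (c₀ * S ^ 2) :=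
      mul_le_mul_of_nonneg_left (mul_le_mul_of_nonneg_left h12 hc₀.le) hc₁.le
    have h15 : c₁ * (c₀ * S ^ 2 + 1) ≤ c₁ * Real.exp (c₀ * S ^ 2) := mul_le_mul_of_nonneg_left h11 hc₁.le
    linarith

theorem HD.no_long (P : HD Λ D X F d W) {A₁ A₂ : ℝ} (hA₁ : 0 < A₁) : ∃ R η : ℝ, 0 < R ∧ 0 < η ∧ ∀ (w : ℂ → EN N) (h : ℂ → Vd (k + 1)) (a : Vd (k + 1)),
    A₁ ≤ ‖a‖ → ‖a‖ ≤ A₂ → Cw X F (ball 0 R) w h → (∀ z ∈ ball (0 : ℂ) R, ‖deriv h z - a‖ ≤ η) → False := by
  obtain ⟨δc, hδc, hcirc⟩ := P.circ (A₂ := A₂) hA₁ one_pos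
  obtain ⟨R₁, c₁, η₁, hR₁, hc₁, hη₁, hone⟩ := Long_claim P (A₂ := A₂) hA₁ _ ∅ le_rfl (δc / 2) (half_pos hδc)
  refine ⟨R₁ + 2, min η₁ (δc / 4), by linarith, lt_min hη₁ (by linarith), fun w h a ha1 ha2 hc hd => ?_⟩
  have L : Lg X F A₁ A₂ (R₁ + 2) (min η₁ (δc / 4)) w h a := ⟨ha1, ha2, hc, hd⟩
  obtain ⟨s, hs0, hs1, hs⟩ := hcirc (h 0) a ha1 ha2
  have hsn : ‖((s : ℝ) : ℂ)‖ = s := by rw [Complex.norm_real, Real.norm_of_nonneg hs0.le]
  have h1 := Long_mv L.cw.h_diff L.der 0 (s : ℂ) (mem_ball_self (by linarith)) (by rw [mem_ball_zero_iff, hsn]; linarith)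
  rw [sub_zero, hsn] at h1
  have h2 : h (s : ℂ) ∈ Gd D (δc / 2) := by
    intro b hb
    have h4 := hs (s : ℂ) hsn b hb
    have h5 : ‖h 0 + (s : ℂ) • a - b‖ ≤ ‖h (s : ℂ) - b‖ + ‖h (s : ℂ) - h 0 - (s : ℂ) • a‖ := by
      calc ‖h 0 + (s : ℂ) • a - b‖ = ‖(h (s : ℂ) - b) - (h (s : ℂ) - h 0 - (s : ℂ) • a)‖ := by
            congr 1
            abel
        _ ≤ _ := norm_sub_le _ _
    have h6 : min η₁ (δc / 4) * s ≤ δc / 4 := by
      have h7 : min η₁ (δc / 4) ≤ δc / 4 := min_le_right _ _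
      have h8 : 0 < min η₁ (δc / 4) := lt_min hη₁ (by linarith)
      nlinarith
    linarith
  obtain ⟨j, hj, -⟩ := hone _ _ _ (L.shift (R' := R₁) (z₀ := (s : ℂ)) (by rw [hsn]; linarith) (min_le_left _ _)) (by simpa only [add_zero] using h2)
  exact Finset.notMem_empty j hj

end Pool.Agent.HE
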