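import Mathlib.RingTheory.MvPolynomial.Homogeneous
import Mathlib.RingTheory.Nakayama
import Mathlib.RingTheory.Finiteness.Nakayama
import Mathlib.Algebra.Order.Antidiag.Finsupp
import Mathlib.Data.Complex.Basic
import Mathlib.Tactic

/-!
# HE Nak: a relation

`w l`, `l ≤ N`, are elements of a ring `B`, `Q s` forms of degree `e`, `Qt` a form of degree `e` whose value at `w` is a unit, and `(w l) ^ n = ∑ s, b l s (w) * Q s (w)` with forms `b l s` of degree `n - e`.  By Nakayama's lemma there is a polynomial `r` with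
constant coefficient `1` such that `(w l) ^ n'` is annihilated by the value of `r` at the elements `Q s (w) / Qt (w)`.
-/

set_option autoImplicit false

open MvPolynomial

namespace Pool.Agent.HE

theorem hc_mul {σ R : Type*} [CommRing R] {p q : MvPolynomial σ R} {e : ℕ} (hp : p.IsHomogeneous e) (d : ℕ) :
    homogeneousComponent (d + e) (q * p) = homogeneousComponent d q * p := by
  classical
  have h1 : q * p = ∑ k ∈ Finset.range (q.totalDegree + 1), homogeneousComponent k q * p := by
    rw [← Finset.sum_mul, sum_homogeneousComponent]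
  rw [h1, map_sum]
  have h2 : ∀ k ∈ Finset.range (q.totalDegree + 1), homogeneousComponent (d + e) (homogeneousComponent k q * p) =
      if k = d then homogeneousComponent k q * p else 0 := by
    intro k _
    have h3 : (homogeneousComponent k q * p).IsHomogeneous (k + e) := (homogeneousComponent_isHomogeneous k q).mul hp
    rw [homogeneousComponent_of_mem ((mem_homogeneousSubmodule _ _).2 h3)]
    by_cases hk : k = d
    · rw [if_pos (by omega), if_pos hk]
    · rw [if_neg (by omega), if_neg hk]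
  rw [Finset.sum_congr rfl h2, Finset.sum_ite_eq']
  split_ifs with h
  · rfl
  · have h3 : homogeneousComponent d q = 0 := by
      refine homogeneousComponent_eq_zero _ _ ?_
      rw [Finset.mem_range] at h
      omega
    rw [h3, zero_mul]

theorem hc_mul_lt {σ R : Type*} [CommRing R] {p q : MvPolynomial σ R} {e : ℕ} (hp : p.IsHomogeneous e) {d : ℕ} (hd : d < e) :
    homogeneousComponent d (q * p) = 0 := by
  classical
  have h1 : q * p = ∑ k ∈ Finset.range (q.totalDegree + 1), homogeneousComponent k q * p := by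
    rw [← Finset.sum_mul, sum_homogeneousComponent]
  rw [h1, map_sum]
  refine Finset.sum_eq_zero fun k _ => ?_
  have h3 : (homogeneousComponent k q * p).IsHomogeneous (k + e) := (homogeneousComponent_isHomogeneous k q).mul hp
  rw [homogeneousComponent_of_mem ((mem_homogeneousSubmodule _ _).2 h3), if_neg (by omega)]

theorem nak {R₀ B ι : Type} [CommRing R₀] [CommRing B] [Fintype ι] {N : ℕ} (θ₀ : R₀ →+* B) (w : Fin (N + 1) → B) {e n : ℕ} {Q : ι → MvPolynomial (Fin (N + 1)) R₀} {Qt : MvPolynomial (Fin (N + 1)) R₀}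
    (hQt : Qt.IsHomogeneous e) {u : B} (hu : eval₂Hom θ₀ w Qt * u = 1) {b : Fin (N + 1) → ι → MvPolynomial (Fin (N + 1)) R₀} (hn0 : 0 < n) (hn : e ≤ n)
    (hb : ∀ l s, (b l s).IsHomogeneous (n - e)) (hid : ∀ l, w l ^ n = ∑ s, eval₂Hom θ₀ w (b l s) * eval₂Hom θ₀ w (Q s)) :
    ∃ r : MvPolynomial ι R₀, constantCoeff r = 1 ∧ ∀ l, w l ^ ((N + 1) * n) * eval₂Hom θ₀ (fun s => eval₂Hom θ₀ w (Q s) * u) r = 0 := by
  classical
  set Θ : MvPolynomial (Fin (N + 1)) R₀ →+* B := eval₂Hom θ₀ w with hΘ
  set v : ι → B := fun s => Θ (Q s) * u with hv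
  obtain ⟨n', hn'⟩ : ∃ n', n' = (N + 1) * n := ⟨_, rfl⟩
  letI : Algebra (MvPolynomial ι R₀) B := (eval₂Hom θ₀ v).toAlgebra
  have hsmul : ∀ (a : MvPolynomial ι R₀) (x : B), a • x = eval₂Hom θ₀ v a * x := fun a x => rfl
  have hCs : ∀ (c : R₀) (x : B), (C c : MvPolynomial ι R₀) • x = θ₀ c * x := by
    intro c x
    rw [hsmul, coe_eval₂Hom, eval₂_C]
  have hXs : ∀ (s : ι) (x : B), (X s : MvPolynomial ι R₀) • x = v s * x := by
    intro s x
    rw [hsmul, coe_eval₂Hom, eval₂_X]
  set T : Finset (Fin (N + 1) →₀ ℕ) := Finset.finsuppAntidiag (Finset.univ : Finset (Fin (N + 1))) n' with hT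
  have hmemT : ∀ α : Fin (N + 1) →₀ ℕ, α ∈ T ↔ α.degree = n' := by
    intro α
    rw [hT, Finset.mem_finsuppAntidiag, Finsupp.degree_eq_sum]
    exact ⟨fun h => h.1, fun h => ⟨h, Finset.subset_univ _⟩⟩
  set W : Submodule (MvPolynomial ι R₀) B := Submodule.span _ ((fun α : Fin (N + 1) →₀ ℕ => Θ (monomial α 1)) '' (T : Set (Fin (N + 1) →₀ ℕ))) with hW
  set I : Ideal (MvPolynomial ι R₀) := Ideal.span (Set.range X) with hI
  have hWfg : W.FG := Submodule.fg_def.2 ⟨_, (Finset.finite_toSet T).image _, rfl⟩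
  have hdeg : ∀ {P : MvPolynomial (Fin (N + 1)) R₀} {d : ℕ}, P.IsHomogeneous d → ∀ α ∈ P.support, α.degree = d := by
    intro P d hP α hα
    have h1 := hP (mem_support_iff.1 hα)
    have h2 : Finsupp.weight (1 : Fin (N + 1) → ℕ) α = Finsupp.degree α := (congrFun (congrArg DFunLike.coe (Finsupp.degree_eq_weight_one (σ := Fin (N + 1)) (R := ℕ))) α).symm
    rw [← h2, h1]
  have hc1 : ∀ P : MvPolynomial (Fin (N + 1)) R₀, P.IsHomogeneous n' → Θ P ∈ W := by
    intro P hP
    rw [P.as_sum, map_sum]
    refine Submodule.sum_mem _ fun α hα => ?_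
    have h1 : Θ (monomial α (coeff α P)) = (C (coeff α P) : MvPolynomial ι R₀) • Θ (monomial α 1) := by
      have h2 : (monomial α (coeff α P) : MvPolynomial (Fin (N + 1)) R₀) = C (coeff α P) * monomial α 1 := by
        rw [C_mul_monomial, mul_one]
      have h3 : Θ (C (coeff α P)) = θ₀ (coeff α P) := by
        rw [hΘ, coe_eval₂Hom, eval₂_C]
      rw [hCs, h2, map_mul, h3]
    rw [h1]
    exact Submodule.smul_mem _ _ (Submodule.subset_span ⟨α, (hmemT α).2 (hdeg hP α hα), rfl⟩)
  have hWI : W ≤ I • W := by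
    rw [hW, Submodule.span_le]
    rintro _ ⟨α, hα, rfl⟩
    have hα' := (hmemT α).1 hα
    simp only [SetLike.mem_coe]
    rw [← hW]
    have h1 : Θ (monomial α 1) = u * Θ (Qt * monomial α 1) := by
      rw [map_mul]
      linear_combination (-(Θ (monomial α 1))) * hu
    have h2 : (Qt * monomial α 1).IsHomogeneous (e + n') := hQt.mul (isHomogeneous_monomial 1 hα')
    rw [h1, MvPolynomial.as_sum (Qt * monomial α 1), map_sum, Finset.mul_sum]
    refine Submodule.sum_mem _ fun β hβ => ?_
    have hβ' := hdeg h2 β hβ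
    obtain ⟨l, hl⟩ : ∃ l, n ≤ β l := by
      by_contra hcon
      push Not at hcon
      have h3 : β.degree ≤ (N + 1) * (n - 1) := by
        rw [Finsupp.degree_eq_sum]
        refine (Finset.sum_le_sum fun l _ => Nat.le_pred_of_lt (hcon l)).trans ?_
        rw [Finset.sum_const, Finset.card_univ, Fintype.card_fin, smul_eq_mul]
        exact le_rfl
      have h4 : (N + 1) * (n - 1) < (N + 1) * n := Nat.mul_lt_mul_of_pos_left (by omega) (Nat.succ_pos N)
      omega
    obtain ⟨c, hc⟩ : ∃ c, c = coeff β (Qt * monomial α 1) := ⟨_, rfl⟩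
    rw [← hc]
    obtain ⟨β', hβ''⟩ : ∃ β', β = β' + Finsupp.single l n := ⟨β - Finsupp.single l n, by
      ext j
      rw [Finsupp.add_apply, Finsupp.tsub_apply]
      by_cases hj : j = l
      · subst hj
        rw [Finsupp.single_eq_same]
        omega
      · rw [Finsupp.single_eq_of_ne hj]
        omega⟩
    have hd' : β'.degree = n' + e - n := by
      have h3 : β.degree = β'.degree + n := by
        rw [hβ'', map_add, Finsupp.degree_single]
      omega
    have h3 : (monomial β c : MvPolynomial (Fin (N + 1)) R₀) = monomial β' c * X l ^ n := by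
      rw [hβ'', X_pow_eq_monomial, monomial_mul, mul_one]
    have h4 : Θ (X l) = w l := by rw [hΘ, coe_eval₂Hom, eval₂_X]
    have h5 : u * Θ (monomial β c) = ∑ s, (X s : MvPolynomial ι R₀) • Θ (monomial β' c * b l s) := by
      rw [h3, map_mul, map_pow, h4, hid l, Finset.mul_sum, Finset.mul_sum]
      refine Finset.sum_congr rfl fun s _ => ?_
      rw [hXs, map_mul, hv]
      ring
    rw [h5]
    refine Submodule.sum_mem _ fun s _ => Submodule.smul_mem_smul (Ideal.subset_span ⟨s, rfl⟩) (hc1 _ ?_)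
    have h6 := (isHomogeneous_monomial (σ := Fin (N + 1)) c hd').mul (hb l s)
    have h7 : n' + e - n + (n - e) = n' := by
      have : n ≤ n' := by
        rw [hn']
        exact Nat.le_mul_of_pos_left n (Nat.succ_pos N)
      omega
    rwa [h7] at h6
  obtain ⟨r, hr1, hr2⟩ := Submodule.exists_sub_one_mem_and_smul_eq_zero_of_fg_of_le_smul I W hWfg hWI
  refine ⟨r, ?_, fun l => ?_⟩
  · have h1 : I ≤ RingHom.ker (constantCoeff (σ := ι) (R := R₀)) := by
      rw [hI, Ideal.span_le]
      rintro _ ⟨s, rfl⟩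
      simp
    have h2 := h1 hr1
    rw [RingHom.mem_ker, map_sub, map_one, sub_eq_zero] at h2
    exact h2
  · have h1 := hr2 (Θ (monomial (Finsupp.single l n') 1)) (Submodule.subset_span ⟨_, (hmemT _).2 (Finsupp.degree_single l n'), rfl⟩)
    have h2 : Θ (monomial (Finsupp.single l n') 1) = w l ^ n' := by
      rw [← X_pow_eq_monomial, map_pow, hΘ, coe_eval₂Hom, eval₂_X]
    rw [hsmul, h2, mul_comm] at h1
    rw [← hn']
    exact h1

end Pool.Agent.HE
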