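import Pool.Agent.HE.Nak
import Pool.Agent.HE.Bor
import Pool.Agent.HE.Fld

/-!
# HE NakB: the values of the pieces, any `κ + 1` of which have no common zeros

`TD`: `Q s` are forms of degree `e` with coefficients meromorphic at `0`; `w` is near the puncture locally proportional to a holomorphic curve (`Pa`), and they have no zeros on it.  For all `S`, `|S| = κ + 1`, and `t` a product of powers of the `Q s (w) / Q t (w)`, `s ∈ S`, is meromorphic at `0`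
(`TD.gam`).
-/

set_option autoImplicit false

open Topology Filter Metric MvPolynomial

namespace Pool.Agent.HE

open Pool.Agent.H62.FC (MeroPunct PunctMero cartan_punctMero)

variable {N m κ e : ℕ}

theorem pd_of_ev {p : ℂ → Prop} (h : ∀ᶠ z in 𝓝[≠] (0 : ℂ), p z) : ∃ R : ℝ, 0 < R ∧ ∀ z ∈ pd R, p z := by
  obtain ⟨R, hR, h1⟩ := Metric.eventually_nhds_iff_ball.1 (eventually_nhdsWithin_iff.1 h)
  exact ⟨R, hR, fun z hz => h1 z (by simpa using hz.2) (norm_pos_iff.1 hz.1)⟩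

/-- the value of a form with meromorphic coefficients on the curve -/
noncomputable def va (w : Fin (N + 1) → ℂ → ℂ) (P : MvPolynomial (Fin (N + 1)) MF) (z : ℂ) : ℂ := eval (fun i => w i z) (P.map (ev z))

/-- `w` is near `z` proportional to a holomorphic curve -/
def Pa (w : Fin (N + 1) → ℂ → ℂ) (z : ℂ) : Prop := ∃ φ : Fin (N + 1) → ℂ → ℂ, (∀ i, AnalyticAt ℂ (φ i) z) ∧ ∀ᶠ ζ in 𝓝 z, ∃ c : ℂ, c ≠ 0 ∧ ∀ i, w i ζ = c * φ i ζ

/-- the transferred data -/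
structure TD (κ : ℕ) (e : ℕ) (w : Fin (N + 1) → ℂ → ℂ) (Q : Fin m → MvPolynomial (Fin (N + 1)) MF) : Prop where
  an : ∀ᶠ z in 𝓝[≠] (0 : ℂ), Pa w z
  ne : ∀ᶠ z in 𝓝[≠] (0 : ℂ), ∃ i, w i z ≠ 0
  pos : 0 < e
  hom : ∀ s, (Q s).IsHomogeneous e
  val : ∀ s, ∀ᶠ z in 𝓝[≠] (0 : ℂ), va w (Q s) z ≠ 0
  id : ∀ S : Finset (Fin m), S.card = κ + 1 → ∃ n : ℕ, 0 < n ∧ e ≤ n ∧ ∃ b : Fin (N + 1) → Fin m → MvPolynomial (Fin (N + 1)) MF, (∀ l s, (b l s).IsHomogeneous (n - e)) ∧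
    ∀ l, ∀ᶠ z in 𝓝[≠] (0 : ℂ), w l z ^ n = ∑ s ∈ S, va w (b l s) z * va w (Q s) z

/-- germs at the puncture -/
noncomputable def gp : (ℂ → ℂ) →+* Germ (𝓝[≠] (0 : ℂ)) ℂ := Germ.coeRingHom _

theorem gp_eq (f g : ℂ → ℂ) : gp f = gp g ↔ ∀ᶠ z in 𝓝[≠] (0 : ℂ), f z = g z := Germ.coe_eq

theorem gp_va {σ : Type} (w : σ → ℂ → ℂ) (P : MvPolynomial σ MF) : eval₂Hom (gp.comp MF.subtype) (fun i => gp (w i)) P = gp fun z => eval (fun i => w i z) (P.map (ev z)) := by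
  have h1 : (fun z => eval (fun i => w i z) (P.map (ev z))) = eval₂ MF.subtype w P := by
    funext z
    rw [eval_map]
    have h2 := MvPolynomial.eval₂_comp_left (Pi.evalRingHom (fun _ : ℂ => ℂ) z) MF.subtype w P
    exact h2.symm
  rw [h1, coe_eval₂Hom]
  exact (MvPolynomial.eval₂_comp_left gp MF.subtype w P).symm

theorem mf_an (f : MF) : ∀ᶠ z in 𝓝[≠] (0 : ℂ), AnalyticAt ℂ (f : ℂ → ℂ) z := f.2.eventually_analyticAt

/-- values are holomorphic -/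
private theorem va_an_at {φ : Fin (N + 1) → ℂ → ℂ} {P : MvPolynomial (Fin (N + 1)) MF} {z : ℂ} (h3 : ∀ α ∈ P.support, AnalyticAt ℂ ((P.coeff α : MF) : ℂ → ℂ) z) (h4 : ∀ i, AnalyticAt ℂ (φ i) z) :
    AnalyticAt ℂ (va φ P) z := by
  have h5 : va φ P = fun z => ∑ α ∈ P.support, ((P.coeff α : MF) : ℂ → ℂ) z * ∏ i, φ i z ^ α i := by
    funext z
    unfold va
    rw [eval_map, MvPolynomial.eval₂_eq']
    rfl
  rw [h5]
  exact Finset.analyticAt_fun_sum _ fun α hα => (h3 α hα).mul (Finset.analyticAt_fun_prod _ fun i _ => (h4 i).pow _)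

theorem va_scale {P : MvPolynomial (Fin (N + 1)) MF} {d : ℕ} (hP : P.IsHomogeneous d) {w φ : Fin (N + 1) → ℂ → ℂ} {c ζ : ℂ} (h : ∀ i, w i ζ = c * φ i ζ) : va w P ζ = c ^ d * va φ P ζ := by
  unfold va
  rw [eval_map, eval_map, MvPolynomial.eval₂_eq', MvPolynomial.eval₂_eq', Finset.mul_sum]
  refine Finset.sum_congr rfl fun α hα => ?_
  have h3 : α.degree = d := by
    have h4 := hP (mem_support_iff.1 hα)
    have h5 : Finsupp.weight (1 : Fin (N + 1) → ℕ) α = Finsupp.degree α := (congrFun (congrArg DFunLike.coe (Finsupp.degree_eq_weight_one (σ := Fin (N + 1)) (R := ℕ))) α).symm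
    rw [← h5, h4]
  have h6 : ∏ i, w i ζ ^ α i = c ^ d * ∏ i, φ i ζ ^ α i := by
    rw [Finset.prod_congr rfl fun i _ => by rw [h i, mul_pow], Finset.prod_mul_distrib, Finset.prod_pow_eq_pow_sum]
    congr 2
    rw [← h3, Finsupp.degree_eq_sum]
  rw [h6]
  ring

/-- quotients of values of forms of the same degree are holomorphic -/
theorem va_quo {w : Fin (N + 1) → ℂ → ℂ} (hw : ∀ᶠ z in 𝓝[≠] (0 : ℂ), Pa w z) {P P' : MvPolynomial (Fin (N + 1)) MF} {d : ℕ} (hP : P.IsHomogeneous d) (hP' : P'.IsHomogeneous d)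
    (hne : ∀ᶠ z in 𝓝[≠] (0 : ℂ), va w P' z ≠ 0) : ∀ᶠ z in 𝓝[≠] (0 : ℂ), AnalyticAt ℂ (fun z => va w P z / va w P' z) z := by
  have h1 : ∀ P : MvPolynomial (Fin (N + 1)) MF, ∀ᶠ z in 𝓝[≠] (0 : ℂ), ∀ α ∈ P.support, AnalyticAt ℂ ((P.coeff α : MF) : ℂ → ℂ) z := fun P => (Finset.eventually_all _).2 fun α _ => mf_an _
  filter_upwards [h1 P, h1 P', hw, hne] with z h2 h3 h4 h5
  obtain ⟨φ, h6, h7⟩ := h4
  have h8 : va φ P' z ≠ 0 := by
    obtain ⟨c, hc, h9⟩ := h7.self_of_nhds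
    rw [va_scale hP' h9] at h5
    exact right_ne_zero_of_mul h5
  refine ((va_an_at h2 h6).div (va_an_at h3 h6) h8).congr ?_
  filter_upwards [h7] with ζ h9
  obtain ⟨c, hc, h10⟩ := h9
  rw [va_scale hP h10, va_scale hP' h10, mul_div_mul_left _ _ (pow_ne_zero _ hc)]
  rfl

/-- **A product of powers of the quotients is meromorphic.** -/
theorem TD.gam {w : Fin (N + 1) → ℂ → ℂ} {Q : Fin m → MvPolynomial (Fin (N + 1)) MF} (T : TD κ e w Q) {S : Finset (Fin m)} (hS : S.card = κ + 1) (t : Fin m) :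
    ∃ γ : Fin m → ℕ, (∀ s, γ s ≠ 0 → s ∈ S) ∧ (∃ s, γ s ≠ 0) ∧ PunctMero fun z => ∏ s ∈ S, (va w (Q s) z / va w (Q t) z) ^ γ s := by
  classical
  obtain ⟨n, hn0, hne, b, hb, hid⟩ := T.id S hS
  set θ₀ : MF →+* Germ (𝓝[≠] (0 : ℂ)) ℂ := gp.comp MF.subtype with hθ₀
  have hΘ : ∀ P : MvPolynomial (Fin (N + 1)) MF, eval₂Hom θ₀ (fun i => gp (w i)) P = gp (va w P) := fun P => gp_va w P
  obtain ⟨r, hr1, hr2⟩ := nak (ι := S) (B := Germ (𝓝[≠] (0 : ℂ)) ℂ) θ₀ (fun i => gp (w i)) (e := e) (n := n) (Q := fun s => Q s) (Qt := Q t) (T.hom t)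
    (u := gp fun z => (va w (Q t) z)⁻¹) (by
      rw [hΘ, ← map_mul, ← map_one gp, gp_eq]
      filter_upwards [T.val t] with z hz
      exact mul_inv_cancel₀ hz) (b := fun l s => b l s) hn0 hne (fun l s => hb l s) (fun l => by
      have h1 : ∀ s : S, eval₂Hom θ₀ (fun i => gp (w i)) (b l s) * eval₂Hom θ₀ (fun i => gp (w i)) (Q s) = gp (va w (b l s) * va w (Q s)) := fun s => by
        rw [hΘ, hΘ, map_mul]
      rw [Finset.sum_congr rfl fun s _ => h1 s, ← map_sum, ← map_pow, gp_eq]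
      filter_upwards [hid l] with z hz
      rw [Pi.pow_apply, hz, Finset.sum_apply, ← Finset.sum_coe_sort S]
      rfl)
  -- the quotients
  obtain ⟨v, hv⟩ : ∃ v : S → ℂ → ℂ, v = fun (s : S) (z : ℂ) => va w (Q s) z / va w (Q t) z := ⟨_, rfl⟩
  have hvs : (fun s : S => eval₂Hom θ₀ (fun i => gp (w i)) (Q s) * gp fun z => (va w (Q t) z)⁻¹) = fun s => gp (v s) := by
    funext s
    rw [hΘ, ← map_mul, hv]
    rfl
  rw [hvs, hθ₀, gp_va] at hr2
  have hrel : ∀ᶠ z in 𝓝[≠] (0 : ℂ), eval (fun s => v s z) (r.map (ev z)) = 0 := by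
    have h1 : ∀ l, ∀ᶠ z in 𝓝[≠] (0 : ℂ), w l z ^ ((N + 1) * n) * eval (fun s => v s z) (r.map (ev z)) = 0 := by
      intro l
      have h2 := hr2 l
      rw [← map_pow, ← map_mul, ← map_zero gp, gp_eq] at h2
      exact h2
    filter_upwards [Filter.eventually_all.2 h1, T.ne] with z h2 h3
    obtain ⟨l, hl⟩ := h3
    exact (mul_eq_zero.1 (h2 l)).resolve_left (pow_ne_zero _ hl)
  -- the monomials
  obtain ⟨y, hy⟩ : ∃ y : (S →₀ ℕ) → ℂ → ℂ, y = fun γ z => ev z (coeff γ r) * ∏ s, v s z ^ γ s := ⟨_, rfl⟩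
  have hval : ∀ z, eval (fun s => v s z) (r.map (ev z)) = ∑ γ ∈ r.support, y γ z := by
    intro z
    rw [eval_map, MvPolynomial.eval₂_eq', hy]
  set supp : Finset (S →₀ ℕ) := r.support.filter fun γ => ¬ ∀ᶠ z in 𝓝[≠] (0 : ℂ), ev z (coeff γ r) = 0 with hsupp
  have hcne : ∀ γ ∈ supp, ∀ᶠ z in 𝓝[≠] (0 : ℂ), ev z (coeff γ r) ≠ 0 := by
    intro γ hγ
    rw [hsupp, Finset.mem_filter] at hγ
    exact ((coeff γ r).2.eventually_eq_zero_or_eventually_ne_zero).resolve_left hγ.2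
  have hvan : ∀ s : S, ∀ᶠ z in 𝓝[≠] (0 : ℂ), AnalyticAt ℂ (v s) z ∧ v s z ≠ 0 := by
    intro s
    filter_upwards [va_quo T.an (T.hom s) (T.hom t) (T.val t), T.val s, T.val t] with z h1 h3 h4
    rw [hv]
    exact ⟨h1, div_ne_zero h3 h4⟩
  have hyan : ∀ γ, ∀ᶠ z in 𝓝[≠] (0 : ℂ), AnalyticAt ℂ (y γ) z := by
    intro γ
    filter_upwards [Filter.eventually_all.2 hvan, mf_an (coeff γ r)] with z h1 h2
    rw [hy]
    exact h2.mul (Finset.analyticAt_fun_prod _ fun s _ => (h1 s).1.pow _)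
  have hyne : ∀ γ ∈ supp, ∀ᶠ z in 𝓝[≠] (0 : ℂ), y γ z ≠ 0 := by
    intro γ hγ
    filter_upwards [Filter.eventually_all.2 hvan, hcne γ hγ] with z h1 h2
    rw [hy]
    exact mul_ne_zero h2 (Finset.prod_ne_zero_iff.2 fun s _ => pow_ne_zero _ (h1 s).2)
  have hysum : ∀ᶠ z in 𝓝[≠] (0 : ℂ), ∑ γ ∈ supp, y γ z = 0 := by
    have h1 : ∀ᶠ z in 𝓝[≠] (0 : ℂ), ∀ γ ∈ r.support, γ ∉ supp → y γ z = 0 := by
      rw [Finset.eventually_all]
      intro γ hγ
      by_cases hs : γ ∈ supp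
      · exact Filter.Eventually.of_forall fun z h => absurd hs h
      · have h2 : ∀ᶠ z in 𝓝[≠] (0 : ℂ), ev z (coeff γ r) = 0 := by
          by_contra hcon
          exact hs (by rw [hsupp, Finset.mem_filter]; exact ⟨hγ, hcon⟩)
        filter_upwards [h2] with z hz _
        rw [hy]
        simp only
        rw [hz, zero_mul]
    filter_upwards [hrel, h1] with z h2 h3
    rw [hval] at h2
    rw [← h2]
    exact Finset.sum_subset (Finset.filter_subset _ _) h3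
  obtain ⟨R, hR, hall⟩ := pd_of_ev (p := fun z => (∀ γ ∈ supp, AnalyticAt ℂ (y γ) z ∧ y γ z ≠ 0) ∧ ∑ γ ∈ supp, y γ z = 0) (by
    have h1 : ∀ᶠ z in 𝓝[≠] (0 : ℂ), ∀ γ ∈ supp, AnalyticAt ℂ (y γ) z ∧ y γ z ≠ 0 := by
      rw [Finset.eventually_all]
      intro γ hγ
      filter_upwards [hyan γ, hyne γ hγ] with z h2 h3 using ⟨h2, h3⟩
    filter_upwards [h1, hysum] with z h2 h3 using ⟨h2, h3⟩)
  have h0 : (0 : S →₀ ℕ) ∈ supp := by
    have h1 : coeff (0 : S →₀ ℕ) r = 1 := hr1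
    rw [hsupp, Finset.mem_filter, mem_support_iff, h1]
    refine ⟨one_ne_zero, fun h2 => ?_⟩
    obtain ⟨z, hz⟩ := h2.exists
    rw [map_one] at hz
    exact one_ne_zero hz
  obtain ⟨γ, hγ, hγ0, hpm⟩ := borel hR supp (y := y) (fun γ hγ z hz => ((hall z hz).1 γ hγ).1.differentiableAt.differentiableWithinAt) (fun γ hγ z hz => ((hall z hz).1 γ hγ).2)
    (fun z hz => (hall z hz).2) h0
  refine ⟨fun s => if h : s ∈ S then γ ⟨s, h⟩ else 0, fun s hs => ?_, ?_, ?_⟩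
  · by_contra h
    beta_reduce at hs
    rw [dif_neg h] at hs
    exact hs rfl
  · obtain ⟨s, hs⟩ := Finsupp.ne_iff.1 hγ0
    refine ⟨s, ?_⟩
    beta_reduce
    rw [dif_pos s.2]
    exact hs
  · have h1 : PunctMero fun z => (y γ z / y 0 z) * (ev z (coeff γ r))⁻¹ := hpm.mul (PunctMero.of_meromorphicAt (coeff γ r).2).inv
    refine h1.congr ?_
    have h2 : ∀ᶠ z in 𝓝[≠] (0 : ℂ), ∀ᶠ ζ in 𝓝[≠] z, ev ζ (coeff γ r) ≠ 0 := by
      obtain ⟨R', hR', h3⟩ := pd_of_ev (hcne γ hγ)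
      filter_upwards [pd_ev hR'] with z hz
      filter_upwards [nhdsWithin_le_nhds ((pd_open R').mem_nhds hz)] with ζ hζ using h3 ζ hζ
    filter_upwards [h2] with z h3
    filter_upwards [h3] with ζ h4
    have h5 : y 0 ζ = 1 := by
      have h6 : coeff (0 : S →₀ ℕ) r = 1 := hr1
      rw [hy]
      simp only
      rw [h6, map_one, one_mul]
      exact Finset.prod_eq_one fun s _ => by rw [Finsupp.zero_apply, pow_zero]
    rw [h5, div_one, hy]
    simp only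
    rw [mul_comm, ← mul_assoc, inv_mul_cancel₀ h4, one_mul, ← Finset.prod_coe_sort S]
    refine Finset.prod_congr rfl fun s _ => ?_
    rw [dif_pos s.2, hv]

end Pool.Agent.HE
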