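import Pool.Agent.HE.Fld

/-!
# HE TrA: roots of separable polynomials over the field of germs, after a substitution `τ ^ M`
-/

set_option autoImplicit false

open Topology Filter Metric Polynomial

namespace Pool.Agent.HE

open Pool.Agent.PX (Pt roots_pow)

variable {𝒰 𝒱 : Ultrafilter ℂ}

theorem pzero (h𝒰 : (𝒰 : Filter ℂ) ≤ 𝓝[≠] 0) {A : MF[X]} (hA : A.map (φg 𝒰) = 0) : ∀ᶠ z in 𝓝[≠] (0 : ℂ), A.map (ev z) = 0 := by
  have h1 : ∀ i ∈ Finset.range (A.natDegree + 1), ∀ᶠ z in 𝓝[≠] (0 : ℂ), ev z (A.coeff i) = 0 := by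
    intro i _
    refine φg_zero h𝒰 ?_
    rw [← coeff_map, hA, coeff_zero]
  rw [← Finset.eventually_all] at h1
  filter_upwards [h1] with z hz
  ext i
  rw [coeff_map, coeff_zero]
  rcases Nat.lt_or_ge i (A.natDegree + 1) with hi | hi
  · exact hz i (Finset.mem_range.2 hi)
  · rw [coeff_eq_zero_of_natDegree_lt (by omega), map_zero]

theorem peq (h𝒰 : (𝒰 : Filter ℂ) ≤ 𝓝[≠] 0) {A B : MF[X]} (hA : A.map (φg 𝒰) = B.map (φg 𝒰)) : ∀ᶠ z in 𝓝[≠] (0 : ℂ), A.map (ev z) = B.map (ev z) := by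
  have h1 := pzero h𝒰 (A := A - B) (by rw [Polynomial.map_sub, hA, sub_self])
  filter_upwards [h1] with z hz
  rwa [Polynomial.map_sub, sub_eq_zero] at hz

/-- a root after the substitution -/
theorem exists_root_pb (h𝒰 : (𝒰 : Filter ℂ) ≤ 𝓝[≠] 0) (h𝒱 : (𝒱 : Filter ℂ) ≤ 𝓝[≠] 0) {p : (Fg 𝒰)[X]} (hp : p.Monic) (hsep : p.Separable) (hdeg : 0 < p.natDegree) :
    ∃ (M : ℕ) (hM : 0 < M) (β : Fg 𝒱), (p.map (pbF h𝒰 h𝒱 hM)).eval β = 0 := by
  classical
  obtain ⟨A', B', hAB⟩ := hsep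
  have hsurj := Polynomial.map_surjective (φg 𝒰) (φg_surj 𝒰)
  obtain ⟨P, hP, hPd, hPm⟩ := lifts_and_natDegree_eq_and_monic (f := φg 𝒰) (p := p) ((mem_lifts _).2 (hsurj p)) hp
  obtain ⟨A, hA⟩ := hsurj A'
  obtain ⟨B, hB⟩ := hsurj B'
  have e3 := peq h𝒰 (A := A * P + B * derivative P) (B := 1) (by
    rw [Polynomial.map_add, Polynomial.map_mul, Polynomial.map_mul, ← derivative_map, hP, hA, hB, Polynomial.map_one, hAB])
  obtain ⟨m, hm⟩ : ∃ m, m = P.natDegree := ⟨_, rfl⟩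
  have hm0 : 0 < m := by rw [hm, hPd]; exact hdeg
  -- the orders of the poles
  have hn : ∀ i, ∃ n : ℕ, AnalyticAt ℂ (fun z : ℂ => z ^ n * (P.coeff i : ℂ → ℂ) z) 0 := by
    intro i
    obtain ⟨n, h1⟩ := (P.coeff i).2
    refine ⟨n, ?_⟩
    simpa using h1
  choose n hn using hn
  obtain ⟨K, hK⟩ : ∃ K : ℕ, ∀ i < m, n i ≤ K := ⟨∑ i ∈ Finset.range m, n i, fun i hi => Finset.single_le_sum (f := n) (fun _ _ => Nat.zero_le _) (Finset.mem_range.2 hi)⟩
  obtain ⟨c, hc⟩ : ∃ c : Fin m → ℂ → ℂ, c = fun (i : Fin m) (z : ℂ) => z ^ (K * (m - (i : ℕ))) * (P.coeff (i : ℕ) : ℂ → ℂ) z := ⟨_, rfl⟩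
  have hcan : ∀ i, AnalyticAt ℂ (c i) 0 := by
    intro i
    have h1 : n i ≤ K * (m - i) := by
      have h2 := hK i i.2
      have h3 : 1 ≤ m - (i : ℕ) := by have := i.2; omega
      calc n i ≤ K * 1 := by omega
        _ ≤ K * (m - i) := Nat.mul_le_mul_left K h3
    have h2 : c i = fun z => z ^ (K * (m - i) - n i) * (z ^ n i * (P.coeff i : ℂ → ℂ) z) := by
      rw [hc]
      funext z
      simp only
      rw [← mul_assoc, ← pow_add, Nat.sub_add_cancel h1]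
    rw [h2]
    exact (analyticAt_id.pow _).mul (hn i)
  -- the rescaled polynomial
  have hPt : ∀ z t, z ≠ 0 → Pt c z t = z ^ (K * m) * (P.map (ev z)).eval (t / z ^ K) := by
    intro z t hz
    have hzK : z ^ K ≠ 0 := pow_ne_zero K hz
    have h1 := (hPm.map (ev z)).as_sum
    rw [hPm.natDegree_map, ← hm] at h1
    rw [h1, Polynomial.eval_add, Polynomial.eval_pow, Polynomial.eval_X, Polynomial.eval_finsetSum, Finset.sum_range, mul_add, Finset.mul_sum]
    unfold Pt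
    congr 1
    · rw [div_pow, ← pow_mul]
      field_simp
    · refine Finset.sum_congr rfl fun i _ => ?_
      rw [Polynomial.eval_mul, Polynomial.eval_C, Polynomial.eval_pow, Polynomial.eval_X, Polynomial.coeff_map, hc]
      simp only
      have h2 : K * m = K * (m - i) + K * i := by
        rw [← Nat.mul_add, Nat.sub_add_cancel i.2.le]
      rw [h2, pow_add, div_pow, ← pow_mul, ev_apply]
      have h3 : z ^ (K * (i : ℕ)) ≠ 0 := pow_ne_zero _ hz
      field_simp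
  have hall : ∀ᶠ z in 𝓝[≠] (0 : ℂ), (∀ i, DifferentiableAt ℂ (c i) z) ∧ (A * P + B * derivative P).map (ev z) = (1 : MF[X]).map (ev z) := by
    have h1 : ∀ᶠ z in 𝓝 (0 : ℂ), ∀ i, DifferentiableAt ℂ (c i) z := by
      rw [Filter.eventually_all]
      intro i
      filter_upwards [(hcan i).eventually_analyticAt] with z hz using hz.differentiableAt
    filter_upwards [nhdsWithin_le_nhds h1, e3] with z h2 h3 using ⟨h2, h3⟩
  obtain ⟨R, hR, hR'⟩ := Metric.eventually_nhds_iff_ball.1 (eventually_nhdsWithin_iff.1 hall)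
  obtain ⟨N, hN, ρ, hρ, hρN, e, he, heq⟩ := roots_pow (c := c) hR (fun i z hz => by
      by_cases h0 : z = 0
      · rw [h0]
        exact (hcan i).differentiableAt.differentiableWithinAt
      · exact ((hR' z hz h0).1 i).differentiableWithinAt) (fun z hz h0 t ht => by
      have h1 := (hR' z hz h0).2
      rw [Polynomial.map_add, Polynomial.map_mul, Polynomial.map_mul, Polynomial.map_one, ← derivative_map] at h1
      have hz0 : z ^ (K * m) ≠ 0 := pow_ne_zero _ h0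
      rw [hPt z t h0] at ht
      have h2 := (mul_eq_zero.1 ht).resolve_left hz0
      have h3 := congrArg (Polynomial.eval (t / z ^ K)) h1
      rw [Polynomial.eval_add, Polynomial.eval_mul, Polynomial.eval_mul, h2, mul_zero, zero_add, Polynomial.eval_one] at h3
      have h4 : (derivative (P.map (ev z))).eval (t / z ^ K) ≠ 0 := by
        intro h5
        rw [h5, mul_zero] at h3
        exact zero_ne_one h3
      have h5 : HasDerivAt (Pt c z) (z ^ (K * m) * ((derivative (P.map (ev z))).eval (t / z ^ K) * (1 / z ^ K))) t := by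
        have h6 : Pt c z = fun t => z ^ (K * m) * (P.map (ev z)).eval (t / z ^ K) := funext fun t => hPt z t h0
        rw [h6]
        refine HasDerivAt.const_mul _ ?_
        have h7 : HasDerivAt (fun t : ℂ => t / z ^ K) (1 / z ^ K) t := (hasDerivAt_id t).div_const _
        exact (Polynomial.hasDerivAt (P.map (ev z)) (t / z ^ K)).comp t h7
      rw [h5.deriv]
      exact mul_ne_zero hz0 (mul_ne_zero h4 (one_div_ne_zero (pow_ne_zero K h0))))
  -- the root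
  obtain ⟨β, hβ⟩ : ∃ β : ℂ → ℂ, β = fun τ => e ⟨0, hm0⟩ τ / (τ ^ N) ^ K := ⟨_, rfl⟩
  have hβm : MeromorphicAt β 0 := by
    rw [hβ]
    have h1 : AnalyticAt ℂ (e ⟨0, hm0⟩) 0 := (he ⟨0, hm0⟩).analyticAt (ball_mem_nhds _ hρ)
    exact h1.meromorphicAt.div ((analyticAt_id.pow N).pow K).meromorphicAt
  refine ⟨N, hN, φg 𝒱 ⟨β, hβm⟩, ?_⟩
  have h1 : (p.map (pbF h𝒰 h𝒱 hN)).eval (φg 𝒱 ⟨β, hβm⟩) = φg 𝒱 ((P.map (pb N hN)).eval ⟨β, hβm⟩) := by
    have h2 : p.map (pbF h𝒰 h𝒱 hN) = (P.map (pb N hN)).map (φg 𝒱) := by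
      rw [← hP, Polynomial.map_map, Polynomial.map_map]
      congr 1
      ext x
      rw [RingHom.comp_apply, pbF_φg]
      rfl
    rw [h2, Polynomial.eval_map, Polynomial.eval₂_at_apply]
  rw [h1]
  refine φg_of h𝒱 ?_
  have h2 : ∀ᶠ τ in 𝓝[≠] (0 : ℂ), τ ∈ ball (0 : ℂ) ρ := nhdsWithin_le_nhds (ball_mem_nhds _ hρ)
  filter_upwards [h2, self_mem_nhdsWithin] with τ hτ hτ0
  have hτN : τ ^ N ≠ 0 := pow_ne_zero N hτ0
  have h3 := heq τ hτ (e ⟨0, hm0⟩ τ)
  rw [Finset.prod_eq_zero (Finset.mem_univ ⟨0, hm0⟩) (sub_self _), hPt _ _ hτN] at h3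
  have h4 := (mul_eq_zero.1 h3).resolve_left (pow_ne_zero _ hτN)
  have h5 : ev τ ((P.map (pb N hN)).eval ⟨β, hβm⟩) = (P.map (ev (τ ^ N))).eval (ev τ ⟨β, hβm⟩) := by
    rw [Polynomial.eval_map, Polynomial.hom_eval₂, Polynomial.eval_map]
    congr 1
  rw [h5]
  have h6 : ev τ ⟨β, hβm⟩ = e ⟨0, hm0⟩ τ / (τ ^ N) ^ K := congrFun hβ τ
  rw [h6]
  exact h4

end Pool.Agent.HE
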