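import Pool.Agent.HE.TrA

/-!
# HE TrB: transfer

Every finitely generated algebra over the field `Fg 𝒰` of meromorphic germs has a homomorphism to `Fg 𝒱` which is a substitution `τ ^ M` on `Fg 𝒰`: a maximal ideal (Zariski's lemma), a primitive element, and `exists_root_pb`.
-/

set_option autoImplicit false

open Topology Filter Metric Polynomial

namespace Pool.Agent.HE

variable {𝒰 𝒱 : Ultrafilter ℂ}

theorem transfer (h𝒰 : (𝒰 : Filter ℂ) ≤ 𝓝[≠] 0) (h𝒱 : (𝒱 : Filter ℂ) ≤ 𝓝[≠] 0) (A : Type) [CommRing A] [Nontrivial A] [Algebra (Fg 𝒰) A] [Algebra.FiniteType (Fg 𝒰) A] :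
    ∃ (M : ℕ) (hM : 0 < M) (Ψ : A →+* Fg 𝒱), ∀ x : Fg 𝒰, Ψ (algebraMap (Fg 𝒰) A x) = pbF h𝒰 h𝒱 hM x := by
  classical
  have := Fg_charZero h𝒰
  obtain ⟨I, hI⟩ := Ideal.exists_maximal A
  let _ : Field (A ⧸ I) := Ideal.Quotient.field I
  have : Module.Finite (Fg 𝒰) (A ⧸ I) := finite_of_finite_type_of_isJacobsonRing (Fg 𝒰) (A ⧸ I)
  let pb' := Field.powerBasisOfFiniteOfSeparable (Fg 𝒰) (A ⧸ I)
  have hint : IsIntegral (Fg 𝒰) pb'.gen := Algebra.IsIntegral.isIntegral _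
  obtain ⟨M, hM, β, hβ⟩ := exists_root_pb h𝒰 h𝒱 (minpoly.monic hint) (Algebra.IsSeparable.isSeparable (Fg 𝒰) pb'.gen) (minpoly.natDegree_pos hint)
  let _ : Algebra (Fg 𝒰) (Fg 𝒱) := (pbF h𝒰 h𝒱 hM).toAlgebra
  have h1 : Polynomial.aeval β (minpoly (Fg 𝒰) pb'.gen) = 0 := by
    rw [Polynomial.aeval_def, ← Polynomial.eval_map]
    exact hβ
  refine ⟨M, hM, (pb'.lift β h1).toRingHom.comp (Ideal.Quotient.mk I), fun x => ?_⟩
  exact (pb'.lift β h1).commutes x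

end Pool.Agent.HE
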